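import Pool.Agent.Lib.MP_391708_nt.X.U.Spec

/-!
# THEOREM X (MP_391708), part U, module ATY: the number of atypical characters
-/

set_option autoImplicit false

namespace Pool.Agent.Lib.MP391708.XU

open Finset Filter Topology Pool.Agent.Lib.MP391708.MR
open Pool.Agent.Lib.MP391708.XV (md chs ph hat atyp)

namespace ATYM

/-- the inequality between the logarithms, for large `x = log N` -/
lemma key (C c cP a : ℝ) (hC : 0 < C) (hc : 0 < c) (hcP : 24 / c ≤ cP) (hcP1 : 1 ≤ cP) (_ha : 0 ≤ a) :
    ∀ᶠ x : ℝ in atTop, 2 ≤ Real.log x ∧ 1 ≤ x ∧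
      2 * a * Real.log x ≤ x / 5 ∧
      6 / 5 * x / (cP * Real.log x) + 1 ≤ x ∧
      Real.log (2 * C) + 2 * (6 / 5 * x / (cP * Real.log x) + 1) * Real.log x +
        (Real.log x + Real.log 2 + Real.log (Real.log 2 + cP * Real.log x)) +
        (6 / 5 * x / (cP * Real.log x) + 1) * Real.log 4 + c / 4 * (6 / 5 * x + cP * Real.log x) ≤
          c * x := by
  have hcP0 : 0 < cP := by linarith
  have hlog : Tendsto Real.log atTop atTop := Real.tendsto_log_atTop
  -- small parameters
  have h0 : ∀ ε : ℝ, 0 < ε → ∀ᶠ x : ℝ in atTop, Real.log x ≤ ε * x := by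
    intro ε hε
    have := (Real.isLittleO_log_id_atTop.def hε)
    filter_upwards [this, eventually_ge_atTop 1] with x hx hx1
    simp only [id] at hx
    rw [Real.norm_of_nonneg (Real.log_nonneg hx1), Real.norm_of_nonneg (by linarith)] at hx
    exact hx
  have hlarge : ∀ M : ℝ, ∀ᶠ x : ℝ in atTop, M ≤ Real.log x := fun M =>
    hlog.eventually (eventually_ge_atTop M)
  have hlarge' : ∀ M : ℝ, ∀ᶠ x : ℝ in atTop, M ≤ x := fun M => eventually_ge_atTop M
  set ε1 : ℝ := c / (100 * (cP + 1) * (1 + c)) with hε1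
  have hε1p : 0 < ε1 := by positivity
  set ε2 : ℝ := 1 / (10 * (a + 1)) with hε2
  have hε2p : 0 < ε2 := by positivity
  have hll : ∀ᶠ x : ℝ in atTop, Real.log (Real.log 2 + cP * Real.log x) ≤ (cP + 1) * Real.log x := by
    filter_upwards [hlarge 2] with x hx
    have h2 : Real.log 2 ≤ 1 := by
      have := Real.log_two_lt_d9; linarith
    have h3 : 0 < Real.log 2 + cP * Real.log x := by
      have := (Real.log_pos (by norm_num : (1 : ℝ) < 2))
      have : 0 < cP * Real.log x := by positivity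
      linarith
    have h4 := Real.log_le_sub_one_of_pos h3
    nlinarith
  filter_upwards [hlarge 2, hlarge' 1, h0 ε1 hε1p, h0 ε2 hε2p, h0 (1 / 10) (by norm_num), hll,
    hlarge (100 * (1 + c) / c), hlarge' (100 * (1 + |Real.log (2 * C)|) / c),
    hlarge' (100 * (1 + 1 / c)), hlarge' 100] with x h1 h2 h3 h4 h5 h6 h7 h8 h9 h10
  have hx0 : 0 < x := by linarith
  have hL0 : 0 < Real.log x := by linarith
  have hl2 : Real.log 2 ≤ 1 := by
    have := Real.log_two_lt_d9; linarith
  have hl2p := (Real.log_pos (by norm_num : (1 : ℝ) < 2))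
  have hl4 : Real.log 4 ≤ 2 := by
    have : Real.log 4 = 2 * Real.log 2 := by
      rw [show (4 : ℝ) = 2 ^ 2 by norm_num, Real.log_pow]; norm_num
    linarith
  have hl4p : 0 < Real.log 4 := Real.log_pos (by norm_num)
  -- the quotient
  set q : ℝ := 6 / 5 * x / (cP * Real.log x) with hq
  have hq0 : 0 < q := by positivity
  have hqL : q * Real.log x = 6 / 5 * x / cP := by
    rw [hq]; field_simp
  have hqL' : q * Real.log x ≤ c / 20 * x := by
    rw [hqL, div_le_iff₀ hcP0]
    have : 24 ≤ c * cP := by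
      rw [div_le_iff₀ hc] at hcP; linarith
    nlinarith
  have hq1 : q ≤ 6 / 5 * x / Real.log x := by
    rw [hq]
    apply div_le_div_of_nonneg_left (by positivity) hL0
    nlinarith
  have hq2 : q * 4 ≤ c / 20 * x := by
    have hcx : 100 * (1 + c) ≤ c * Real.log x := by
      rw [div_le_iff₀ hc] at h7; linarith
    have h11 : q * Real.log x ≤ 6 / 5 * x := by
      rw [hqL, div_le_iff₀ hcP0]; nlinarith
    have h12 : q * (100 * (1 + c)) ≤ q * (c * Real.log x) := mul_le_mul_of_nonneg_left hcx hq0.le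
    have h13 : q * (c * Real.log x) ≤ c * (6 / 5 * x) := by
      have := mul_le_mul_of_nonneg_left h11 hc.le
      linarith
    have h14 : q * 100 ≤ q * (100 * (1 + c)) := by
      apply mul_le_mul_of_nonneg_left _ hq0.le
      linarith
    nlinarith
  have hLe : Real.log x * (100 * (cP + 1) * (1 + c)) ≤ c * x := by
    have h15 := mul_le_mul_of_nonneg_right h3 (show (0 : ℝ) ≤ 100 * (cP + 1) * (1 + c) by positivity)
    have h16 : ε1 * x * (100 * (cP + 1) * (1 + c)) = c * x := by
      rw [hε1]; field_simp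
    linarith
  have hL1 : (cP + 1) * Real.log x ≤ c / 100 * x := by
    have : 0 ≤ Real.log x * (100 * (cP + 1)) * c := by positivity
    nlinarith
  have hL1' : c * (cP * Real.log x) ≤ c / 100 * x := by
    have h17 : 0 ≤ Real.log x * (100 * (cP + 1)) := by positivity
    have h18 : 0 ≤ Real.log x * (100 * 1) * c := by positivity
    nlinarith
  have hL2 : Real.log x ≤ c / 100 * x := by
    have : 0 ≤ cP * Real.log x := by positivity
    linarith
  refine ⟨h1, h2, ?_, ?_, ?_⟩
  · have h19 := mul_le_mul_of_nonneg_left h4 (show (0 : ℝ) ≤ 2 * a by positivity)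
    have h20 : 2 * a * (ε2 * x) ≤ x / 5 := by
      rw [hε2]
      have : 2 * a * (1 / (10 * (a + 1)) * x) = x / 5 * (a / (a + 1)) := by
        field_simp; ring
      rw [this]
      have : a / (a + 1) ≤ 1 := by
        rw [div_le_one (by linarith)]; linarith
      have : 0 ≤ x / 5 := by positivity
      nlinarith
    linarith
  · have h21 : q ≤ 3 / 5 * x := by
      refine hq1.trans ?_
      rw [div_le_iff₀ hL0]
      nlinarith
    linarith
  · have hC1 : Real.log (2 * C) ≤ c / 100 * x := by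
      have h22 : 100 * (1 + |Real.log (2 * C)|) ≤ x * c := by
        rwa [div_le_iff₀ hc] at h8
      have := le_abs_self (Real.log (2 * C))
      nlinarith
    have h1c : (1 : ℝ) + 1 ≤ c / 50 * x := by
      have h23 : 100 * (1 + 1 / c) * c ≤ x * c := mul_le_mul_of_nonneg_right h9 hc.le
      have h24 : 100 * (1 + 1 / c) * c = 100 * c + 100 := by field_simp
      nlinarith
    have h25 : (q + 1) * Real.log 4 ≤ c / 20 * x + c / 50 * x := by
      have : (q + 1) * Real.log 4 ≤ (q + 1) * 2 := mul_le_mul_of_nonneg_left hl4 (by linarith)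
      nlinarith
    have h26 : 2 * (q + 1) * Real.log x ≤ c / 10 * x + c / 50 * x := by nlinarith
    have h27 : c / 4 * (6 / 5 * x + cP * Real.log x) ≤ 3 * c / 10 * x + c / 400 * x := by nlinarith
    have hcx0 : 0 < c * x := by positivity
    nlinarith

end ATYM

open ATYM in
/-- ATY -/
theorem specATY (hMOT : XV.SpecMOT) : SpecATY := by
  obtain ⟨C, hC, hM⟩ := hMOT
  intro c hc hc1
  refine ⟨max (24 / c) 1, fun cP hcP a ha => ?_⟩
  have hcP1 : 1 ≤ cP := (le_max_right _ _).trans hcP
  have hcP2 : 24 / c ≤ cP := (le_max_left _ _).trans hcP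
  have hcP0 : 0 < cP := by linarith
  have hk := Real.tendsto_log_atTop.eventually (key C c cP a hC hc hcP2 hcP1 ha)
  filter_upwards [hk, eventually_gt_atTop 1] with N hN hN1 t Km P ht htN hKm hKmN hP
  obtain ⟨h1, h2, h3, h4, h5⟩ := hN
  set x := Real.log N with hx
  have hx0 : 0 < x := by linarith
  have hL0 : 0 < Real.log x := by linarith
  have hN0 : 0 < N := by linarith
  have hNe : N = Real.exp x := by rw [hx, Real.exp_log hN0]
  set q : ℝ := 6 / 5 * x / (cP * Real.log x) with hq
  have hq0 : 0 < q := by positivity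
  set l : ℕ := ⌈q⌉₊ with hl
  have hl1 : 1 ≤ l := Nat.one_le_iff_ne_zero.2 (by
    rw [hl]; exact (Nat.ceil_pos.2 hq0).ne')
  have hlq : q ≤ l := Nat.le_ceil q
  have hlq' : (l : ℝ) ≤ q + 1 := (Nat.ceil_lt_add_one hq0.le).le
  have hl0 : (0 : ℝ) < l := by exact_mod_cast hl1
  have hlx : (l : ℝ) ≤ x := hlq'.trans h4
  set R : ℝ := 2 * x ^ cP with hR
  set τ : ℝ := x ^ (cP * (1 - c / 8)) with hτ
  have hP0 : x ^ cP = Real.exp (cP * Real.log x) := by
    rw [Real.rpow_def_of_pos hx0, mul_comm]
  have hτe : τ = Real.exp (cP * (1 - c / 8) * Real.log x) := by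
    rw [hτ, Real.rpow_def_of_pos hx0, mul_comm]
  have hτ0 : 0 < τ := by rw [hτe]; exact Real.exp_pos _
  have hP1 : 1 ≤ x ^ cP := Real.one_le_rpow h2 hcP0.le
  have hR1 : 1 ≤ R := by rw [hR]; linarith
  have hR0 : 0 < R := by linarith
  have hRe : R = Real.exp (Real.log 2 + cP * Real.log x) := by
    rw [Real.exp_add, Real.exp_log (by norm_num), ← hP0]
  have hPG : P ⊆ GP 0 R := by
    intro z hz
    have hz' := hP hz
    rw [GP, mem_filter] at hz' ⊢
    refine ⟨hz'.1, hz'.2.1, hz'.2.2.1, hz'.2.2.2.1, hz'.2.2.2.2.1, ?_⟩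
    have := hz'.2.2.2.2.2
    linarith
  have hmain := hM R τ t Km l P ht hKm hl1 hR1 hτ0 hPG
  -- the last bracket
  have hRl : R ^ l = Real.exp (l * (Real.log 2 + cP * Real.log x)) := by
    rw [hRe, ← Real.exp_nat_mul]
  have hcPL : 6 / 5 * x ≤ l * (cP * Real.log x) := by
    have h6 : q * (cP * Real.log x) = 6 / 5 * x := by rw [hq]; field_simp
    have h7 : q * (cP * Real.log x) ≤ l * (cP * Real.log x) :=
      mul_le_mul_of_nonneg_right hlq (by positivity)
    linarith
  have hRl2 : Real.exp (6 / 5 * x) ≤ R ^ l := by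
    rw [hRl, Real.exp_le_exp]
    have h30 : 0 ≤ (l : ℝ) * Real.log 2 := by
      have := (Real.log_pos (by norm_num : (1 : ℝ) < 2))
      positivity
    have h31 : (l : ℝ) * (Real.log 2 + cP * Real.log x) =
        l * Real.log 2 + l * (cP * Real.log x) := by ring
    linarith
  have htK : (t : ℝ) ^ 2 * Km ≤ R ^ l := by
    refine le_trans ?_ hRl2
    have h8 : (t : ℝ) ^ 2 ≤ Real.exp (2 * a * Real.log x) := by
      have : Real.exp (2 * a * Real.log x) = (x ^ a) ^ 2 := by
        rw [Real.rpow_def_of_pos hx0, ← Real.exp_nat_mul]; congr 1; push_cast; ring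
      rw [this]
      exact pow_le_pow_left₀ (by positivity) htN 2
    calc (t : ℝ) ^ 2 * Km ≤ Real.exp (2 * a * Real.log x) * Real.exp x := by
          rw [← hNe]
          exact mul_le_mul h8 hKmN (by positivity) (by positivity)
      _ = Real.exp (2 * a * Real.log x + x) := by rw [Real.exp_add]
      _ ≤ Real.exp (6 / 5 * x) := by rw [Real.exp_le_exp]; linarith
  have hRlpos : 0 < R ^ l := by positivity
  have hbr : (R ^ l) ^ 2 + (t : ℝ) ^ 2 * Km * R ^ l ≤ 2 * (R ^ l) ^ 2 := by
    have := mul_le_mul_of_nonneg_right htK hRlpos.le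
    nlinarith
  -- factorial
  have hfac : (l.factorial : ℝ) ^ 2 ≤ Real.exp (2 * (q + 1) * Real.log x) := by
    have h9 : (l.factorial : ℝ) ≤ (l : ℝ) ^ l := by
      exact_mod_cast Nat.factorial_le_pow l
    have h10 : (l : ℝ) ^ l ≤ x ^ l := pow_le_pow_left₀ hl0.le hlx l
    have h11 : x ^ l = Real.exp (l * Real.log x) := by
      rw [Real.exp_nat_mul, Real.exp_log hx0]
    have h12 : (l.factorial : ℝ) ≤ Real.exp (l * Real.log x) := by rw [← h11]; exact h9.trans h10
    calc (l.factorial : ℝ) ^ 2 ≤ Real.exp (l * Real.log x) ^ 2 :=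
          pow_le_pow_left₀ (by positivity) h12 2
      _ = Real.exp (2 * l * Real.log x) := by
          rw [← Real.exp_nat_mul]; congr 1; push_cast; ring
      _ ≤ Real.exp (2 * (q + 1) * Real.log x) := by
          rw [Real.exp_le_exp]
          apply mul_le_mul_of_nonneg_right _ hL0.le
          linarith
  -- the logarithm
  have hS0 : 0 < Real.log 2 + cP * Real.log x := by
    have := (Real.log_pos (by norm_num : (1 : ℝ) < 2))
    have : 0 < cP * Real.log x := by positivity
    linarith
  have hlogR : 1 + Real.log (R ^ l) ≤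
      Real.exp (Real.log x + Real.log 2 + Real.log (Real.log 2 + cP * Real.log x)) := by
    rw [hRl, Real.log_exp, Real.exp_add, Real.exp_add, Real.exp_log hx0, Real.exp_log (by norm_num),
      Real.exp_log hS0]
    have h13 : (l : ℝ) * (Real.log 2 + cP * Real.log x) ≤ x * (Real.log 2 + cP * Real.log x) :=
      mul_le_mul_of_nonneg_right hlx hS0.le
    have h14 : 1 ≤ x * (Real.log 2 + cP * Real.log x) := by
      have h15 : 1 ≤ Real.log 2 + cP * Real.log x := by
        have := (Real.log_pos (by norm_num : (1 : ℝ) < 2))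
        nlinarith
      nlinarith
    nlinarith
  -- quotient R / tau
  have hquot : (R ^ l) ^ 2 / τ ^ (2 * l) ≤
      Real.exp ((q + 1) * Real.log 4 + c / 4 * (6 / 5 * x + cP * Real.log x)) := by
    have h16 : (R ^ l) ^ 2 / τ ^ (2 * l) =
        Real.exp (2 * (l * (Real.log 2 + cP * Real.log x)) - 2 * l * (cP * (1 - c / 8) * Real.log x)) := by
      rw [hRl, hτe, ← Real.exp_nat_mul, ← Real.exp_nat_mul, Real.exp_sub]
      push_cast
      ring_nf
    rw [h16, Real.exp_le_exp]
    have h17 : Real.log 4 = 2 * Real.log 2 := by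
      rw [show (4 : ℝ) = 2 ^ 2 by norm_num, Real.log_pow]; norm_num
    rw [h17]
    have h18 : (l : ℝ) * (cP * Real.log x) ≤ 6 / 5 * x + cP * Real.log x := by
      have h6 : q * (cP * Real.log x) = 6 / 5 * x := by rw [hq]; field_simp
      have h7 : (l : ℝ) * (cP * Real.log x) ≤ (q + 1) * (cP * Real.log x) :=
        mul_le_mul_of_nonneg_right hlq' (by positivity)
      linarith
    have h19 : (l : ℝ) * Real.log 2 ≤ (q + 1) * Real.log 2 :=
      mul_le_mul_of_nonneg_right hlq' (Real.log_pos (by norm_num : (1 : ℝ) < 2)).le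
    have h20 := mul_le_mul_of_nonneg_left h18 (show (0 : ℝ) ≤ c / 4 by positivity)
    nlinarith
  have hτl : 0 < τ ^ (2 * l) := by positivity
  have h21 : ((atyp t Km τ P).card : ℝ) ≤ (C * (l.factorial : ℝ) ^ 2 * (1 + Real.log (R ^ l)) *
      (2 * (R ^ l) ^ 2)) / τ ^ (2 * l) := by
    rw [le_div_iff₀ hτl]
    refine hmain.trans ?_
    have h22 : 0 ≤ C * (l.factorial : ℝ) ^ 2 * (1 + Real.log (R ^ l)) := by
      have h23 : 0 ≤ Real.log (R ^ l) := Real.log_nonneg (one_le_pow₀ hR1)
      positivity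
    exact mul_le_mul_of_nonneg_left hbr h22
  have h24 : ((atyp t Km τ P).card : ℝ) ≤ (2 * C) * ((l.factorial : ℝ) ^ 2) *
      (1 + Real.log (R ^ l)) * ((R ^ l) ^ 2 / τ ^ (2 * l)) := by
    refine h21.trans (le_of_eq ?_)
    ring
  have h25 : (2 * C) * ((l.factorial : ℝ) ^ 2) * (1 + Real.log (R ^ l)) * ((R ^ l) ^ 2 / τ ^ (2 * l)) ≤
      Real.exp (Real.log (2 * C)) * Real.exp (2 * (q + 1) * Real.log x) *
        Real.exp (Real.log x + Real.log 2 + Real.log (Real.log 2 + cP * Real.log x)) *
        Real.exp ((q + 1) * Real.log 4 + c / 4 * (6 / 5 * x + cP * Real.log x)) := by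
    have h23 : 0 ≤ Real.log (R ^ l) := Real.log_nonneg (one_le_pow₀ hR1)
    rw [Real.exp_log (by positivity)]
    gcongr
  refine h24.trans (h25.trans ?_)
  rw [← Real.exp_add, ← Real.exp_add, ← Real.exp_add]
  have h26 : N ^ c = Real.exp (c * x) := by
    rw [Real.rpow_def_of_pos hN0, ← hx, mul_comm]
  rw [h26, Real.exp_le_exp]
  linarith

end Pool.Agent.Lib.MP391708.XU
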