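import Pool.Agent.Lib.MP_391708_nt.X.U.Spec
import Pool.Agent.Lib.MP_391708_nt.X.B.BRG
import Pool.Agent.Lib.MP_391708_nt.X.B.NRM

/-!
# Theorem X, part U: BRG, the bridge
-/

set_option autoImplicit false

namespace Pool.Agent.Lib.MP391708.XU

open Finset Filter Topology Pool.Agent.Lib.MP391708.MR
open Pool.Agent.Lib.MP391708.X (Par par ChiG hk Dist Fam rgh Ix psi ix1 UOK lc RR S4 S2 I4 I2 eta kap Eta Kap On Var)
open Pool.Agent.Lib.MP391708.XV (md chs ph hat atyp)
open scoped ComplexConjugate

theorem specBRG : SpecBRG := by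
  refine ⟨?_, ?_, ?_, ?_⟩
  · intro t χ ht
    exact (Pool.Agent.Lib.MP391708.X.specBRG t ht).1 χ
  · intro t χ k S f
    unfold XV.hat hk fn
    exact sum_congr rfl fun z _ => by rw [mul_assoc]
  · intro t q q' ht hne
    by_contra hD
    unfold X.Dist at hD
    push Not at hD
    obtain ⟨h1, h2⟩ := hD
    have hb := Pool.Agent.Lib.MP391708.X.specBRG t ht
    have c1 : ChiG ((t : ℕ) : Gi) (fn t q.1) := hb.1 q.1
    have c2 : ChiG ((t : ℕ) : Gi) (fn t q'.1) := hb.1 q'.1
    apply hne
    refine Prod.ext (hb.2.2.1 q.1 q'.1 ?_) h1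
    funext z
    change fn t q.1 z = fn t q'.1 z
    by_cases hz : fn t q.1 z = 0
    · have : fn t q'.1 z = 0 := by
        by_contra hz'
        exact ((c1.supp z).2 ((c2.supp z).1 hz')) hz
      rw [hz, this]
    · have hz' : fn t q'.1 z ≠ 0 := (c2.supp z).2 ((c1.supp z).1 hz)
      exact h2 z hz hz'
  · intro m χ hχ z
    have := (Pool.Agent.Lib.MP391708.X.specNRM m χ hχ).1 z
    constructor
    · rcases this with h | h
      · rw [h, norm_zero]; exact zero_le_one
      · exact h.le
    · intro hz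
      rcases this with h | h
      · exact absurd h hz
      · exact h

end Pool.Agent.Lib.MP391708.XU
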