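import Pool.Agent.Lib.MP_391708_nt.X.U.Spec
import Pool.Agent.Lib.MP_391708_nt.X.B.LFT
import Pool.Agent.Lib.MP_391708_nt.X.B.EQT
import Pool.Agent.Lib.MP_391708_nt.X.B.CND
import Pool.Agent.Lib.MP_391708_nt.X.B.CNM

/-!
# Theorem X, part U: CON, the conductor
-/

set_option autoImplicit false

namespace Pool.Agent.Lib.MP391708.XU

open Finset Filter Topology Pool.Agent.Lib.MP391708.MR
open Pool.Agent.Lib.MP391708.X (Par par ChiG hk Dist Fam rgh Ix psi ix1 UOK lc RR S4 S2 I4 I2 eta kap Eta Kap On Var)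
open Pool.Agent.Lib.MP391708.XV (md chs ph hat atyp)
open scoped ComplexConjugate

theorem specCON : SpecCON := by
  intro i hi hχ
  have hL := Pool.Agent.Lib.MP391708.X.specLFT
  have hE := Pool.Agent.Lib.MP391708.X.specEQT hL
  have hC := Pool.Agent.Lib.MP391708.X.specCND hL
  have hM := Pool.Agent.Lib.MP391708.X.specCNM hE hC
  obtain ⟨f, χ₀, hf, h0, he, -, hlast⟩ := hM i.1 i.2.1 hi hχ
  have he' : X.Eqv χ₀ i.2.1 := fun z h1 h2 => (he z h2 h1).symm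
  obtain ⟨hd, hv⟩ := hlast i.1 i.2.1 hi hχ he'
  refine ⟨f, χ₀, hf, hd, h0, fun z hz => (hv z hz).symm, ?_⟩
  intro t χ' ht hχ' hag
  have h1 : X.Eqv i.2.1 χ' := fun z h1 h2 => (hag z h2 h1).symm
  obtain ⟨hd', hv'⟩ := hlast t χ' ht hχ' (hE _ _ _ _ _ _ h0 hχ hχ' he' h1)
  exact ⟨hd', fun z hz => (hv' z hz).symm⟩

end Pool.Agent.Lib.MP391708.XU
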