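import Pool.Agent.Lib.MP_391708_nt.X.U.Spec
import Pool.Agent.Lib.MP_391708_nt.X.B.ETH

/-!
# Theorem X, part U, module ETH (helper9): the sum of `eta` over a coarse cell against a character
-/

set_option autoImplicit false

namespace Pool.Agent.Lib.MP391708.XU

open Finset Filter Topology Pool.Agent.Lib.MP391708.MR
open Pool.Agent.Lib.MP391708.X (Par ChiG rgh Ix psi I4 I2 eta)

namespace ETHM

theorem psi_mul {m : Gi} {i : Ix} (h : ChiG m i.2.1) (x y : Gi) :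
    psi i (x * y) = psi i x * psi i y := by
  unfold psi X.hk
  rw [h.mul, xi_mul]
  ring

theorem mem_GP {P Q : ℝ} {z : Gi} (h : z ∈ GP P Q) :
    z ≠ 0 ∧ (nm z).Prime ∧ P < (nm z : ℝ) ∧ (nm z : ℝ) ≤ Q := by
  unfold GP at h
  rw [mem_filter, mem_disc] at h
  exact ⟨h.1.1, h.2.2.2.1, h.2.2.2.2.2, h.1.2⟩

/-- the sum over a coarse cell is the sum over the fine cells -/
theorem sum_GG (h M : ℝ) (m a : ℕ) (hh : 0 < h) (hM : 0 < M) (f : Gi → ℂ) :
    ∑ π ∈ GG h M m a, f π = ∑ v ∈ (VV h M (2 * M)).filter (fun v => v / m = a),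
      ∑ π ∈ cell h M (2 * M) v, f π := by
  have h1 : ∀ π ∈ GG h M m a, ⌊h * Real.log (nm π)⌋₊ ∈
      (VV h M (2 * M)).filter (fun v => v / m = a) := by
    intro π hπ
    unfold GG at hπ
    rw [mem_filter] at hπ
    obtain ⟨-, -, h2, h3⟩ := mem_GP hπ.1
    rw [mem_filter]
    refine ⟨?_, hπ.2⟩
    unfold VV
    rw [mem_Icc]
    constructor
    · exact Nat.floor_le_floor (mul_le_mul_of_nonneg_left (Real.log_le_log hM h2.le) hh.le)
    · exact Nat.floor_le_floor (mul_le_mul_of_nonneg_left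
        (Real.log_le_log (hM.trans h2) h3) hh.le)
  rw [← Finset.sum_fiberwise_of_maps_to h1]
  refine Finset.sum_congr rfl fun v hv => ?_
  rw [mem_filter] at hv
  refine Finset.sum_congr ?_ fun _ _ => rfl
  ext π
  unfold GG cell
  rw [mem_filter, mem_filter, mem_filter]
  constructor
  · rintro ⟨⟨h2, -⟩, h3⟩
    exact ⟨h2, h3⟩
  · rintro ⟨h2, h3⟩
    exact ⟨⟨h2, by rw [h3]; exact hv.2⟩, h3⟩

/-- a prime which divides a product of two split primes -/
theorem nm_dvd_GP {P Q : ℝ} {π q : Gi} (hπ : Prime π) (hq : q ∈ GP P Q) (h : π ∣ q) :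
    P < (nm π : ℝ) := by
  obtain ⟨-, h1, h2, -⟩ := mem_GP hq
  rcases (Nat.dvd_prime h1).1 (nm_dvd h) with h3 | h3
  · exact absurd (isUnit_iff_nm.2 h3) hπ.not_isUnit
  · rw [h3]
    exact h2

theorem floors {x y : ℝ} (hx : 0 ≤ x) (hy : 0 ≤ y) :
    ⌊x⌋₊ + ⌊y⌋₊ ≤ ⌊x + y⌋₊ ∧ ⌊x + y⌋₊ ≤ ⌊x⌋₊ + ⌊y⌋₊ + 1 := by
  constructor
  · apply Nat.le_floor
    push_cast
    exact add_le_add (Nat.floor_le hx) (Nat.floor_le hy)
  · apply Nat.le_of_lt_succ
    rw [Nat.floor_lt (add_nonneg hx hy)]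
    push_cast
    have h1 := Nat.lt_floor_add_one x
    have h2 := Nat.lt_floor_add_one y
    linarith

theorem M4_pos {p : Par} (hp : Siz p) : 0 < p.M4 := Real.sqrt_pos.2 (by linarith [hp.N])

theorem M2_eq (p : Par) : p.M2 = Real.sqrt p.N * (p.T / (16 * p.P)) := by
  unfold X.Par.M2
  rw [mul_div_assoc]

theorem M2_ge {p : Par} (hp : Siz p) : 4 * p.M4 ≤ p.M2 := by
  have h1 : 4 ≤ p.T / (16 * p.P) := by
    rw [le_div_iff₀ (by linarith [hp.P])]
    linarith [hp.T]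
  rw [M2_eq]
  have h2 : 0 ≤ Real.sqrt p.N := Real.sqrt_nonneg _
  unfold X.Par.M4
  nlinarith

theorem M2_pos {p : Par} (hp : Siz p) : 0 < p.M2 := by
  linarith [M2_ge hp, M4_pos hp]

theorem MM_ge {p : Par} (hp : Siz p) : 2 * p.M4 * (2 * p.M2) ≤ MM' p := by
  have hN : 0 ≤ p.N := by linarith [hp.N]
  have hP : 0 < p.P := by linarith [hp.P]
  have h1 : 2 * p.M4 * (2 * p.M2) = p.N * (p.T / p.P) / 4 := by
    rw [M2_eq]
    unfold X.Par.M4
    have h2 : Real.sqrt p.N * Real.sqrt p.N = p.N := Real.mul_self_sqrt hN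
    calc 2 * Real.sqrt p.N * (2 * (Real.sqrt p.N * (p.T / (16 * p.P)))) =
        4 * (Real.sqrt p.N * Real.sqrt p.N) * (p.T / (16 * p.P)) := by ring
      _ = p.N * (p.T / p.P) / 4 := by
        rw [h2]
        field_simp
        ring
  have h3 : MM' p = 2 * (p.N * (p.T / p.P)) := by
    unfold MM'
    ring
  have h4 : 0 ≤ p.N * (p.T / p.P) :=
    mul_nonneg hN (div_nonneg (by linarith [hp.T]) hP.le)
  rw [h1, h3]
  linarith

/-- the support of `eta` -/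
theorem supp {p : Par} (hp : Siz p) {m j : ℕ} (hm : 1 ≤ m) {v4 v2 : ℕ} {z : Gi}
    (h4 : v4 / m = (Nat.unpair j).1) (h2 : v2 / m = (Nat.unpair j).2) (h : eta p v4 v2 z ≠ 0) :
    z ∈ SJ p m j := by
  classical
  unfold X.eta at h
  have h1 : ((cell p.h p.M4 (2 * p.M4) v4 ×ˢ cell p.h p.M2 (2 * p.M2) v2).filter
      (fun q => Associated (q.1 * q.2) z)).Nonempty := by
    rw [← Finset.card_pos]
    apply Nat.pos_of_ne_zero
    intro h0
    apply h
    exact_mod_cast h0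
  obtain ⟨⟨q1, q2⟩, hq⟩ := h1
  rw [mem_filter, mem_product] at hq
  obtain ⟨⟨hq1, hq2⟩, hz⟩ := hq
  dsimp only at hq1 hq2 hz
  unfold cell at hq1 hq2
  rw [mem_filter] at hq1 hq2
  obtain ⟨n1, pr1, lo1, hi1⟩ := mem_GP hq1.1
  obtain ⟨n2, pr2, lo2, hi2⟩ := mem_GP hq2.1
  have hz0 : z ≠ 0 := by
    rintro rfl
    rw [associated_zero_iff_eq_zero] at hz
    exact mul_ne_zero n1 n2 hz
  have hnm : nm z = nm q1 * nm q2 := by
    rw [← nm_mul]
    exact Nat.dvd_antisymm (nm_dvd hz.symm.dvd) (nm_dvd hz.dvd)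
  have hM4 := M4_pos hp
  have hM2 := M2_pos hp
  have hlog : p.h * Real.log (nm z) = p.h * Real.log (nm q1) + p.h * Real.log (nm q2) := by
    rw [hnm]
    push_cast
    rw [Real.log_mul (nm_posR n1).ne' (nm_posR n2).ne']
    ring
  have hh : 0 ≤ p.h := by linarith [hp.h]
  obtain ⟨f1, f2⟩ := floors (mul_nonneg hh (Real.log_nonneg (one_le_nm n1)))
    (mul_nonneg hh (Real.log_nonneg (one_le_nm n2)))
  rw [← hlog, hq1.2, hq2.2] at f1 f2
  have a1 : m * (v4 / m) ≤ v4 := Nat.mul_div_le v4 m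
  have a2 : v4 < m * (v4 / m) + m := Nat.lt_mul_div_succ v4 (by omega)
  have b1 : m * (v2 / m) ≤ v2 := Nat.mul_div_le v2 m
  have b2 : v2 < m * (v2 / m) + m := Nat.lt_mul_div_succ v2 (by omega)
  rw [h4] at a1 a2
  rw [h2] at b1 b2
  unfold SJ
  rw [mem_filter, mem_disc]
  refine ⟨⟨hz0, ?_⟩, ?_, ?_, ?_⟩
  · rw [hnm]
    push_cast
    refine le_trans ?_ (MM_ge hp)
    exact mul_le_mul hi1 hi2 (Nat.cast_nonneg _) (by linarith)
  · intro π hπ hd
    have h5 : π ∣ q1 * q2 := hd.trans hz.symm.dvd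
    have hw : p.w < p.M4 := hp.wN
    rcases hπ.dvd_or_dvd h5 with h6 | h6
    · exact hw.trans (nm_dvd_GP hπ hq1.1 h6)
    · exact lt_trans (by linarith [M2_ge hp]) (nm_dvd_GP hπ hq2.1 h6)
  · rw [Nat.mul_add]
    omega
  · rw [Nat.mul_add]
    omega

end ETHM

open ETHM in
theorem specETH : SpecETH := by
  classical
  intro p m j i hp hm _ hχ hI
  have hh : 0 < p.h := by linarith [hp.h]
  have e1 : ∑ z ∈ SJ p m j, (∑ v4 ∈ (I4 p).filter (fun v => v / m = (Nat.unpair j).1),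
      ∑ v2 ∈ (I2 p).filter (fun v => v / m = (Nat.unpair j).2), eta p v4 v2 z) * psi i z =
      ∑ z ∈ disc (MM' p), (∑ v4 ∈ (I4 p).filter (fun v => v / m = (Nat.unpair j).1),
      ∑ v2 ∈ (I2 p).filter (fun v => v / m = (Nat.unpair j).2), eta p v4 v2 z) * psi i z := by
    refine Finset.sum_subset (Finset.filter_subset _ _) fun z _ hz => ?_
    rw [Finset.sum_eq_zero, zero_mul]
    intro v4 hv4
    refine Finset.sum_eq_zero fun v2 hv2 => ?_
    rw [mem_filter] at hv4 hv2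
    by_contra h0
    exact hz (supp hp hm hv4.2 hv2.2 h0)
  have e2 : ∑ z ∈ disc (MM' p), (∑ v4 ∈ (I4 p).filter (fun v => v / m = (Nat.unpair j).1),
      ∑ v2 ∈ (I2 p).filter (fun v => v / m = (Nat.unpair j).2), eta p v4 v2 z) * psi i z =
      ∑ v4 ∈ (I4 p).filter (fun v => v / m = (Nat.unpair j).1),
      ∑ v2 ∈ (I2 p).filter (fun v => v / m = (Nat.unpair j).2),
        ∑ z ∈ disc (MM' p), eta p v4 v2 z * psi i z := by
    simp only [Finset.sum_mul]
    rw [Finset.sum_comm]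
    refine Finset.sum_congr rfl fun v4 _ => ?_
    rw [Finset.sum_comm]
  have e3 : ∀ v4 v2 : ℕ, ∑ z ∈ disc (MM' p), eta p v4 v2 z * psi i z =
      (∑ π ∈ cell p.h p.M4 (2 * p.M4) v4, psi i π) *
        (4 * ∑ π ∈ cell p.h p.M2 (2 * p.M2) v2, psi i π) := by
    intro v4 v2
    refine X.specETH p v4 v2 (psi i) (MM' p) (psi_mul hχ) hI ?_
    intro π hπ π' hπ'
    unfold cell at hπ hπ'
    rw [mem_filter] at hπ hπ'
    obtain ⟨-, -, -, h1⟩ := mem_GP hπ.1
    obtain ⟨-, -, -, h2⟩ := mem_GP hπ'.1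
    rw [nm_mul]
    push_cast
    exact (mul_le_mul h1 h2 (Nat.cast_nonneg _) (by linarith [M4_pos hp])).trans (MM_ge hp)
  rw [e1, e2]
  simp only [e3]
  unfold G4 G2
  rw [sum_GG _ _ _ _ hh (M4_pos hp), sum_GG _ _ _ _ hh (M2_pos hp)]
  unfold X.I4 X.I2
  rw [mul_assoc, Finset.sum_mul_sum, Finset.mul_sum]
  refine Finset.sum_congr rfl fun v4 _ => ?_
  rw [Finset.mul_sum]
  refine Finset.sum_congr rfl fun v2 _ => ?_
  ring

end Pool.Agent.Lib.MP391708.XU
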