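import Pool.Agent.Lib.MP_391708_nt.X.U.FIN3

/-!
# THEOREM X (MP_391708), part U: FIN, the variance of the model
-/

set_option autoImplicit false

namespace Pool.Agent.Lib.MP391708.XU

open Finset Filter Topology Pool.Agent.Lib.MP391708.MR
open Pool.Agent.Lib.MP391708.X (Par par ChiG hk Dist Fam rgh Ix psi ix1 UOK lc RR S4 S2 I4 I2 eta kap Eta Kap On Var)
open Pool.Agent.Lib.MP391708.XV (md chs ph hat atyp)
open scoped ComplexConjugate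

namespace FINM

/-- the last comparison -/
lemma last (l N A B C n cT IJ S1 S2 lY V : ℝ) (hl : 1 ≤ l) (hlC : 3890 * C ≤ l) (hN : 0 < N) (hB : 0 < B)
    (hC : 0 < C) (hlY0 : 0 ≤ lY) (hlY : lY ≤ 3 * l) (hS1 : S1 ≤ 8 * l ^ (-(A + 8)))
    (hS2 : IJ * (B / (2 * N * l ^ cT)) * S2 ≤ B * (2 * N * l ^ cT) * l ^ (-(A + 2)))
    (hV : V ≤ C * l ^ 2 * lY ^ 5 * (B * (2 * N * l ^ cT)) * S1 +
      C * IJ * (B / (2 * N * l ^ cT)) * S2) :
    V ≤ l ^ (-A) * (B * (N / l ^ cT) * (l ^ cT) ^ 2) := by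
  have l0 : 0 < l := by linarith
  have pos : ∀ e : ℝ, 0 < l ^ e := fun e => Real.rpow_pos_of_pos l0 e
  have hcT := pos cT
  have hBY : 0 < B * (2 * N * l ^ cT) := by positivity
  have h7 : l ^ (-(A + 1)) = l ^ 7 * l ^ (-(A + 8)) := by
    rw [← Real.rpow_natCast l 7, ← Real.rpow_add l0]
    congr 1
    push_cast
    ring
  have h1 : C * l ^ 2 * lY ^ 5 * (B * (2 * N * l ^ cT)) * S1 ≤
      1944 * C * (B * (2 * N * l ^ cT)) * l ^ (-(A + 1)) := by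
    have h2 : lY ^ 5 ≤ (3 * l) ^ 5 := pow_le_pow_left₀ hlY0 hlY 5
    calc _ ≤ C * l ^ 2 * lY ^ 5 * (B * (2 * N * l ^ cT)) * (8 * l ^ (-(A + 8))) := by
          gcongr
      _ ≤ C * l ^ 2 * (3 * l) ^ 5 * (B * (2 * N * l ^ cT)) * (8 * l ^ (-(A + 8))) := by
          have := pos (-(A + 8))
          gcongr
      _ = _ := by
          rw [h7]
          ring
  have h2 : C * IJ * (B / (2 * N * l ^ cT)) * S2 ≤
      C * (B * (2 * N * l ^ cT)) * l ^ (-(A + 1)) := by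
    have h3 : l ^ (-(A + 2)) ≤ l ^ (-(A + 1)) :=
      Real.rpow_le_rpow_of_exponent_le hl (by linarith)
    calc _ = C * (IJ * (B / (2 * N * l ^ cT)) * S2) := by ring
      _ ≤ C * (B * (2 * N * l ^ cT) * l ^ (-(A + 2))) := by gcongr
      _ ≤ C * (B * (2 * N * l ^ cT) * l ^ (-(A + 1))) := by gcongr
      _ = _ := by ring
  have h3 : l ^ (-A) = l * l ^ (-(A + 1)) := by
    nth_rewrite 2 [← Real.rpow_one l]
    rw [← Real.rpow_add l0]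
    congr 1
    ring
  have h4 : B * (N / l ^ cT) * (l ^ cT) ^ 2 = B * N * l ^ cT := by
    field_simp
  rw [h4, h3]
  have h5 : V ≤ 1945 * C * (B * (2 * N * l ^ cT)) * l ^ (-(A + 1)) := by linarith
  refine h5.trans ?_
  have h6 : 0 ≤ B * N * l ^ cT * l ^ (-(A + 1)) := by
    have := pos (-(A + 1))
    positivity
  nlinarith

lemma pre1 {l N B aF : ℝ} (hl : 1000 ≤ l) (hN : 100 ≤ N) (haF : 1 ≤ aF) (hB : l ^ aF ≤ B)
    (hB1 : 1 ≤ B) (hB2 : B ^ 2 ≤ 2 * N) :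
    l ^ aF * (N / B) ≤ N ∧ l ^ aF * (N / B) ≤ N ^ 2 ∧ 2 ≤ l ^ aF * (N / B) := by
  have B0 : 0 < B := by linarith
  have h1 : l ^ aF * (N / B) ≤ N := by
    have : l ^ aF * (N / B) = N * (l ^ aF / B) := by ring
    rw [this]
    have h2 : l ^ aF / B ≤ 1 := (div_le_one B0).2 hB
    nlinarith
  refine ⟨h1, by nlinarith, ?_⟩
  have h2 : B / 2 ≤ N / B := by
    rw [div_le_div_iff₀ (by norm_num) B0]
    nlinarith
  have h3 : 1000 ≤ l ^ aF := by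
    calc (1000 : ℝ) ≤ l := hl
      _ = l ^ (1 : ℝ) := (Real.rpow_one l).symm
      _ ≤ l ^ aF := Real.rpow_le_rpow_of_exponent_le (by linarith) haF
  nlinarith

lemma pre2 {x : ℝ} (hx : 2 ≤ x) : ((⌊x⌋₊ : ℕ) : ℝ) ≤ x ∧ x / 2 ≤ (⌊x⌋₊ : ℕ) := by
  have h1 : x < (⌊x⌋₊ : ℕ) + 1 := Nat.lt_floor_add_one _
  exact ⟨Nat.floor_le (by linarith), by linarith⟩

lemma pre3 {l cT : ℝ} (hl : 1000 ≤ l) (hcT : 0 ≤ cT) :
    ((⌈4 * l ^ cT⌉₊ : ℕ) : ℝ) ≤ 5 * l ^ cT ∧ ((⌈4 * l ^ cT⌉₊ : ℕ) : ℝ) ≤ l ^ (cT + 1) ∧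
      1 ≤ ⌈4 * l ^ cT⌉₊ := by
  have l0 : 0 < l := by linarith
  have hcT1 : 1 ≤ l ^ cT := Real.one_le_rpow (by linarith) hcT
  have h1 : ((⌈4 * l ^ cT⌉₊ : ℕ) : ℝ) ≤ 5 * l ^ cT := by
    have h2 : ((⌈4 * l ^ cT⌉₊ : ℕ) : ℝ) < 4 * l ^ cT + 1 := Nat.ceil_lt_add_one (by linarith)
    linarith
  refine ⟨h1, ?_, ?_⟩
  · refine h1.trans ?_
    rw [Real.rpow_add l0, Real.rpow_one]
    nlinarith
  · have h2 : (4 : ℝ) * l ^ cT ≤ (⌈4 * l ^ cT⌉₊ : ℕ) := Nat.le_ceil _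
    have h3 : (1 : ℝ) ≤ (⌈4 * l ^ cT⌉₊ : ℕ) := by linarith
    exact_mod_cast h3

lemma pre4 {l e : ℝ} (hl : 1000 ≤ l) (he : 1 ≤ e) : 2 ≤ l ^ e := by
  calc (2 : ℝ) ≤ l := by linarith
    _ = l ^ (1 : ℝ) := (Real.rpow_one l).symm
    _ ≤ l ^ e := Real.rpow_le_rpow_of_exponent_le (by linarith) he

lemma pre5 {l ch g0 : ℝ} (hl : 1000 ≤ l) (h : g0 ≤ ch) : 1 ≤ ⌊l ^ ch / l ^ g0⌋₊ := by
  have l0 : 0 < l := by linarith
  refine Nat.le_floor ?_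
  rw [Nat.cast_one, le_div_iff₀ (Real.rpow_pos_of_pos l0 _), one_mul]
  exact Real.rpow_le_rpow_of_exponent_le (by linarith) h

lemma preIK {Km : ℕ} {N : ℝ} (h : (Km : ℝ) ≤ N) (k : ℤ) (hk : k ∈ IK Km) : |(k : ℝ)| ≤ N := by
  unfold IK at hk
  rw [mem_Icc] at hk
  refine le_trans ?_ h
  rw [abs_le]
  exact ⟨by exact_mod_cast hk.1, by exact_mod_cast hk.2⟩

lemma preM2 {N l cT cP : ℝ} (hN : 0 < N) (hl : 0 < l) :
    1024 * (N * (Real.sqrt N * l ^ cT / (16 * l ^ cP)) ^ 2) = (2 * N * l ^ cT / l ^ cP) ^ 2 := by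
  rw [div_pow, mul_pow, Real.sq_sqrt hN.le]
  have := (Real.rpow_pos_of_pos hl cP).ne'
  field_simp
  ring

end FINM

open FINM in
theorem specFIN : SpecFIN := by
  intro hVAR hPHI hBRG hHM2 hATY hHJS hSUP hHTS hHTA hPRC hLNS hUSET A hA
  obtain ⟨C, hC, hVAR⟩ := hVAR 2 1000 (by norm_num) (by norm_num)
  obtain ⟨cH, hcH, hHM2⟩ := hHM2
  obtain ⟨a₀, ha₀⟩ : ∃ x : ℝ, x = A + 9 := ⟨_, rfl⟩
  obtain ⟨g0, hg0⟩ : ∃ x : ℝ, x = A + 2 * a₀ + 10 := ⟨_, rfl⟩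
  obtain ⟨n, hn⟩ : ∃ x : ℝ, x = 3 * g0 + 4 := ⟨_, rfl⟩
  obtain ⟨aF, haF⟩ : ∃ x : ℝ, x = A + 2 * n + a₀ + 10 := ⟨_, rfl⟩
  obtain ⟨A₁, hA₁⟩ : ∃ x : ℝ, x = A + 2 * n + 10 := ⟨_, rfl⟩
  obtain ⟨aU, haU⟩ : ∃ x : ℝ, x = 2 * A₁ + g0 + 2 := ⟨_, rfl⟩
  obtain ⟨aQ, haQ⟩ : ∃ x : ℝ, x = A + aU + 2 * n + 20 := ⟨_, rfl⟩
  obtain ⟨cw, hcw⟩ : ∃ x : ℝ, x = 2 * aQ + A + aU + 2 * n + 20 := ⟨_, rfl⟩
  obtain ⟨cS, hcS0, hcS1, hHTS⟩ := hHTS cw (by linarith)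
  obtain ⟨cA, hcA0, hcA1, hHTA⟩ := hHTA cw (by linarith)
  obtain ⟨c, hc⟩ : ∃ x : ℝ, x = min cH (min cS cA) := ⟨_, rfl⟩
  have hcH' : c ≤ cH := by rw [hc]; exact min_le_left _ _
  have hcS' : c ≤ cS := by rw [hc]; exact (min_le_right _ _).trans (min_le_left _ _)
  have hcA' : c ≤ cA := by rw [hc]; exact (min_le_right _ _).trans (min_le_right _ _)
  have hc0 : 0 < c := by rw [hc]; exact lt_min hcH (lt_min hcS0 hcA0)
  obtain ⟨cPa, hATY⟩ := hATY c hc0 (hcS'.trans hcS1)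
  refine ⟨cw, aU, aQ, aF, g0 + 1, by linarith, by linarith, by linarith, by linarith, by linarith,
    fun ch hch => ⟨max cPa (max (cw + 1) (4 / c * (2 * n + A + 8))), fun cP hcP =>
      ⟨cP + a₀ + aF + 10, fun cT hcT => ⟨cT + cP + 2 * n + A + aF + 20, ?_⟩⟩⟩⟩
  have hcPa : cPa ≤ cP := (le_max_left _ _).trans hcP
  have hcPw : cw + 1 ≤ cP := ((le_max_left _ _).trans (le_max_right _ _)).trans hcP
  have hcPc : 2 * n + A + 8 ≤ cP * c / 4 := by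
    have h1 : 4 / c * (2 * n + A + 8) ≤ cP := ((le_max_right _ _).trans (le_max_right _ _)).trans hcP
    have h2 : 4 / c * (2 * n + A + 8) * c ≤ cP * c := by gcongr
    have h3 : 4 / c * (2 * n + A + 8) * c = 4 * (2 * n + A + 8) := by field_simp
    linarith
  have E1 := hPRC g0 a₀ aF aU aQ cw (by linarith) (by linarith) (by linarith) (by linarith)
    (by linarith) (by linarith) ch cP cT (by linarith) (by linarith) (by linarith)
    (cT + cP + 2 * n + A + aF + 20) (by linarith)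
  have E2 := hSUP cT cP ch cw aQ aU (by linarith) (by linarith) (by linarith) (by linarith)
    (by linarith) (by linarith)
  have E3 := hHTS cT cP ch aQ aU (cT + 1) (by linarith) (by linarith) (by linarith) (by linarith)
    (by linarith) (by linarith)
  have E4 := hHTA cT cP ch aQ aU (cT + 1) (by linarith) (by linarith) (by linarith) (by linarith)
    (by linarith) (by linarith)
  have E5 := hUSET g0 A₁ aQ (cT + 1) (by linarith) (by linarith) (by linarith) (by linarith)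
    cT cP ch cw (by linarith)
  have E6 := hHM2 (cT + 1) (by linarith)
  have E7 := hATY cP hcPa (cT + 1) (by linarith)
  have E8 := siz cT cP ch cw (by linarith) (by linarith) (by linarith) (by linarith)
  have E9 := card_IJ cT cP ch cw g0 (by linarith) (by linarith) (by linarith) (by linarith)
  have E10 := logY cT (by linarith)
  have E11 := logT cT (by linarith)
  have E12 := sizM2 cT cP ch cw (by linarith) (by linarith)
  filter_upwards [E1, E2, E3, E4, E5, E6, E7, E8, E9, E10, E11, E12, eventually_ge_atTop 100,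
    ev_l 1000, ev_l (3890 * C), ev_N 1 (A + 8) (by norm_num),
    ev_N c (2 * n + aU + A + 20) hc0] with
    N F1 F2 F3 F4 F5 F6 F7 F8 F9 F10 F11 F12 hN hl hlC hN1 hNc
  intro B hB hB2
  set l := Real.log N with hl_def
  have N0 : 0 < N := by linarith
  have l0 : 0 < l := by linarith
  have l1 : 1 ≤ l := by linarith
  have pos : ∀ e : ℝ, 0 < l ^ e := fun e => Real.rpow_pos_of_pos l0 e
  have one : ∀ e : ℝ, 0 ≤ e → 1 ≤ l ^ e := fun e he => Real.one_le_rpow l1 he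
  have add : ∀ a b : ℝ, l ^ a * l ^ b = l ^ (a + b) := fun a b => (Real.rpow_add l0 a b).symm
  have mono : ∀ a b : ℝ, a ≤ b → l ^ a ≤ l ^ b := fun a b h =>
    Real.rpow_le_rpow_of_exponent_le l1 h
  have B0 : 0 < B := (pos _).trans_le hB
  have B1 : 1 ≤ B := (one _ (by linarith)).trans hB
  have hBl : l ^ aF ≤ B := (mono _ _ (by linarith)).trans hB
  obtain ⟨hF1, hF2, hF3⟩ := pre1 hl hN (by linarith) hBl B1 hB2
  obtain ⟨hKm1, hKm2⟩ := pre2 hF3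
  obtain ⟨hT1a, hT1b, hT1c⟩ := pre3 (cT := cT) hl (by linarith)
  obtain ⟨hT0a, hT0b⟩ := pre2 (pre4 (e := cT - a₀) hl (by linarith))
  have hm1 := pre5 (ch := ch) (g0 := g0) hl (by linarith)
  generalize hKm : ⌊l ^ aF * (N / B)⌋₊ = Km at hKm1 hKm2
  generalize hT1 : ⌈4 * l ^ cT⌉₊ = T1 at hT1a hT1b hT1c
  generalize hT0 : ⌊l ^ (cT - a₀)⌋₊ = T0 at hT0a hT0b
  generalize hm : ⌊l ^ ch / l ^ g0⌋₊ = m at hm1
  have hKmN : (Km : ℝ) ≤ N := hKm1.trans hF1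
  -- the set `U`
  obtain ⟨U, hU, E, hE1, hE2⟩ := F5 T1 Km hT1b hT1c hKmN
  rw [← haU] at hU
  have hU' : UOK (l ^ aQ) (l ^ aF * (N / B)) (l ^ aU) U :=
    ⟨hU.ch, fun i hi => (hU.frq i hi).trans hKm1, hU.adm, hU.dif, hU.one, hU.card⟩
  refine ⟨U, hU', ?_⟩
  have hpar := F1 B hB hB2 U hU'
  rw [hKm, hT1, hT0, hm] at hpar
  rw [hm] at hE2 F9
  rw [← hn] at F9
  have hN2 : N ≤ N ^ 2 := by
    clear * - hN
    nlinarith
  have hUI : ∀ i ∈ U, psi i ⟨0, 1⟩ = 1 ∧ ChiG (i.1 : Gi) i.2.1 :=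
    fun i hi => ⟨hU.adm i hi, (hU.ch i hi).2.2⟩
  have hT0c : 1 ≤ T0 := hpar.hT0
  have hKm1' : 1 ≤ Km := hpar.hKm
  have hE1' : ∑ t ∈ Icc 1 T1, ((E t).card : ℝ) / t ≤ l ^ (aU + 1 - aQ) := by
    refine hE1.trans (le_of_eq ?_)
    congr 1
    linarith
  obtain ⟨τ, hτ⟩ : ∃ x : ℝ, x = l ^ (cP * (1 - c / 8)) := ⟨_, rfl⟩
  have hIK := preIK hKmN
  have tT : ∀ t : ℕ, t ≤ T1 → (t : ℝ) ≤ l ^ (cT + 1) := fun t ht =>
    (show (t : ℝ) ≤ T1 by exact_mod_cast ht).trans hT1b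
  have hPcell : ∀ i ∈ VV (l ^ g0) (l ^ cP) (2 * l ^ cP),
      cell (l ^ g0) (l ^ cP) (2 * l ^ cP) i ⊆ GP (l ^ cP) (2 * l ^ cP) :=
    fun i _ => Finset.filter_subset _ _
  have hsum := atypSum hBRG hHJS hPHI A₁ aU aQ cw cS cA c ch cP cT N τ T0 T1 Km m U E
    (VV (l ^ g0) (l ^ cP) (2 * l ^ cP)) (fun i => cell (l ^ g0) (l ^ cP) (2 * l ^ cP) i) hl hN hm1 F8
    hT0c hT1b hT1c hKm1' F11 (by linarith) hUI hPcell (F2 _ U hF2 hU') hE1' hE2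
    (by
      intro t j q ht ht' hq2 hI hD
      rw [hBRG.2.1]
      exact F3 _ U hF2 hU' (ixq t q) m j hm1 ht (tT t ht') (hBRG.1 t q.1 ht)
        ((hIK _ hq2).trans hN2) hI hD)
    (by
      intro t j q ht ht' hu
      rw [hBRG.2.1]
      exact F4 _ U hF2 hU' (ixq t q) m j hm1 ht (tT t ht') (hBRG.1 t q.1 ht) hu)
    (by
      intro t b W ht ht' hW hWc
      refine F6 t _ _ W ht (tT t ht') F12.1 F12.2 (Finset.filter_subset _ _)
        (fun q hq => hIK _ (hW q hq)) (hWc.trans ?_)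
      exact Real.rpow_le_rpow_of_exponent_le (by linarith) hcH')
    (by
      intro t i ht ht' hi
      rw [hτ]
      exact F7 t Km _ ht (tT t ht') hKm1' hKmN (hPcell i hi))
  have hLN := hLNS (par N cT cP ch cw) U m (l ^ g0) B F8 hm1 (one _ (by linarith)) B0.le
  have hV := hVAR _ _ _ _ _ _ _ τ _ _ _ _ _ _ _ _ _ ((ann (par N cT cP ch cw).K
    (2 * (par N cT cP ch cw).K)).filter prim) hpar (by rw [hτ]; exact (pos _).le)
    (by
      intro z hz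
      rw [mem_filter, mem_ann] at hz
      exact ⟨hz.2, hz.1.2.1.le, hz.1.2.2⟩)
  have hVV := (le_of_eq hLN).trans hV
  have hIJ0 : (0 : ℝ) ≤ ((VV (l ^ g0) (l ^ cP) (2 * l ^ cP)).card : ℝ) *
      ((JJ (par N cT cP ch cw) m).card : ℝ) := mul_nonneg (Nat.cast_nonneg _) (Nat.cast_nonneg _)
  have hfirst := first l N B A a₀ g0 n aF cw cP cT (cT + cP + 2 * n + A + aF + 20) c
    (((VV (l ^ g0) (l ^ cP) (2 * l ^ cP)).card : ℝ) * ((JJ (par N cT cP ch cw) m).card : ℝ))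
    T0 T1 Km (by linarith) N0 (by rw [← Real.rpow_neg_one]; exact hN1) hB hB2 ha₀ hg0 haF hA
    (by linarith) hc0 (by linarith) hcPc (by linarith) (by linarith) (by linarith) hIJ0 F9
    hT0b hT0a (Nat.cast_nonneg _) hT1a hKm2
  have hsecond := second l N A n aU aQ cw cP cT c cA cS A₁
    (((VV (l ^ g0) (l ^ cP) (2 * l ^ cP)).card : ℝ) * ((JJ (par N cT cP ch cw) m).card : ℝ)) B
    (l ^ (aU + 1 - aQ)) (U.card : ℝ) (N ^ c) (par N cT cP ch cw).M2 (by linarith) (by linarith) B0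
    hNc (by linarith) hA (by linarith) haQ (by linarith) hA₁ hcA' hcS' hc0 (by linarith) hIJ0 F9
    (pos _).le le_rfl (Nat.cast_nonneg _) hU'.card (Real.rpow_nonneg N0.le _) le_rfl
    (preM2 N0 l0)
  have hY1 : 1 ≤ 2 * N * l ^ cT := by
    have h1 := one cT (by linarith)
    clear * - h1 hN
    nlinarith
  rw [hτ] at hVV hsum
  have hIB : (0 : ℝ) ≤ ((VV (l ^ g0) (l ^ cP) (2 * l ^ cP)).card : ℝ) *
      ((JJ (par N cT cP ch cw) m).card : ℝ) * (B / (2 * N * l ^ cT)) :=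
    mul_nonneg hIJ0 (div_nonneg B0.le (by linarith))
  have hS2 := (mul_le_mul_of_nonneg_left hsum hIB).trans hsecond
  exact last l N A B C n cT _ _ _ (1 + Real.log (2 * N * l ^ cT)) _ l1 hlC N0 B0 hC
    (by have := Real.log_nonneg hY1; linarith) F10 hfirst hS2 hVV

end Pool.Agent.Lib.MP391708.XU
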