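import Pool.Agent.Lib.MP_391708_nt.X.U.Spec
import Pool.Agent.Lib.MP_391708_nt.MR.Basic

/-!
# THEOREM X (MP_391708), part U: lemmas for FIN (the variance of the model)
-/

set_option autoImplicit false

namespace Pool.Agent.Lib.MP391708.XU

open Finset Filter Topology Pool.Agent.Lib.MP391708.MR
open Pool.Agent.Lib.MP391708.X (Par par ChiG hk Dist Fam rgh Ix psi ix1 UOK lc RR S4 S2 I4 I2 eta kap Eta Kap On Var)
open Pool.Agent.Lib.MP391708.XV (md chs ph hat atyp)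
open scoped ComplexConjugate

namespace FINM

/-! ## Growth -/

lemma ev_l (k : ℝ) : ∀ᶠ N : ℝ in atTop, k ≤ Real.log N :=
  Real.tendsto_log_atTop.eventually_ge_atTop k

lemma ev_ge (k s : ℝ) (h : 0 < s) : ∀ᶠ N : ℝ in atTop, k ≤ Real.log N ^ s :=
  ((tendsto_rpow_atTop h).comp Real.tendsto_log_atTop).eventually_ge_atTop k

lemma ev_pow (k s s' : ℝ) (h : s < s') :
    ∀ᶠ N : ℝ in atTop, k * Real.log N ^ s ≤ Real.log N ^ s' := by
  filter_upwards [ev_ge k (s' - s) (by linarith), ev_l 1] with N h1 h2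
  have h3 : 0 < Real.log N := by linarith
  calc k * Real.log N ^ s ≤ Real.log N ^ (s' - s) * Real.log N ^ s := by
        gcongr
    _ = Real.log N ^ s' := by rw [← Real.rpow_add h3]; congr 1; ring

lemma ev_N (c s : ℝ) (h : 0 < c) : ∀ᶠ N : ℝ in atTop, N ^ (-c) ≤ Real.log N ^ (-s) := by
  have h1 := (isLittleO_log_rpow_rpow_atTop s h).bound (show (0 : ℝ) < 1 by norm_num)
  filter_upwards [h1, ev_l 1, eventually_gt_atTop 0] with N h2 h3 h4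
  have h5 : 0 < Real.log N := by linarith
  rw [Real.norm_of_nonneg (Real.rpow_nonneg h5.le _), Real.norm_of_nonneg (Real.rpow_nonneg h4.le _),
    one_mul] at h2
  rw [Real.rpow_neg h4.le, Real.rpow_neg h5.le]
  exact inv_anti₀ (Real.rpow_pos_of_pos h5 _) h2

/-! ## The transforms -/

lemma hk_mul {m : Gi} {χ : Gi → ℂ} (h : ChiG m χ) (k : ℤ) (x y : Gi) :
    hk χ k (x * y) = hk χ k x * hk χ k y := by
  unfold hk
  rw [h.mul, xi_mul]
  ring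

lemma hk_le {χ : Gi → ℂ} (h : ∀ z, ‖χ z‖ ≤ 1) (k : ℤ) {z : Gi} (hz : z ≠ 0) : ‖hk χ k z‖ ≤ 1 := by
  unfold hk
  rw [norm_mul, norm_xi k hz, mul_one]
  exact h z

lemma nmI (z : Gi) : nm ((⟨0, 1⟩ : Gi) * z) = nm z := by
  rw [nm_mul, nm_I, one_mul]

lemma unitI : IsUnit (⟨0, 1⟩ : Gi) := isUnit_iff_nm.2 nm_I

lemma rghI {w : ℝ} {u z : Gi} (hu : IsUnit u) (h : rgh w z) : rgh w (u * z) :=
  fun π hπ hd => h π hπ ((hu.dvd_mul_left).1 hd)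

lemma mem_SJ {p : Par} {m j : ℕ} {z : Gi} : z ∈ SJ p m j ↔ z ∈ disc (MM' p) ∧ rgh p.w z ∧
    m * ((Nat.unpair j).1 + (Nat.unpair j).2) ≤ ⌊p.h * Real.log (nm z)⌋₊ ∧
    ⌊p.h * Real.log (nm z)⌋₊ + 1 ≤ m * ((Nat.unpair j).1 + (Nat.unpair j).2) + 2 * m := by
  classical
  unfold SJ
  simp only [mem_filter]

lemma SJ_unit {p : Par} {m j : ℕ} {u z : Gi} (hu : nm u = 1) (h : z ∈ SJ p m j) :
    u * z ∈ SJ p m j := by
  have hnm : nm (u * z) = nm z := by rw [nm_mul, hu, one_mul]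
  rw [mem_SJ] at h ⊢
  obtain ⟨h1, h2, h3⟩ := h
  refine ⟨?_, rghI (isUnit_iff_nm.2 hu) h2, ?_⟩
  · rw [mem_disc] at h1 ⊢
    refine ⟨mul_ne_zero ?_ h1.1, ?_⟩
    · intro h0
      rw [h0] at hu
      simp at hu
    · rw [hnm]
      exact h1.2
  · rw [hnm]
    exact h3

lemma hat_zero (hB : SpecBRG) (hJ : SpecHJS) {p : Par} {U : Finset Ix} {m : ℕ} (hp : Siz p)
    (hm : 1 ≤ m) (hU : ∀ i ∈ U, psi i ⟨0, 1⟩ = 1 ∧ ChiG (i.1 : Gi) i.2.1) (t : ℕ) (ht : 1 ≤ t)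
    (q : MulChar (Cls.RR (md t)) ℂ × ℤ) (hq : psi (ixq t q) ⟨0, 1⟩ ≠ 1) (j : ℕ) :
    hat t q.1 q.2 (SJ p m j) (HJ p U m j) = 0 := by
  rw [hB.2.1]
  set F : Gi → ℂ := fun z => HJ p U m j z * hk (fn t q.1) q.2 z with hF
  have hFI : ∀ z, F ((⟨0, 1⟩ : Gi) * z) = hk (fn t q.1) q.2 ⟨0, 1⟩ * F z := by
    intro z
    simp only [hF]
    rw [(hJ p U m hp hm).2.2.2 hU j z, hk_mul (hB.1 t q.1 ht)]
    ring
  have h1 : ∑ z ∈ SJ p m j, F z = ∑ z ∈ SJ p m j, F ((⟨0, 1⟩ : Gi) * z) := by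
    have hI4 : (⟨0, 1⟩ : Gi) * ⟨0, -1⟩ = 1 := by decide
    have hI5 : (⟨0, -1⟩ : Gi) * ⟨0, 1⟩ = 1 := by decide
    symm
    refine Finset.sum_nbij' (fun z => (⟨0, 1⟩ : Gi) * z) (fun z => (⟨0, -1⟩ : Gi) * z) ?_ ?_ ?_ ?_ ?_
    · intro z hz
      exact SJ_unit nm_I hz
    · intro z hz
      exact SJ_unit (by simp [nm]) hz
    · intro z _
      rw [← mul_assoc, hI5, one_mul]
    · intro z _
      rw [← mul_assoc, hI4, one_mul]
    · intro z _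
      rfl
  rw [Finset.sum_congr rfl (fun z _ => hFI z), ← Finset.mul_sum] at h1
  have h2 : hk (fn t q.1) q.2 ⟨0, 1⟩ ≠ 1 := hq
  have h3 : (1 - hk (fn t q.1) q.2 ⟨0, 1⟩) * ∑ z ∈ SJ p m j, F z = 0 := by
    rw [sub_mul, one_mul, ← h1, sub_self]
  rcases mul_eq_zero.1 h3 with h4 | h4
  · exact absurd (sub_eq_zero.1 h4).symm h2
  · exact h4

lemma hat_triv (hB : SpecBRG) {t : ℕ} (ht : 1 ≤ t) (q : MulChar (Cls.RR (md t)) ℂ × ℤ)
    (S : Finset Gi) (f : Gi → ℂ) (M F : ℝ) (hS : S ⊆ disc M) (hM : 0 ≤ M) (hF : 0 ≤ F)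
    (hf : ∀ z ∈ S, ‖f z‖ ≤ F) : ‖hat t q.1 q.2 S f‖ ≤ 9 * M * F := by
  rw [hB.2.1]
  refine (norm_sum_le _ _).trans ?_
  have h1 : ∀ z ∈ S, ‖f z * hk (fn t q.1) q.2 z‖ ≤ F := by
    intro z hz
    rw [norm_mul]
    calc ‖f z‖ * ‖hk (fn t q.1) q.2 z‖ ≤ F * 1 := by
          gcongr
          · exact hf z hz
          · exact hk_le (fun x => (hB.2.2.2 _ _ (hB.1 t q.1 ht) x).1) _ (mem_disc.1 (hS hz)).1
      _ = F := mul_one F
  refine (Finset.sum_le_sum h1).trans ?_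
  rw [Finset.sum_const, nsmul_eq_mul]
  gcongr
  exact (Nat.cast_le.2 (Finset.card_le_card hS)).trans (card_disc_le hM)

/-! ## The three cases, one `t` and one pair of cells -/

/-- the `q` of `W` which are equal to an element of `U` are at most `#U` -/
lemma card_V (hB : SpecBRG) {t : ℕ} (ht : 1 ≤ t) (U : Finset Ix)
    (V : Finset (MulChar (Cls.RR (md t)) ℂ × ℤ))
    (hV : ∀ q ∈ V, ∃ u ∈ U, q.2 = u.2.2 ∧ ∀ z, fn t q.1 z ≠ 0 → u.2.1 z = fn t q.1 z) :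
    V.card ≤ U.card := by
  classical
  choose! f hf using hV
  refine Finset.card_le_card_of_injOn f (fun q hq => (hf q hq).1) ?_
  intro q hq q' hq' he
  by_contra hne
  have hq1 := hf q hq
  have hq1' := hf q' hq'
  rcases hB.2.2.1 t q q' ht hne with h | ⟨z, hz, hz', hzz⟩
  · apply h
    rw [hq1.2.1, hq1'.2.1, he]
  · apply hzz
    rw [← hq1.2.2 z hz, ← hq1'.2.2 z hz', he]

lemma sumq (hB : SpecBRG) (hJ : SpecHJS) {p : Par} {U : Finset Ix} {m : ℕ} (hp : Siz p)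
    (hm : 1 ≤ m) (hU : ∀ i ∈ U, psi i ⟨0, 1⟩ = 1 ∧ ChiG (i.1 : Gi) i.2.1) (l : ℝ) (hl : 0 ≤ l)
    (hsup : ∀ z, ∑ v4 ∈ I4 p, ∑ v2 ∈ I2 p, (‖eta p v4 v2 z‖ + ‖kap p U v4 v2 z‖) ≤ l)
    {t : ℕ} (ht : 1 ≤ t) (j : ℕ) (hj : j ∈ JJ p m) (W Et : Finset (MulChar (Cls.RR (md t)) ℂ × ℤ))
    (Km : ℕ) (hW : ∀ q ∈ W, q.1 ∈ chs t ∧ q.2 ∈ IK Km) (g D R G2b : ℝ) (hg : 0 ≤ g) (hD : 0 ≤ D)
    (htri : ∀ q : MulChar (Cls.RR (md t)) ℂ × ℤ, q.1 ∈ chs t → q.2 ∈ IK Km →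
      psi (ixq t q) ⟨0, 1⟩ = 1 →
        q ∈ Et ∨ (∃ u ∈ U, q.2 = u.2.2 ∧ ∀ z, fn t q.1 z ≠ 0 → u.2.1 z = fn t q.1 z) ∨
          ((∀ u ∈ U, Dist (fn t q.1) u.2.1 q.2 u.2.2) ∧ ∀ a ∈ (I4 p).image (fun v => v / m),
            ‖G4 p m (ixq t q) a‖ ≤ g))
    (hA : ∀ q : MulChar (Cls.RR (md t)) ℂ × ℤ, q ∈ W →
      (∃ u ∈ U, q.2 = u.2.2 ∧ ∀ z, fn t q.1 z ≠ 0 → u.2.1 z = fn t q.1 z) →
        ‖hat t q.1 q.2 (SJ p m j) (HJ p U m j)‖ ≤ D)
    (hS : ∀ q : MulChar (Cls.RR (md t)) ℂ × ℤ, q ∈ W → psi (ixq t q) ⟨0, 1⟩ = 1 →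
      (∀ u ∈ U, Dist (fn t q.1) u.2.1 q.2 u.2.2) →
        ‖hat t q.1 q.2 (SJ p m j) (HJ p U m j)‖ ≤
          4 * ‖G4 p m (ixq t q) (Nat.unpair j).1‖ * ‖G2 p m (ixq t q) (Nat.unpair j).2‖ + R)
    (hG : ∑ q ∈ W, ‖∑ π ∈ GG p.h p.M2 m (Nat.unpair j).2, hk (fn t q.1) q.2 π‖ ^ 2 ≤ G2b) :
    ∑ q ∈ W, ‖hat t q.1 q.2 (SJ p m j) (HJ p U m j)‖ ^ 2 ≤
      (Et.card : ℝ) * (9 * MM' p * l) ^ 2 + (U.card : ℝ) * D ^ 2 + 32 * g ^ 2 * G2b +
        (W.card : ℝ) * (2 * R ^ 2) := by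
  classical
  have hj1 : (Nat.unpair j).1 ∈ (I4 p).image (fun v => v / m) := by
    unfold JJ at hj
    rw [mem_image] at hj
    obtain ⟨q, hq, rfl⟩ := hj
    rw [Nat.unpair_pair]
    exact (mem_product.1 hq).1
  have hM : 0 ≤ MM' p := by
    unfold MM'
    have h1 := hp.N
    have h2 := hp.P
    have h3 := hp.T
    have : 0 ≤ p.T := by linarith
    positivity
  have hHJ : ∀ z, ‖HJ p U m j z‖ ≤ l := by
    intro z
    refine le_trans ?_ (hsup z)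
    refine le_trans ?_ ((hJ p U m hp hm).2.2.1 z)
    exact Finset.single_le_sum (f := fun j => ‖HJ p U m j z‖) (fun _ _ => norm_nonneg _) hj
  set V := W.filter (fun q => ∃ u ∈ U, q.2 = u.2.2 ∧ ∀ z, fn t q.1 z ≠ 0 → u.2.1 z = fn t q.1 z)
    with hVdef
  have hV : V.card ≤ U.card := card_V hB ht U V (fun q hq => (mem_filter.1 hq).2)
  have hSJ : SJ p m j ⊆ disc (MM' p) := fun z hz => (mem_SJ.1 hz).1
  have h1 : ∀ q ∈ W, ‖hat t q.1 q.2 (SJ p m j) (HJ p U m j)‖ ^ 2 ≤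
      (if q ∈ Et then (9 * MM' p * l) ^ 2 else 0) + (if q ∈ V then D ^ 2 else 0) +
        (32 * g ^ 2 * ‖∑ π ∈ GG p.h p.M2 m (Nat.unpair j).2, hk (fn t q.1) q.2 π‖ ^ 2 + 2 * R ^ 2) := by
    intro q hq
    have e1 : (0 : ℝ) ≤ if q ∈ Et then (9 * MM' p * l) ^ 2 else 0 := by split_ifs <;> positivity
    have e2 : (0 : ℝ) ≤ if q ∈ V then D ^ 2 else 0 := by split_ifs <;> positivity
    have e3 : 0 ≤ 32 * g ^ 2 * ‖∑ π ∈ GG p.h p.M2 m (Nat.unpair j).2, hk (fn t q.1) q.2 π‖ ^ 2 +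
      2 * R ^ 2 := by positivity
    by_cases hI : psi (ixq t q) ⟨0, 1⟩ = 1
    · rcases htri q (hW q hq).1 (hW q hq).2 hI with h | h | h
      · rw [if_pos h]
        have h2 := hat_triv hB ht q (SJ p m j) (HJ p U m j) (MM' p) l hSJ hM hl (fun z _ => hHJ z)
        have h3 : ‖hat t q.1 q.2 (SJ p m j) (HJ p U m j)‖ ^ 2 ≤ (9 * MM' p * l) ^ 2 := by
          gcongr
        linarith
      · have hqV : q ∈ V := mem_filter.2 ⟨hq, h⟩
        rw [if_pos hqV]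
        have h3 : ‖hat t q.1 q.2 (SJ p m j) (HJ p U m j)‖ ^ 2 ≤ D ^ 2 := by
          gcongr
          exact hA q hq h
        linarith
      · have h2 := hS q hq hI h.1
        have h4 := h.2 _ hj1
        have h5 : G2 p m (ixq t q) (Nat.unpair j).2 =
          ∑ π ∈ GG p.h p.M2 m (Nat.unpair j).2, hk (fn t q.1) q.2 π := rfl
        rw [h5] at h2
        set x := ‖∑ π ∈ GG p.h p.M2 m (Nat.unpair j).2, hk (fn t q.1) q.2 π‖ with hx
        have hx0 : 0 ≤ x := norm_nonneg _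
        have h6 : ‖hat t q.1 q.2 (SJ p m j) (HJ p U m j)‖ ≤ 4 * g * x + R := by
          refine h2.trans ?_
          gcongr
        have h7 : ‖hat t q.1 q.2 (SJ p m j) (HJ p U m j)‖ ^ 2 ≤ (4 * g * x + R) ^ 2 := by
          gcongr
        have h8 : (4 * g * x + R) ^ 2 ≤ 32 * g ^ 2 * x ^ 2 + 2 * R ^ 2 := by
          nlinarith [sq_nonneg (4 * g * x - R)]
        linarith
    · rw [hat_zero hB hJ hp hm hU t ht q hI j]
      rw [norm_zero]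
      have := add_nonneg (add_nonneg e1 e2) e3
      simpa using this
  refine (Finset.sum_le_sum h1).trans ?_
  rw [Finset.sum_add_distrib, Finset.sum_add_distrib, Finset.sum_add_distrib, ← Finset.sum_filter,
    ← Finset.sum_filter, Finset.sum_const, Finset.sum_const, Finset.sum_const, ← Finset.mul_sum,
    nsmul_eq_mul, nsmul_eq_mul, nsmul_eq_mul]
  have k1 : ((W.filter (fun q => q ∈ Et)).card : ℝ) ≤ Et.card := by
    exact_mod_cast Finset.card_le_card (fun q hq => (mem_filter.1 hq).2)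
  have k2 : ((W.filter (fun q => q ∈ V)).card : ℝ) ≤ U.card := by
    have : W.filter (fun q => q ∈ V) ⊆ V := fun q hq => (mem_filter.1 hq).2
    exact_mod_cast (Finset.card_le_card this).trans hV
  have k3 : ((W.filter (fun q => q ∈ Et)).card : ℝ) * (9 * MM' p * l) ^ 2 ≤
    Et.card * (9 * MM' p * l) ^ 2 := by gcongr
  have k4 : ((W.filter (fun q => q ∈ V)).card : ℝ) * D ^ 2 ≤ U.card * D ^ 2 := by gcongr
  have k5 : 32 * g ^ 2 * ∑ q ∈ W, ‖∑ π ∈ GG p.h p.M2 m (Nat.unpair j).2, hk (fn t q.1) q.2 π‖ ^ 2 ≤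
    32 * g ^ 2 * G2b := by gcongr
  linarith

/-! ## The sum over `t` and the cells -/

lemma sum_inv (T : ℕ) (hT : 1 ≤ T) : ∑ t ∈ Icc 1 T, (1 : ℝ) / t ≤ 1 + Real.log T := by
  have h := harmonic_le_one_add_log T
  rw [harmonic_eq_sum_Icc] at h
  push_cast at h
  simpa [one_div] using h

lemma sumt (T0 T1 Km : ℕ) (τ : ℝ) (I J : Finset ℕ) (Pc S : ℕ → Finset Gi) (hh : ℕ → Gi → ℂ)
    (Et : ℕ → ℝ) (hE0 : ∀ t, 0 ≤ Et t) (Pb a b l eE : ℝ) (ha : 0 ≤ a) (hb : 0 ≤ b) (hl : 0 ≤ l)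
    (hPb : 0 ≤ Pb)
    (hP : ∀ t, 1 ≤ t → ∀ i ∈ I, ∀ q : MulChar (Cls.RR (md t)) ℂ × ℤ,
      ‖hat t q.1 q.2 (Pc i) (fun _ => 1)‖ ≤ Pb)
    (hH : ∀ t, T0 < t → t ≤ T1 → ∀ i ∈ I, ∀ j ∈ J,
      ∑ q ∈ atyp t Km τ (Pc i), ‖hat t q.1 q.2 (S j) (hh j)‖ ^ 2 ≤ Et t * a + b)
    (hph : ∀ t : ℕ, T0 < t → t ≤ T1 → (t : ℝ) / ph t ≤ l / t)
    (hEs : ∑ t ∈ Icc 1 T1, Et t / t ≤ eE) (hinv : ∑ t ∈ Icc 1 T1, (1 : ℝ) / t ≤ l) :
    ∑ t ∈ Ioc T0 T1, ((t : ℝ) / ph t) * ∑ i ∈ I, ∑ j ∈ J, ∑ q ∈ atyp t Km τ (Pc i),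
      ‖hat t q.1 q.2 (Pc i) (fun _ => 1)‖ ^ 2 * ‖hat t q.1 q.2 (S j) (hh j)‖ ^ 2 ≤
      ((I.card : ℝ) * J.card) * Pb ^ 2 * (l * a * eE + l ^ 2 * b) := by
  have h1 : ∀ t ∈ Ioc T0 T1, ((t : ℝ) / ph t) * ∑ i ∈ I, ∑ j ∈ J, ∑ q ∈ atyp t Km τ (Pc i),
      ‖hat t q.1 q.2 (Pc i) (fun _ => 1)‖ ^ 2 * ‖hat t q.1 q.2 (S j) (hh j)‖ ^ 2 ≤
      ((I.card : ℝ) * J.card) * Pb ^ 2 * (l * a * (Et t / t) + l * b * (1 / t)) := by
    intro t ht
    have ht0 := (mem_Ioc.1 ht).1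
    have ht1 := (mem_Ioc.1 ht).2
    have ht2 : 1 ≤ t := by omega
    have h2 : ∀ i ∈ I, ∀ j ∈ J, ∑ q ∈ atyp t Km τ (Pc i),
        ‖hat t q.1 q.2 (Pc i) (fun _ => 1)‖ ^ 2 * ‖hat t q.1 q.2 (S j) (hh j)‖ ^ 2 ≤
        Pb ^ 2 * (Et t * a + b) := by
      intro i hi j hj
      calc ∑ q ∈ atyp t Km τ (Pc i),
            ‖hat t q.1 q.2 (Pc i) (fun _ => 1)‖ ^ 2 * ‖hat t q.1 q.2 (S j) (hh j)‖ ^ 2
          ≤ ∑ q ∈ atyp t Km τ (Pc i), Pb ^ 2 * ‖hat t q.1 q.2 (S j) (hh j)‖ ^ 2 := by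
            refine Finset.sum_le_sum (fun q _ => ?_)
            gcongr
            exact hP t ht2 i hi q
        _ = Pb ^ 2 * ∑ q ∈ atyp t Km τ (Pc i), ‖hat t q.1 q.2 (S j) (hh j)‖ ^ 2 := by
            rw [Finset.mul_sum]
        _ ≤ Pb ^ 2 * (Et t * a + b) := by
            gcongr
            exact hH t ht0 ht1 i hi j hj
    have h3 : ∑ i ∈ I, ∑ j ∈ J, ∑ q ∈ atyp t Km τ (Pc i),
        ‖hat t q.1 q.2 (Pc i) (fun _ => 1)‖ ^ 2 * ‖hat t q.1 q.2 (S j) (hh j)‖ ^ 2 ≤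
        (I.card : ℝ) * J.card * (Pb ^ 2 * (Et t * a + b)) := by
      calc _ ≤ ∑ i ∈ I, ∑ j ∈ J, Pb ^ 2 * (Et t * a + b) :=
            Finset.sum_le_sum (fun i hi => Finset.sum_le_sum (fun j hj => h2 i hi j hj))
        _ = _ := by
            rw [Finset.sum_const, Finset.sum_const, nsmul_eq_mul, nsmul_eq_mul]
            ring
    have h4 : 0 ≤ (I.card : ℝ) * J.card * (Pb ^ 2 * (Et t * a + b)) := by
      have := hE0 t
      positivity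
    calc _ ≤ (l / t) * ((I.card : ℝ) * J.card * (Pb ^ 2 * (Et t * a + b))) := by
          refine mul_le_mul (hph t ht0 ht1) h3 ?_ (by positivity)
          exact Finset.sum_nonneg (fun i _ => Finset.sum_nonneg (fun j _ =>
            Finset.sum_nonneg (fun q _ => by positivity)))
      _ = _ := by
          ring
  refine (Finset.sum_le_sum h1).trans ?_
  rw [← Finset.mul_sum]
  have h5 : ∑ t ∈ Ioc T0 T1, (l * a * (Et t / t) + l * b * (1 / (t : ℝ))) ≤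
      l * a * eE + l ^ 2 * b := by
    have h6 : ∑ t ∈ Ioc T0 T1, (l * a * (Et t / t) + l * b * (1 / (t : ℝ))) ≤
        ∑ t ∈ Icc 1 T1, (l * a * (Et t / t) + l * b * (1 / (t : ℝ))) := by
      refine Finset.sum_le_sum_of_subset_of_nonneg ?_ ?_
      · intro t ht
        rw [mem_Ioc] at ht
        rw [mem_Icc]
        omega
      · intro t _ _
        have := hE0 t
        positivity
    refine h6.trans ?_
    rw [Finset.sum_add_distrib, ← Finset.mul_sum, ← Finset.mul_sum]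
    have h7 : l * a * ∑ t ∈ Icc 1 T1, Et t / t ≤ l * a * eE := by gcongr
    have h8 : l * b * ∑ t ∈ Icc 1 T1, (1 : ℝ) / t ≤ l * b * l := by gcongr
    nlinarith
  gcongr

/-! ## The number of cells -/

lemma card_VV {h P : ℝ} (hh : 0 ≤ h) (hP : 1 ≤ P) :
    ((VV h P (2 * P)).card : ℝ) ≤ h + 2 := by
  unfold VV
  rw [Nat.card_Icc]
  have h1 : 0 ≤ Real.log P := Real.log_nonneg hP
  have h2 : Real.log (2 * P) = Real.log 2 + Real.log P := Real.log_mul (by norm_num) (by linarith)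
  have h3 : Real.log 2 ≤ 1 := by
    have := Real.log_two_lt_d9
    linarith
  have h30 : 0 < Real.log 2 := Real.log_pos (by norm_num)
  have h4 : (⌊h * Real.log (2 * P)⌋₊ : ℝ) ≤ h * Real.log (2 * P) :=
    Nat.floor_le (by rw [h2]; positivity)
  have h5 : h * Real.log P < ⌊h * Real.log P⌋₊ + 1 := Nat.lt_floor_add_one _
  have h6 : ((⌊h * Real.log (2 * P)⌋₊ + 1 - ⌊h * Real.log P⌋₊ : ℕ) : ℝ) ≤
      (⌊h * Real.log (2 * P)⌋₊ : ℝ) + 1 - ⌊h * Real.log P⌋₊ := by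
    have h7 : ⌊h * Real.log P⌋₊ ≤ ⌊h * Real.log (2 * P)⌋₊ + 1 := by
      refine (Nat.floor_le_floor ?_).trans (Nat.le_succ _)
      rw [h2]
      nlinarith
    rw [Nat.cast_sub h7]
    push_cast
    linarith
  rw [h2] at h4 h6 ⊢
  nlinarith

lemma card_div {h P : ℝ} {m : ℕ} (hh : 1 ≤ h) (hP : 1 ≤ P) (hm : 1 ≤ m) :
    ((((VV h P (2 * P)).image (fun v => v / m)).card : ℕ) : ℝ) ≤ (h + 1) / m + 2 := by
  unfold VV
  set a := ⌊h * Real.log P⌋₊ with ha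
  set b := ⌊h * Real.log (2 * P)⌋₊ with hb
  have hsub : (Icc a b).image (fun v => v / m) ⊆ Icc (a / m) (b / m) := by
    intro x hx
    rw [mem_image] at hx
    obtain ⟨v, hv, rfl⟩ := hx
    rw [mem_Icc] at hv ⊢
    exact ⟨Nat.div_le_div_right hv.1, Nat.div_le_div_right hv.2⟩
  have h1 : 0 ≤ Real.log P := Real.log_nonneg hP
  have h2 : Real.log (2 * P) = Real.log 2 + Real.log P := Real.log_mul (by norm_num) (by linarith)
  have h3 : Real.log 2 ≤ 1 := by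
    have := Real.log_two_lt_d9
    linarith
  have h30 : 0 < Real.log 2 := Real.log_pos (by norm_num)
  have h4 : (b : ℝ) ≤ h * Real.log (2 * P) :=
    Nat.floor_le (by rw [h2]; positivity)
  have h5 : h * Real.log P < a + 1 := Nat.lt_floor_add_one _
  rw [h2] at h4
  have h6 : (b : ℝ) - a ≤ h + 1 := by nlinarith
  have hab : a ≤ b := by
    refine Nat.floor_le_floor ?_
    rw [h2]
    nlinarith
  have h7 := Finset.card_le_card hsub
  rw [Nat.card_Icc] at h7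
  have hm' : (1 : ℝ) ≤ m := by exact_mod_cast hm
  have h8 : ((b / m : ℕ) : ℝ) ≤ (b : ℝ) / m := Nat.cast_div_le
  have h9 : (a : ℝ) / m < ((a / m : ℕ) : ℝ) + 1 := by
    rw [div_lt_iff₀ (by linarith)]
    have := Nat.lt_div_mul_add (a := a) (b := m) (by omega)
    have h10 : (a : ℝ) < ((a / m * m + m : ℕ) : ℝ) := by exact_mod_cast this
    push_cast at h10
    nlinarith
  have h10 : ((b / m + 1 - a / m : ℕ) : ℝ) = (b / m : ℕ) + 1 - (a / m : ℕ) := by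
    have : a / m ≤ b / m + 1 := (Nat.div_le_div_right hab).trans (Nat.le_succ _)
    rw [Nat.cast_sub this]
    push_cast
    ring
  calc _ ≤ ((b / m + 1 - a / m : ℕ) : ℝ) := by exact_mod_cast h7
    _ = ((b / m : ℕ) : ℝ) + 1 - (a / m : ℕ) := h10
    _ ≤ (b : ℝ) / m - (a : ℝ) / m + 2 := by linarith
    _ = ((b : ℝ) - a) / m + 2 := by ring
    _ ≤ (h + 1) / m + 2 := by gcongr

/-! ## The first part -/

lemma first (l N B A a₀ g0 n aF cw cP cT cB c IJ T0 T1 Km : ℝ) (hl : 27 ≤ l) (hN : 0 < N)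
    (hNi : N⁻¹ ≤ l ^ (-(A + 8))) (hB : l ^ cB ≤ B) (hB2 : B ^ 2 ≤ 2 * N)
    (ha₀ : a₀ = A + 9) (hg : g0 = A + 2 * a₀ + 10) (haF : aF = A + 2 * n + a₀ + 10) (hA : 0 < A)
    (hcw : A + 8 ≤ cw) (hc : 0 < c) (hcP0 : 0 ≤ cP) (hcP : 2 * n + A + 8 ≤ cP * c / 4)
    (hn : 0 ≤ n) (hcT : a₀ ≤ cT) (hcB : cT + cP + 2 * n + A + 10 ≤ cB) (hIJ0 : 0 ≤ IJ)
    (hIJ : IJ ≤ l ^ n) (hT0 : l ^ (cT - a₀) / 2 ≤ T0) (hT0' : T0 ≤ l ^ (cT - a₀))
    (hT1' : 0 ≤ T1) (hT1 : T1 ≤ 5 * l ^ cT) (hKm : l ^ aF * (N / B) / 2 ≤ Km) :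
    T0 * Real.sqrt (N / l ^ cT / (2 * N * l ^ cT)) +
      3 / l ^ g0 * (2 * N * l ^ cT / (T0 ^ 2 * (N / l ^ cT)) + 1) +
      B ^ 2 / (N / l ^ cT * (2 * N * l ^ cT)) + 1 / l ^ cw + 1 / B +
      IJ ^ 2 * ((l ^ (cP * (1 - c / 8))) ^ 2 *
        (T1 * (2 * N * l ^ cT / l ^ cP) / (B * (2 * N * l ^ cT)) +
          ((2 * N * l ^ cT / l ^ cP) / (2 * N * l ^ cT)) ^ 2) +
        2 * N * l ^ cT / (B * Km) * (1 / B + 1 / T0)) ≤ 8 * l ^ (-(A + 8)) := by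
  have l0 : 0 < l := by linarith
  have l1 : 1 ≤ l := by linarith
  have pos : ∀ e : ℝ, 0 < l ^ e := fun e => Real.rpow_pos_of_pos l0 e
  have add : ∀ a b : ℝ, l ^ a * l ^ b = l ^ (a + b) := fun a b => (Real.rpow_add l0 a b).symm
  have mono : ∀ a b : ℝ, a ≤ b → l ^ a ≤ l ^ b := fun a b h =>
    Real.rpow_le_rpow_of_exponent_le l1 h
  have neg : ∀ a : ℝ, (l ^ a)⁻¹ = l ^ (-a) := fun a => (Real.rpow_neg l0.le a).symm
  have B0 : 0 < B := (pos cB).trans_le hB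
  have T00 : 0 < T0 := lt_of_lt_of_le (by have := pos (cT - a₀); positivity) hT0
  have hNB : 0 < l ^ aF * (N / B) / 2 := by have := pos aF; positivity
  have Km0 : 0 < Km := lt_of_lt_of_le hNB hKm
  have Bi : 1 / B ≤ l ^ (-cB) := by
    rw [one_div, ← neg]
    exact inv_anti₀ (pos _) hB
  have c27 : ∀ e : ℝ, 27 * l ^ e ≤ l ^ (e + 1) := by
    intro e
    rw [← add e 1, Real.rpow_one]
    nlinarith [pos e]
  -- term 1
  have t1 : T0 * Real.sqrt (N / l ^ cT / (2 * N * l ^ cT)) ≤ l ^ (-(A + 8)) := by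
    have h1 : Real.sqrt (N / l ^ cT / (2 * N * l ^ cT)) ≤ l ^ (-cT) := by
      rw [Real.sqrt_le_left (pos _).le]
      have h2 : N / l ^ cT / (2 * N * l ^ cT) = (l ^ (-cT)) ^ 2 / 2 := by
        rw [← neg]
        field_simp
      rw [h2]
      have := pos (-cT)
      nlinarith [sq_nonneg (l ^ (-cT))]
    calc _ ≤ l ^ (cT - a₀) * l ^ (-cT) := by
          gcongr
      _ = l ^ (-a₀) := by rw [add]; congr 1; ring
      _ ≤ _ := mono _ _ (by linarith)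
  -- term 2
  have t2 : 3 / l ^ g0 * (2 * N * l ^ cT / (T0 ^ 2 * (N / l ^ cT)) + 1) ≤ l ^ (-(A + 8)) := by
    have h1 : 2 * N * l ^ cT / (T0 ^ 2 * (N / l ^ cT)) ≤ 8 * l ^ (2 * a₀) := by
      have h2 : 2 * N * l ^ cT / (T0 ^ 2 * (N / l ^ cT)) = 2 * (l ^ cT) ^ 2 / T0 ^ 2 := by
        have := (pos cT).ne'
        field_simp
      rw [h2, div_le_iff₀ (by positivity)]
      have h3 : (l ^ (cT - a₀) / 2) ^ 2 ≤ T0 ^ 2 := by
        have := pos (cT - a₀)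
        gcongr
      have h4 : l ^ (2 * a₀) * (l ^ (cT - a₀)) ^ 2 = (l ^ cT) ^ 2 := by
        rw [sq, sq, add, add, add]
        congr 1
        ring
      have h5 := pos (2 * a₀)
      nlinarith
    have h2 : (1 : ℝ) ≤ l ^ (2 * a₀) := Real.one_le_rpow l1 (by linarith)
    calc _ ≤ 3 / l ^ g0 * (9 * l ^ (2 * a₀)) := by
          have := pos g0
          gcongr
          linarith
      _ = 27 * l ^ (2 * a₀ - g0) := by
          rw [div_eq_mul_inv, neg, show 2 * a₀ - g0 = -g0 + 2 * a₀ by ring, ← add]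
          ring
      _ ≤ l ^ (2 * a₀ - g0 + 1) := c27 _
      _ ≤ _ := mono _ _ (by linarith)
  -- term 3
  have t3 : B ^ 2 / (N / l ^ cT * (2 * N * l ^ cT)) ≤ l ^ (-(A + 8)) := by
    refine le_trans ?_ hNi
    have h1 : N / l ^ cT * (2 * N * l ^ cT) = 2 * N ^ 2 := by
      have := (pos cT).ne'
      field_simp
    rw [h1, div_le_iff₀ (by positivity)]
    calc B ^ 2 ≤ 2 * N := hB2
      _ = N⁻¹ * (2 * N ^ 2) := by field_simp
  -- term 4, 5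
  have t4 : 1 / l ^ cw ≤ l ^ (-(A + 8)) := by
    rw [one_div, neg]
    exact mono _ _ (by linarith)
  have t5 : 1 / B ≤ l ^ (-(A + 8)) := Bi.trans (mono _ _ (by linarith))
  -- term 6
  have MY : (2 * N * l ^ cT / l ^ cP) / (2 * N * l ^ cT) = l ^ (-cP) := by
    rw [← neg]
    have := (pos cT).ne'
    field_simp
  have hIJ2 : IJ ^ 2 ≤ l ^ (2 * n) := by
    calc IJ ^ 2 ≤ (l ^ n) ^ 2 := by gcongr
      _ = l ^ (2 * n) := by rw [sq, add]; congr 1; ring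
  have t6 : IJ ^ 2 * ((l ^ (cP * (1 - c / 8))) ^ 2 *
      (T1 * (2 * N * l ^ cT / l ^ cP) / (B * (2 * N * l ^ cT)))) ≤ l ^ (-(A + 8)) := by
    have h1 : T1 * (2 * N * l ^ cT / l ^ cP) / (B * (2 * N * l ^ cT)) = T1 * (1 / B) * l ^ (-cP) := by
      rw [← MY]
      have := (pos cT).ne'
      have := (pos cP).ne'
      field_simp
    rw [h1]
    have h2 : (l ^ (cP * (1 - c / 8))) ^ 2 ≤ l ^ (2 * cP) := by
      rw [sq, add]
      refine mono _ _ ?_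
      nlinarith [mul_nonneg hcP0 hc.le]
    calc _ ≤ l ^ (2 * n) * (l ^ (2 * cP) * (5 * l ^ cT * l ^ (-cB) * l ^ (-cP))) := by
          have := pos (-cP)
          have := pos (2 * cP)
          gcongr
      _ = 5 * l ^ (2 * n + cP + cT - cB) := by
          rw [show 2 * n + cP + cT - cB = 2 * n + (2 * cP + (cT + (-cB + -cP))) by ring, ← add,
            ← add, ← add, ← add]
          ring
      _ ≤ 27 * l ^ (2 * n + cP + cT - cB) := by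
          have := pos (2 * n + cP + cT - cB)
          linarith
      _ ≤ l ^ (2 * n + cP + cT - cB + 1) := c27 _
      _ ≤ _ := mono _ _ (by linarith)
  -- term 7
  have t7 : IJ ^ 2 * ((l ^ (cP * (1 - c / 8))) ^ 2 *
      ((2 * N * l ^ cT / l ^ cP) / (2 * N * l ^ cT)) ^ 2) ≤ l ^ (-(A + 8)) := by
    rw [MY]
    calc _ ≤ l ^ (2 * n) * ((l ^ (cP * (1 - c / 8))) ^ 2 * (l ^ (-cP)) ^ 2) := by
          gcongr
      _ = l ^ (2 * n - cP * c / 4) := by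
          rw [sq, sq, add, add, add, add]
          congr 1
          ring
      _ ≤ _ := mono _ _ (by linarith)
  -- term 8
  have t8 : IJ ^ 2 * (2 * N * l ^ cT / (B * Km) * (1 / B + 1 / T0)) ≤ l ^ (-(A + 8)) := by
    have h1 : 2 * N * l ^ cT / (B * Km) ≤ 4 * l ^ (cT - aF) := by
      rw [div_le_iff₀ (by positivity)]
      have h2 : l ^ aF * N / 2 ≤ B * Km := by
        calc l ^ aF * N / 2 = B * (l ^ aF * (N / B) / 2) := by field_simp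
          _ ≤ B * Km := by gcongr
      have h3 : l ^ (cT - aF) * l ^ aF = l ^ cT := by rw [add]; congr 1; ring
      have h4 := pos (cT - aF)
      calc 2 * N * l ^ cT = 4 * l ^ (cT - aF) * (l ^ aF * N / 2) := by rw [← h3]; ring
        _ ≤ _ := by gcongr
    have h2 : 1 / T0 ≤ 2 * l ^ (a₀ - cT) := by
      rw [div_le_iff₀ T00]
      have h3 : l ^ (a₀ - cT) * l ^ (cT - a₀) = 1 := by
        rw [add, show a₀ - cT + (cT - a₀) = 0 by ring, Real.rpow_zero]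
      have h4 := pos (a₀ - cT)
      nlinarith
    have h3 : 1 / B ≤ l ^ (a₀ - cT) := Bi.trans (mono _ _ (by linarith))
    calc _ ≤ l ^ (2 * n) * (4 * l ^ (cT - aF) * (l ^ (a₀ - cT) + 2 * l ^ (a₀ - cT))) := by
          have := pos (2 * n)
          have := pos (cT - aF)
          gcongr
      _ = 12 * l ^ (2 * n + a₀ - aF) := by
          rw [show 2 * n + a₀ - aF = 2 * n + ((cT - aF) + (a₀ - cT)) by ring, ← add, ← add]
          ring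
      _ ≤ 27 * l ^ (2 * n + a₀ - aF) := by
          have := pos (2 * n + a₀ - aF)
          linarith
      _ ≤ l ^ (2 * n + a₀ - aF + 1) := c27 _
      _ ≤ _ := mono _ _ (by linarith)
  rw [mul_add (IJ ^ 2), mul_add ((l ^ (cP * (1 - c / 8))) ^ 2), mul_add (IJ ^ 2)]
  linarith

/-! ## The second part -/

lemma second (l N A n aU aQ cw cP cT c cA cS A₁ IJ B eE Uc Wc M2 : ℝ) (hl : 27 ≤ l) (hN : 1 ≤ N)
    (hB : 0 < B) (hNc : N ^ (-c) ≤ l ^ (-(2 * n + aU + A + 20))) (hn : 0 ≤ n) (hA : 0 < A)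
    (haU : 0 ≤ aU) (haQ : aQ = A + aU + 2 * n + 20) (hcw : A + aU + 2 * n + 20 ≤ cw)
    (hA₁ : A₁ = A + 2 * n + 10) (hcA : c ≤ cA) (hcS : c ≤ cS) (hc : 0 < c) (hPT : cP ≤ cT)
    (hIJ0 : 0 ≤ IJ) (hIJ : IJ ≤ l ^ n) (heE0 : 0 ≤ eE) (heE : eE ≤ l ^ (aU + 1 - aQ))
    (hUc0 : 0 ≤ Uc) (hUc : Uc ≤ l ^ aU) (hWc0 : 0 ≤ Wc) (hWc : Wc ≤ N ^ c)
    (hM2 : 1024 * (N * M2 ^ 2) = (2 * N * l ^ cT / l ^ cP) ^ 2) :
    IJ * (B / (2 * N * l ^ cT)) * (IJ * (18 * l ^ cP) ^ 2 *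
      (l * (9 * (2 * N * l ^ cT / l ^ cP) * l) ^ 2 * eE +
        l ^ 2 * (Uc * (40 * l * l * (2 * N * l ^ cT / l ^ cP) / l ^ cw + N ^ (1 - cA)) ^ 2 +
          32 * (Real.sqrt N * l ^ (-A₁)) ^ 2 * (200 * M2 ^ 2) +
          Wc * (2 * (N ^ (1 - cS)) ^ 2)))) ≤ B * (2 * N * l ^ cT) * l ^ (-(A + 2)) := by
  have l0 : 0 < l := by linarith
  have l1 : 1 ≤ l := by linarith
  have N0 : 0 < N := by linarith
  have pos : ∀ e : ℝ, 0 < l ^ e := fun e => Real.rpow_pos_of_pos l0 e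
  have add : ∀ a b : ℝ, l ^ a * l ^ b = l ^ (a + b) := fun a b => (Real.rpow_add l0 a b).symm
  have mono : ∀ a b : ℝ, a ≤ b → l ^ a ≤ l ^ b := fun a b h =>
    Real.rpow_le_rpow_of_exponent_le l1 h
  have neg : ∀ a : ℝ, (l ^ a)⁻¹ = l ^ (-a) := fun a => (Real.rpow_neg l0.le a).symm
  have c5 : ∀ e : ℝ, 14348907 * l ^ e ≤ l ^ (e + 5) := by
    intro e
    rw [← add e 5]
    have h1 : (14348907 : ℝ) ≤ l ^ (5 : ℝ) := by
      rw [show (5 : ℝ) = ((5 : ℕ) : ℝ) by norm_num, Real.rpow_natCast]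
      calc (14348907 : ℝ) = 27 ^ 5 := by norm_num
        _ ≤ l ^ 5 := by gcongr
    nlinarith [pos e]
  set M : ℝ := 2 * N * l ^ cT / l ^ cP with hM
  set Y : ℝ := 2 * N * l ^ cT with hY
  have Y0 : 0 < Y := by have := pos cT; positivity
  have M0 : 0 < M := by have := pos cP; positivity
  have MN : N ≤ M := by
    rw [hM, hY, le_div_iff₀ (pos cP)]
    have h1 := mono cP cT hPT
    have h2 := pos cP
    nlinarith
  have PM : l ^ cP * M = Y := by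
    rw [hM]
    have := (pos cP).ne'
    field_simp
  -- the three parts of `b`
  have hw2 : (1 / l ^ cw) ^ 2 = l ^ (-(2 * cw)) := by
    rw [one_div, neg, sq, add]
    congr 1
    ring
  have rN : ∀ a : ℝ, c ≤ a → (N ^ (1 - a)) ^ 2 ≤ N ^ (-(2 * a)) * M ^ 2 := by
    intro a _
    have h1 : (N ^ (1 - a)) ^ 2 = N ^ (-(2 * a)) * N ^ 2 := by
      rw [sq, ← Real.rpow_add N0, show (N ^ 2 : ℝ) = N ^ (2 : ℝ) by
        rw [show (2 : ℝ) = ((2 : ℕ) : ℝ) by norm_num, Real.rpow_natCast], ← Real.rpow_add N0]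
      congr 1
      ring
    rw [h1]
    gcongr
  have b1 : Uc * (40 * l * l * M / l ^ cw + N ^ (1 - cA)) ^ 2 ≤
      M ^ 2 * (3200 * l ^ (aU + 4 - 2 * cw) + 2 * l ^ (-(2 * n + A + 20))) := by
    have h1 : (40 * l * l * M / l ^ cw + N ^ (1 - cA)) ^ 2 ≤
        2 * (40 * l * l * M / l ^ cw) ^ 2 + 2 * (N ^ (1 - cA)) ^ 2 := by
      nlinarith [sq_nonneg (40 * l * l * M / l ^ cw - N ^ (1 - cA))]
    have h2 : (40 * l * l * M / l ^ cw) ^ 2 = 1600 * M ^ 2 * (l ^ (4 : ℝ) * l ^ (-(2 * cw))) := by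
      rw [← hw2, show (4 : ℝ) = ((4 : ℕ) : ℝ) by norm_num, Real.rpow_natCast]
      ring
    have h3 : N ^ (-(2 * cA)) ≤ l ^ (-(2 * n + aU + A + 20)) := by
      refine le_trans ?_ hNc
      exact Real.rpow_le_rpow_of_exponent_le hN (by linarith)
    have h4 := rN cA hcA
    calc _ ≤ l ^ aU * (2 * (1600 * M ^ 2 * (l ^ (4 : ℝ) * l ^ (-(2 * cw)))) +
          2 * (l ^ (-(2 * n + aU + A + 20)) * M ^ 2)) := by
          have := pos aU
          refine mul_le_mul hUc ?_ (sq_nonneg _) this.le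
          refine h1.trans ?_
          rw [h2]
          have h5 : N ^ (-(2 * cA)) * M ^ 2 ≤ l ^ (-(2 * n + aU + A + 20)) * M ^ 2 := by gcongr
          linarith
      _ = _ := by
          rw [show aU + 4 - 2 * cw = aU + (4 + -(2 * cw)) by ring, ← add, ← add,
            show -(2 * n + A + 20) = aU + -(2 * n + aU + A + 20) by ring, ← add aU]
          ring
  have b2 : 32 * (Real.sqrt N * l ^ (-A₁)) ^ 2 * (200 * M2 ^ 2) ≤ M ^ 2 * (7 * l ^ (-(2 * A₁))) := by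
    rw [mul_pow, Real.sq_sqrt N0.le]
    have h1 : (l ^ (-A₁)) ^ 2 = l ^ (-(2 * A₁)) := by
      rw [sq, add]
      congr 1
      ring
    rw [h1]
    have h2 : 32 * (N * l ^ (-(2 * A₁))) * (200 * M2 ^ 2) =
      (6400 / 1024) * (1024 * (N * M2 ^ 2)) * l ^ (-(2 * A₁)) := by ring
    rw [h2, hM2]
    have h3 : 0 ≤ M ^ 2 * l ^ (-(2 * A₁)) := by have := pos (-(2 * A₁)); positivity
    nlinarith
  have b3 : Wc * (2 * (N ^ (1 - cS)) ^ 2) ≤ M ^ 2 * (2 * l ^ (-(2 * n + aU + A + 20))) := by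
    have h4 := rN cS hcS
    calc _ ≤ N ^ c * (2 * (N ^ (-(2 * cS)) * M ^ 2)) := by
          gcongr
      _ = 2 * M ^ 2 * N ^ (c - 2 * cS) := by
          rw [show c - 2 * cS = c + -(2 * cS) by ring, Real.rpow_add N0]
          ring
      _ ≤ 2 * M ^ 2 * N ^ (-c) := by
          gcongr
          linarith
      _ ≤ 2 * M ^ 2 * l ^ (-(2 * n + aU + A + 20)) := by gcongr
      _ = _ := by ring
  have hIJ2 : IJ ^ 2 ≤ l ^ (2 * n) := by
    calc IJ ^ 2 ≤ (l ^ n) ^ 2 := by gcongr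
      _ = l ^ (2 * n) := by rw [sq, add]; congr 1; ring
  set b := Uc * (40 * l * l * M / l ^ cw + N ^ (1 - cA)) ^ 2 +
    32 * (Real.sqrt N * l ^ (-A₁)) ^ 2 * (200 * M2 ^ 2) + Wc * (2 * (N ^ (1 - cS)) ^ 2) with hb
  have hbM : b ≤ M ^ 2 * (3200 * l ^ (aU + 4 - 2 * cw) + 2 * l ^ (-(2 * n + A + 20)) +
      7 * l ^ (-(2 * A₁)) + 2 * l ^ (-(2 * n + aU + A + 20))) := by
    rw [hb]
    linarith
  have hl3 : l * (9 * M * l) ^ 2 * eE ≤ M ^ 2 * (81 * l ^ (3 + (aU + 1 - aQ))) := by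
    have h1 : l ^ (3 : ℝ) = l ^ 3 := by
      rw [show (3 : ℝ) = ((3 : ℕ) : ℝ) by norm_num, Real.rpow_natCast]
    rw [← add, h1]
    calc _ = 81 * M ^ 2 * l ^ 3 * eE := by ring
      _ ≤ 81 * M ^ 2 * l ^ 3 * l ^ (aU + 1 - aQ) := by gcongr
      _ = _ := by ring
  have key : l * (9 * M * l) ^ 2 * eE + l ^ 2 * b ≤ M ^ 2 * (15000 * l ^ (-(2 * n + A + 14))) := by
    have h2 : l ^ (2 : ℝ) = l ^ 2 := by
      rw [show (2 : ℝ) = ((2 : ℕ) : ℝ) by norm_num, Real.rpow_natCast]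
    have h3 : l ^ 2 * b ≤ M ^ 2 * (3200 * l ^ (2 + (aU + 4 - 2 * cw)) +
        2 * l ^ (2 + -(2 * n + A + 20)) + 7 * l ^ (2 + -(2 * A₁)) +
        2 * l ^ (2 + -(2 * n + aU + A + 20))) := by
      rw [← add, ← add, ← add, ← add, h2]
      calc l ^ 2 * b ≤ l ^ 2 * (M ^ 2 * (3200 * l ^ (aU + 4 - 2 * cw) + 2 * l ^ (-(2 * n + A + 20)) +
            7 * l ^ (-(2 * A₁)) + 2 * l ^ (-(2 * n + aU + A + 20)))) := by gcongr
        _ = _ := by ring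
    have e1 : l ^ (3 + (aU + 1 - aQ)) ≤ l ^ (-(2 * n + A + 14)) := mono _ _ (by linarith)
    have e2 : l ^ (2 + (aU + 4 - 2 * cw)) ≤ l ^ (-(2 * n + A + 14)) := mono _ _ (by linarith)
    have e3 : l ^ (2 + -(2 * n + A + 20)) ≤ l ^ (-(2 * n + A + 14)) := mono _ _ (by linarith)
    have e4 : l ^ (2 + -(2 * A₁)) ≤ l ^ (-(2 * n + A + 14)) := mono _ _ (by linarith)
    have e5 : l ^ (2 + -(2 * n + aU + A + 20)) ≤ l ^ (-(2 * n + A + 14)) := mono _ _ (by linarith)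
    have e6 := pos (-(2 * n + A + 14))
    calc _ ≤ M ^ 2 * (81 * l ^ (3 + (aU + 1 - aQ))) + M ^ 2 * (3200 * l ^ (2 + (aU + 4 - 2 * cw)) +
        2 * l ^ (2 + -(2 * n + A + 20)) + 7 * l ^ (2 + -(2 * A₁)) +
        2 * l ^ (2 + -(2 * n + aU + A + 20))) := add_le_add hl3 h3
      _ = M ^ 2 * (81 * l ^ (3 + (aU + 1 - aQ)) + (3200 * l ^ (2 + (aU + 4 - 2 * cw)) +
        2 * l ^ (2 + -(2 * n + A + 20)) + 7 * l ^ (2 + -(2 * A₁)) +
        2 * l ^ (2 + -(2 * n + aU + A + 20)))) := by ring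
      _ ≤ _ := by
        gcongr
        linarith
  have hfin : IJ * (B / Y) * (IJ * (18 * l ^ cP) ^ 2 * (l * (9 * M * l) ^ 2 * eE + l ^ 2 * b)) ≤
      324 * 15000 * (B * Y) * (IJ ^ 2 * l ^ (-(2 * n + A + 14))) := by
    calc _ ≤ IJ * (B / Y) * (IJ * (18 * l ^ cP) ^ 2 * (M ^ 2 * (15000 * l ^ (-(2 * n + A + 14))))) := by
          gcongr
      _ = 324 * 15000 * (B / Y * (l ^ cP * M) ^ 2) * (IJ ^ 2 * l ^ (-(2 * n + A + 14))) := by ring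
      _ = _ := by
        rw [PM]
        have : B / Y * Y ^ 2 = B * Y := by field_simp
        rw [this]
  refine hfin.trans ?_
  have hlast : IJ ^ 2 * l ^ (-(2 * n + A + 14)) ≤ l ^ (-(A + 14)) := by
    calc _ ≤ l ^ (2 * n) * l ^ (-(2 * n + A + 14)) := by
          have := pos (-(2 * n + A + 14))
          gcongr
      _ = _ := by rw [add]; congr 1; ring
  calc _ ≤ 324 * 15000 * (B * Y) * l ^ (-(A + 14)) := by gcongr
    _ ≤ B * Y * (14348907 * l ^ (-(A + 14))) := by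
      have : 0 ≤ B * Y * l ^ (-(A + 14)) := by have := pos (-(A + 14)); positivity
      nlinarith
    _ ≤ B * Y * l ^ (-(A + 14) + 5) := by
      gcongr
      exact c5 _
    _ ≤ _ := by
      gcongr
      linarith

end FINM

end Pool.Agent.Lib.MP391708.XU
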