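import Pool.Agent.Lib.MP_391708_nt.X.U.FIN1

/-!
# THEOREM X (MP_391708), part U: more lemmas for FIN
-/

set_option autoImplicit false

namespace Pool.Agent.Lib.MP391708.XU

open Finset Filter Topology Pool.Agent.Lib.MP391708.MR
open Pool.Agent.Lib.MP391708.X (Par par ChiG hk Dist Fam rgh Ix psi ix1 UOK lc RR S4 S2 I4 I2 eta kap Eta Kap On Var)
open Pool.Agent.Lib.MP391708.XV (md chs ph hat atyp)
open scoped ComplexConjugate

namespace FINM

/-- the size conditions hold for large `N` -/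
lemma siz (cT cP ch cw : ℝ) (hch : 0 < ch) (hcw : 0 < cw) (hP : cw < cP) (hT : cP < cT) :
    ∀ᶠ N : ℝ in atTop, Siz (par N cT cP ch cw) := by
  filter_upwards [eventually_ge_atTop 100, ev_l 1, ev_ge 2 cw hcw, ev_ge 2 cP (hcw.trans hP),
    ev_pow 2 cw cP hP, ev_pow 64 cP cT hT, ev_N (1 / 2) (cw + 1) (by norm_num),
    ev_N (1 / 2) (2 * cT + 1) (by norm_num), ev_l 100] with N h1 h2 h3 h4 h5 h6 h7 h8 h9
  have l0 : 0 < Real.log N := by linarith
  have N0 : 0 < N := by linarith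
  have pos : ∀ e : ℝ, 0 < Real.log N ^ e := fun e => Real.rpow_pos_of_pos l0 e
  have sq1 : Real.sqrt N = N ^ (1 / 2 : ℝ) := Real.sqrt_eq_rpow N
  have inv : ∀ s : ℝ, N ^ (-(1 / 2) : ℝ) ≤ Real.log N ^ (-s) → Real.log N ^ s ≤ Real.sqrt N := by
    intro s hs
    rw [sq1]
    rw [Real.rpow_neg N0.le, Real.rpow_neg l0.le] at hs
    have h10 := Real.rpow_pos_of_pos N0 (1 / 2)
    exact (inv_le_inv₀ h10 (pos s)).1 hs
  refine ⟨h1, Real.one_le_rpow h2 hch.le, h3, h4, ?_, h6, ?_, ?_⟩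
  · show Real.log N ^ cw < Real.log N ^ cP
    have := pos cw
    linarith
  · show Real.log N ^ cw < Real.sqrt N
    refine lt_of_lt_of_le ?_ (inv _ h7)
    rw [Real.rpow_add l0, Real.rpow_one]
    have := pos cw
    nlinarith
  · show 100 * (Real.log N ^ cT) ^ 2 ≤ Real.sqrt N
    refine le_trans ?_ (inv _ h8)
    rw [Real.rpow_add l0, Real.rpow_one, show 2 * cT = cT + cT by ring, Real.rpow_add l0]
    have := pos cT
    nlinarith

/-- `#I #J` -/
lemma card_IJ (cT cP ch cw g0 : ℝ) (hg : 1 ≤ g0) (hch : g0 + 1 ≤ ch) (hcP : 1 ≤ cP) (hT : cP ≤ cT) :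
    ∀ᶠ N : ℝ in atTop, ((VV (Real.log N ^ g0) (Real.log N ^ cP) (2 * Real.log N ^ cP)).card : ℝ) *
      ((JJ (par N cT cP ch cw) ⌊Real.log N ^ ch / Real.log N ^ g0⌋₊).card : ℝ) ≤
      Real.log N ^ (3 * g0 + 4) := by
  have E := ev_N (1 / 2) (cP + 1) (by norm_num)
  filter_upwards [ev_l 100, E, eventually_ge_atTop 100] with N h1 h2 h3
  have l0 : 0 < Real.log N := by linarith
  have l1 : 1 ≤ Real.log N := by linarith
  have N0 : 0 < N := by linarith
  have pos : ∀ e : ℝ, 0 < Real.log N ^ e := fun e => Real.rpow_pos_of_pos l0 e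
  have one : ∀ e : ℝ, 0 ≤ e → 1 ≤ Real.log N ^ e := fun e he => Real.one_le_rpow l1 he
  set l := Real.log N with hl
  set m := ⌊l ^ ch / l ^ g0⌋₊ with hm
  set H := l ^ g0 with hH
  have hH1 : 1 ≤ H := one _ (by linarith)
  have hx : (1 : ℝ) ≤ l ^ ch / H := by
    rw [le_div_iff₀ (pos g0), one_mul]
    exact Real.rpow_le_rpow_of_exponent_le l1 (by linarith)
  have hm1 : 1 ≤ m := Nat.le_floor (by exact_mod_cast hx)
  have hm2 : l ^ ch / H < m + 1 := Nat.lt_floor_add_one _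
  have hm3 : l ^ ch ≤ 2 * H * m := by
    have h4 : (1 : ℝ) ≤ m := by exact_mod_cast hm1
    rw [div_lt_iff₀ (pos g0)] at hm2
    nlinarith
  have hI := card_VV (h := H) (P := l ^ cP) (by linarith) (one _ (by linarith))
  have hch1 : 1 ≤ l ^ ch := one _ (by linarith)
  have hdiv : (l ^ ch + 1) / m + 2 ≤ 6 * H := by
    have h4 : (1 : ℝ) ≤ m := by exact_mod_cast hm1
    have : (l ^ ch + 1) / m ≤ 4 * H := by
      rw [div_le_iff₀ (by linarith)]
      nlinarith
    linarith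
  have hM4 : 1 ≤ (par N cT cP ch cw).M4 := by
    show 1 ≤ Real.sqrt N
    rw [Real.le_sqrt (by norm_num) N0.le]
    linarith
  have hM2 : 1 ≤ (par N cT cP ch cw).M2 := by
    show 1 ≤ Real.sqrt N * l ^ cT / (16 * l ^ cP)
    have h5 : l ^ (cP + 1) ≤ Real.sqrt N := by
      rw [Real.sqrt_eq_rpow]
      rw [Real.rpow_neg N0.le, Real.rpow_neg l0.le] at h2
      exact (inv_le_inv₀ (Real.rpow_pos_of_pos N0 _) (pos _)).1 h2
    have h6 : 16 * l ^ cP ≤ l ^ (cP + 1) := by
      rw [Real.rpow_add l0, Real.rpow_one]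
      have := pos cP
      nlinarith
    have h7 : 1 ≤ l ^ cT := one _ (by linarith)
    rw [le_div_iff₀ (by have := pos cP; positivity), one_mul]
    have h8 : 0 ≤ Real.sqrt N := Real.sqrt_nonneg _
    nlinarith
  have hJ : ((JJ (par N cT cP ch cw) m).card : ℝ) ≤ (6 * H) * (6 * H) := by
    have h5 : (JJ (par N cT cP ch cw) m).card ≤
        ((I4 (par N cT cP ch cw)).image (fun v => v / m)).card *
          ((I2 (par N cT cP ch cw)).image (fun v => v / m)).card := by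
      unfold JJ
      refine Finset.card_image_le.trans ?_
      rw [Finset.card_product]
    have h6 : ((((I4 (par N cT cP ch cw)).image (fun v => v / m)).card : ℕ) : ℝ) ≤ 6 * H :=
      (card_div (h := l ^ ch) (P := (par N cT cP ch cw).M4) hch1 hM4 hm1).trans hdiv
    have h7 : ((((I2 (par N cT cP ch cw)).image (fun v => v / m)).card : ℕ) : ℝ) ≤ 6 * H :=
      (card_div (h := l ^ ch) (P := (par N cT cP ch cw).M2) hch1 hM2 hm1).trans hdiv
    calc ((JJ (par N cT cP ch cw) m).card : ℝ) ≤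
          (((I4 (par N cT cP ch cw)).image (fun v => v / m)).card : ℝ) *
            ((I2 (par N cT cP ch cw)).image (fun v => v / m)).card := by exact_mod_cast h5
      _ ≤ (6 * H) * (6 * H) := by gcongr
  have hH3 : l ^ (3 * g0 + 4) = H ^ 3 * l ^ 4 := by
    rw [Real.rpow_add l0, show (3 : ℝ) * g0 = g0 * (3 : ℕ) by push_cast; ring, Real.rpow_mul l0.le,
      Real.rpow_natCast, show (4 : ℝ) = ((4 : ℕ) : ℝ) by norm_num, Real.rpow_natCast]
  rw [hH3]
  calc _ ≤ (3 * H) * ((6 * H) * (6 * H)) := by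
        gcongr
        linarith
    _ = H ^ 3 * 108 := by ring
    _ ≤ H ^ 3 * l ^ 4 := by
        gcongr
        calc (108 : ℝ) ≤ 100 ^ 4 := by norm_num
          _ ≤ l ^ 4 := by gcongr

lemma logY (cT : ℝ) (hcT : 0 < cT) :
    ∀ᶠ N : ℝ in atTop, 1 + Real.log (2 * N * Real.log N ^ cT) ≤ 3 * Real.log N := by
  have h1 := (isLittleO_log_rpow_atTop (show (0 : ℝ) < 1 by norm_num)).bound
    (show (0 : ℝ) < 1 / (cT + 1) by
      have : 0 < cT + 1 := by linarith
      positivity)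
  have h2 := Real.tendsto_log_atTop.eventually h1
  filter_upwards [h2, ev_l 100, eventually_gt_atTop 0] with N h3 h4 h5
  have l0 : 0 < Real.log N := by linarith
  have h6 : 0 < cT + 1 := by linarith
  rw [Real.rpow_one, Real.norm_of_nonneg (Real.log_nonneg (by linarith)),
    Real.norm_of_nonneg l0.le, div_mul_eq_mul_div, one_mul, le_div_iff₀ h6] at h3
  rw [Real.log_mul (by positivity) (Real.rpow_pos_of_pos l0 _).ne',
    Real.log_mul (by norm_num) h5.ne', Real.log_rpow l0]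
  have h7 : Real.log 2 ≤ 1 := by
    have := Real.log_two_lt_d9
    linarith
  have h8 : 0 ≤ Real.log (Real.log N) := Real.log_nonneg (by linarith)
  nlinarith

lemma logT (cT : ℝ) (hcT : 0 < cT) :
    ∀ᶠ N : ℝ in atTop, (1 + 2 * Real.log (Real.log N ^ (cT + 1))) ^ 2 ≤ Real.log N ∧
      1 + Real.log (Real.log N ^ (cT + 1)) ≤ Real.log N := by
  have h1 := (isLittleO_log_rpow_atTop (show (0 : ℝ) < 1 / 2 by norm_num)).bound
    (show (0 : ℝ) < 1 / (4 * (cT + 1)) by
      have : 0 < cT + 1 := by linarith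
      positivity)
  have h2 := Real.tendsto_log_atTop.eventually h1
  filter_upwards [h2, ev_l 100] with N h3 h4
  have l0 : 0 < Real.log N := by linarith
  have h6 : 0 < 4 * (cT + 1) := by linarith
  rw [← Real.sqrt_eq_rpow, Real.norm_of_nonneg (Real.log_nonneg (by linarith)),
    Real.norm_of_nonneg (Real.sqrt_nonneg _), div_mul_eq_mul_div, one_mul, le_div_iff₀ h6] at h3
  rw [Real.log_rpow l0]
  set s := Real.sqrt (Real.log N) with hs
  have h7 : s ^ 2 = Real.log N := Real.sq_sqrt l0.le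
  have h8 : 10 ≤ s := by
    rw [hs]
    apply Real.le_sqrt_of_sq_le
    linarith
  have h9 : 0 ≤ Real.log (Real.log N) := Real.log_nonneg (by linarith)
  have h10 : 0 ≤ (cT + 1) * Real.log (Real.log N) := mul_nonneg (by linarith) h9
  have h11 : (cT + 1) * Real.log (Real.log N) ≤ s / 4 := by linarith
  have h12 : 1 + 2 * ((cT + 1) * Real.log (Real.log N)) ≤ s := by linarith
  constructor
  · calc (1 + 2 * ((cT + 1) * Real.log (Real.log N))) ^ 2 ≤ s ^ 2 :=
          pow_le_pow_left₀ (by linarith) h12 2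
      _ = Real.log N := h7
  · nlinarith

/-- the size of `M₂` -/
lemma sizM2 (cT cP ch cw : ℝ) (hcP : 0 < cP) (hcT : cP < cT) : ∀ᶠ N : ℝ in atTop,
    N ^ (1 / 4 : ℝ) ≤ (par N cT cP ch cw).M2 ∧ (par N cT cP ch cw).M2 ≤ N := by
  filter_upwards [ev_pow 16 cP cT hcT, ev_N (1 / 4) cT (by norm_num), eventually_ge_atTop 100,
    ev_l 100, ev_ge 1 cP hcP] with N h1 h2 h3 h4 h5
  have l0 : 0 < Real.log N := by linarith
  have N0 : 0 < N := by linarith
  have pos : ∀ e : ℝ, 0 < Real.log N ^ e := fun e => Real.rpow_pos_of_pos l0 e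
  have e1 : (par N cT cP ch cw).M2 = Real.sqrt N * Real.log N ^ cT / (16 * Real.log N ^ cP) := rfl
  rw [e1, Real.sqrt_eq_rpow]
  have h6 : N ^ (1 / 4 : ℝ) * N ^ (1 / 4 : ℝ) = N ^ (1 / 2 : ℝ) := by
    rw [← Real.rpow_add N0]; norm_num
  have h7 : 1 ≤ N ^ (1 / 4 : ℝ) := Real.one_le_rpow (by linarith) (by norm_num)
  have h8 : Real.log N ^ cT ≤ N ^ (1 / 4 : ℝ) := by
    rw [Real.rpow_neg N0.le, Real.rpow_neg l0.le] at h2
    exact (inv_le_inv₀ (Real.rpow_pos_of_pos N0 _) (pos _)).1 h2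
  have h9 : N ^ (1 / 2 : ℝ) * N ^ (1 / 4 : ℝ) ≤ N := by
    rw [← Real.rpow_add N0]
    calc N ^ ((1 / 2 : ℝ) + 1 / 4) ≤ N ^ (1 : ℝ) :=
          Real.rpow_le_rpow_of_exponent_le (by linarith) (by norm_num)
      _ = N := Real.rpow_one N
  have p1 := pos cP
  have p2 := pos cT
  constructor
  · rw [le_div_iff₀ (by positivity), ← h6]
    nlinarith [mul_nonneg (show 0 ≤ N ^ (1 / 4 : ℝ) by linarith) p2.le]
  · rw [div_le_iff₀ (by positivity)]
    have h10 : 0 < N ^ (1 / 2 : ℝ) := Real.rpow_pos_of_pos N0 _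
    calc N ^ (1 / 2 : ℝ) * Real.log N ^ cT ≤ N ^ (1 / 2 : ℝ) * N ^ (1 / 4 : ℝ) := by gcongr
      _ ≤ N := h9
      _ ≤ N * (16 * Real.log N ^ cP) := by nlinarith

end FINM

end Pool.Agent.Lib.MP391708.XU
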