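import Pool.Agent.Lib.MP_391708_nt.X.U.FIN2

/-!
# THEOREM X (MP_391708), part U: FIN, the variance of the model
-/

set_option autoImplicit false

namespace Pool.Agent.Lib.MP391708.XU

open Finset Filter Topology Pool.Agent.Lib.MP391708.MR
open Pool.Agent.Lib.MP391708.X (Par par ChiG hk Dist Fam rgh Ix psi ix1 UOK lc RR S4 S2 I4 I2 eta kap Eta Kap On Var)
open Pool.Agent.Lib.MP391708.XV (md chs ph hat atyp)
open scoped ComplexConjugate

namespace FINM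

/-- the sum over the atypical characters, in a context -/
lemma atypSum (hBRG : SpecBRG) (hHJS : SpecHJS) (hPHI : XV.SpecPHI)
    (A₁ aU aQ cw cS cA c ch cP cT N τ : ℝ) (T0 T1 Km m : ℕ) (U : Finset Ix)
    (E : (t : ℕ) → Finset (MulChar (Cls.RR (md t)) ℂ × ℤ)) (I : Finset ℕ) (Pc : ℕ → Finset Gi)
    (hl : 1000 ≤ Real.log N) (hN : 100 ≤ N) (hm1 : 1 ≤ m)
    (hsiz : Siz (par N cT cP ch cw))
    (hT0 : 1 ≤ T0) (hT1 : (T1 : ℝ) ≤ Real.log N ^ (cT + 1)) (hT1c : 1 ≤ T1) (hKm : 1 ≤ Km)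
    (hlogT : (1 + 2 * Real.log (Real.log N ^ (cT + 1))) ^ 2 ≤ Real.log N ∧
      1 + Real.log (Real.log N ^ (cT + 1)) ≤ Real.log N) (hcT : 0 < cT)
    (hU : ∀ i ∈ U, psi i ⟨0, 1⟩ = 1 ∧ ChiG (i.1 : Gi) i.2.1)
    (hPc : ∀ i ∈ I, Pc i ⊆ GP (Real.log N ^ cP) (2 * Real.log N ^ cP))
    (hsup : ∀ z, ∑ v4 ∈ I4 (par N cT cP ch cw), ∑ v2 ∈ I2 (par N cT cP ch cw),
      (‖eta (par N cT cP ch cw) v4 v2 z‖ + ‖kap (par N cT cP ch cw) U v4 v2 z‖) ≤ Real.log N)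
    (hE1 : ∑ t ∈ Icc 1 T1, ((E t).card : ℝ) / t ≤ Real.log N ^ (aU + 1 - aQ))
    (hE2 : ∀ t : ℕ, 1 ≤ t → t ≤ T1 → ∀ q : MulChar (Cls.RR (md t)) ℂ × ℤ, q.1 ∈ chs t →
      q.2 ∈ IK Km → psi (ixq t q) ⟨0, 1⟩ = 1 →
        q ∈ E t ∨ (∃ u ∈ U, q.2 = u.2.2 ∧ ∀ z, fn t q.1 z ≠ 0 → u.2.1 z = fn t q.1 z) ∨
          ((∀ u ∈ U, Dist (fn t q.1) u.2.1 q.2 u.2.2) ∧ ∀ a ∈ (I4 (par N cT cP ch cw)).image
            (fun v => v / m), ‖G4 (par N cT cP ch cw) m (ixq t q) a‖ ≤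
              Real.sqrt N * Real.log N ^ (-A₁)))
    (hS : ∀ (t j : ℕ) (q : MulChar (Cls.RR (md t)) ℂ × ℤ), 1 ≤ t → t ≤ T1 → q.2 ∈ IK Km →
      psi (ixq t q) ⟨0, 1⟩ = 1 → (∀ u ∈ U, Dist (fn t q.1) u.2.1 q.2 u.2.2) →
        ‖hat t q.1 q.2 (SJ (par N cT cP ch cw) m j) (HJ (par N cT cP ch cw) U m j)‖ ≤
          4 * ‖G4 (par N cT cP ch cw) m (ixq t q) (Nat.unpair j).1‖ *
            ‖G2 (par N cT cP ch cw) m (ixq t q) (Nat.unpair j).2‖ + N ^ (1 - cS))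
    (hHA : ∀ (t j : ℕ) (q : MulChar (Cls.RR (md t)) ℂ × ℤ), 1 ≤ t → t ≤ T1 →
      (∃ u ∈ U, q.2 = u.2.2 ∧ ∀ z, fn t q.1 z ≠ 0 → u.2.1 z = fn t q.1 z) →
        ‖hat t q.1 q.2 (SJ (par N cT cP ch cw) m j) (HJ (par N cT cP ch cw) U m j)‖ ≤
          40 * (1 + Real.log t) * Real.log N * MM' (par N cT cP ch cw) / (par N cT cP ch cw).w +
            N ^ (1 - cA))
    (hG2 : ∀ (t b : ℕ) (W : Finset (MulChar (Cls.RR (md t)) ℂ × ℤ)), 1 ≤ t → t ≤ T1 →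
      (∀ q ∈ W, q.2 ∈ IK Km) → (W.card : ℝ) ≤ N ^ c →
        ∑ q ∈ W, ‖∑ π ∈ GG (par N cT cP ch cw).h (par N cT cP ch cw).M2 m b,
          hk (fn t q.1) q.2 π‖ ^ 2 ≤ 200 * (par N cT cP ch cw).M2 ^ 2)
    (hat : ∀ (t i : ℕ), 2 ≤ t → t ≤ T1 → i ∈ I → ((atyp t Km τ (Pc i)).card : ℝ) ≤ N ^ c) :
    ∑ t ∈ Ioc T0 T1, ((t : ℝ) / ph t) * ∑ i ∈ I, ∑ j ∈ JJ (par N cT cP ch cw) m,
      ∑ q ∈ atyp t Km τ (Pc i), ‖XV.hat t q.1 q.2 (Pc i) (fun _ => 1)‖ ^ 2 *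
        ‖XV.hat t q.1 q.2 (SJ (par N cT cP ch cw) m j) (HJ (par N cT cP ch cw) U m j)‖ ^ 2 ≤
      ((I.card : ℝ) * (JJ (par N cT cP ch cw) m).card) * (18 * Real.log N ^ cP) ^ 2 *
        (Real.log N * (9 * (2 * N * Real.log N ^ cT / Real.log N ^ cP) * Real.log N) ^ 2 *
          Real.log N ^ (aU + 1 - aQ) +
        Real.log N ^ 2 * ((U.card : ℝ) * (40 * Real.log N * Real.log N *
          (2 * N * Real.log N ^ cT / Real.log N ^ cP) / Real.log N ^ cw + N ^ (1 - cA)) ^ 2 +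
          32 * (Real.sqrt N * Real.log N ^ (-A₁)) ^ 2 * (200 * (par N cT cP ch cw).M2 ^ 2) +
          N ^ c * (2 * (N ^ (1 - cS)) ^ 2))) := by
  have l0 : 0 < Real.log N := by linarith
  have l1 : 1 ≤ Real.log N := by linarith
  have N0 : 0 < N := by linarith
  have pos : ∀ e : ℝ, 0 < Real.log N ^ e := fun e => Real.rpow_pos_of_pos l0 e
  have logt : ∀ t : ℕ, 1 ≤ t → t ≤ T1 → Real.log t ≤ Real.log (Real.log N ^ (cT + 1)) := by
    intro t ht ht'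
    have h1 : (0 : ℝ) < t := by exact_mod_cast ht
    have h2 : (t : ℝ) ≤ T1 := by exact_mod_cast ht'
    exact Real.log_le_log h1 (h2.trans hT1)
  have logt0 : ∀ t : ℕ, 0 ≤ Real.log t := fun t => Real.log_natCast_nonneg t
  have hMM : MM' (par N cT cP ch cw) = 2 * N * Real.log N ^ cT / Real.log N ^ cP := rfl
  have hww : (par N cT cP ch cw).w = Real.log N ^ cw := rfl
  have hM0 : 0 < 2 * N * Real.log N ^ cT / Real.log N ^ cP := by
    have := pos cT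
    have := pos cP
    positivity
  refine sumt T0 T1 Km τ I (JJ (par N cT cP ch cw) m) Pc (SJ (par N cT cP ch cw) m)
    (HJ (par N cT cP ch cw) U m) (fun t => ((E t).card : ℝ)) (fun t => Nat.cast_nonneg _)
    (18 * Real.log N ^ cP) _ _ (Real.log N) (Real.log N ^ (aU + 1 - aQ)) (by positivity) ?_ l0.le
    (by have := pos cP; positivity) ?_ ?_ ?_ hE1 ?_
  · have := pos (-A₁)
    positivity
  · intro t ht i hi q
    have h1 : Pc i ⊆ disc (2 * Real.log N ^ cP) :=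
      (hPc i hi).trans (Finset.filter_subset _ _)
    have h2 := hat_triv hBRG ht q (Pc i) (fun _ => 1) (2 * Real.log N ^ cP) 1 h1
      (by have := pos cP; positivity) (by norm_num) (fun z _ => by simp)
    refine h2.trans (le_of_eq ?_)
    ring
  · intro t ht ht' i hi j hj
    have ht1 : 1 ≤ t := by omega
    have hW := hat t i (by omega) ht' hi
    have hWm : ∀ q ∈ atyp t Km τ (Pc i), q.1 ∈ chs t ∧ q.2 ∈ IK Km := by
      intro q hq
      unfold XV.atyp at hq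
      exact mem_product.1 (mem_filter.1 hq).1
    have key := sumq hBRG hHJS hsiz hm1 hU (Real.log N) l0.le hsup ht1 j hj
      (atyp t Km τ (Pc i)) (E t) Km hWm (Real.sqrt N * Real.log N ^ (-A₁))
      (40 * Real.log N * Real.log N * (2 * N * Real.log N ^ cT / Real.log N ^ cP) /
        Real.log N ^ cw + N ^ (1 - cA)) (N ^ (1 - cS)) (200 * (par N cT cP ch cw).M2 ^ 2)
      (by have := pos (-A₁); positivity)
      (by have := pos cw; positivity)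
      (fun q hq1 hq2 hq3 => hE2 t ht1 ht' q hq1 hq2 hq3)
      (fun q _ hq => by
        refine (hHA t j q ht1 ht' hq).trans ?_
        rw [hMM, hww]
        have h3 : 1 + Real.log t ≤ Real.log N := by
          have := logt t ht1 ht'
          linarith [hlogT.2]
        have h4 := logt0 t
        have h5 := pos cw
        gcongr)
      (fun q hq h1 h2 => hS t j q ht1 ht' (hWm q hq).2 h1 h2)
      (hG2 t _ _ ht1 ht' (fun q hq => (hWm q hq).2) hW)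
    rw [hMM] at key
    refine key.trans ?_
    have h6 : ((atyp t Km τ (Pc i)).card : ℝ) * (2 * (N ^ (1 - cS)) ^ 2) ≤
      N ^ c * (2 * (N ^ (1 - cS)) ^ 2) := by gcongr
    linarith
  · intro t ht ht'
    have ht1 : 1 ≤ t := by omega
    have h1 := (hPHI t ht1).2.1
    have t0 : (0 : ℝ) < t := by exact_mod_cast ht1
    have h2 : (0 : ℝ) < 1 + 2 * Real.log t := by
      have := logt0 t
      linarith
    have h3 : (1 + 2 * Real.log t) ^ 2 ≤ Real.log N := by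
      refine le_trans ?_ hlogT.1
      have := logt t ht1 ht'
      gcongr
    have h4 : (0 : ℝ) < ph t := lt_of_lt_of_le (by positivity) h1
    rw [div_le_div_iff₀ h4 t0]
    rw [div_le_iff₀ (by positivity)] at h1
    calc (t : ℝ) * t = (t : ℝ) ^ 2 := by ring
      _ ≤ ph t * (1 + 2 * Real.log t) ^ 2 := h1
      _ ≤ ph t * Real.log N := by gcongr
      _ = Real.log N * ph t := by ring
  · refine (sum_inv T1 hT1c).trans ?_
    have := logt T1 hT1c le_rfl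
    linarith [hlogT.2]

end FINM

end Pool.Agent.Lib.MP391708.XU
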