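import Pool.Agent.Lib.MP_391708_nt.X.U.Spec

/-!
# THEOREM X (MP_391708), part U, module HJS: the cells
-/

set_option autoImplicit false

namespace Pool.Agent.Lib.MP391708.XU

open Finset Filter Topology Pool.Agent.Lib.MP391708.MR
open Pool.Agent.Lib.MP391708.X (Par par ChiG hk Dist rgh Ix psi ix1 UOK lc RR S4 S2 I4 I2 eta kap Eta Kap)
open Pool.Agent.Lib.MP391708.XV (md chs ph hat atyp)
open scoped ComplexConjugate

namespace HJSM

theorem nm_ass {x y : Gi} (h : Associated x y) : nm x = nm y := by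
  obtain ⟨u, rfl⟩ := h
  rw [nm_mul, isUnit_iff_nm.1 u.isUnit, mul_one]

theorem mem_cell {h P Q : ℝ} {v : ℕ} {z : Gi} :
    z ∈ cell h P Q v ↔ z ∈ GP P Q ∧ ⌊h * Real.log (nm z)⌋₊ = v := by
  unfold cell
  rw [mem_filter]

theorem M4_ge {p : Par} (S : Siz p) : 10 ≤ p.M4 := by
  have h1 : Real.sqrt (10 ^ 2) ≤ Real.sqrt p.N := Real.sqrt_le_sqrt (by have := S.N; linarith)
  rwa [Real.sqrt_sq (by norm_num)] at h1

theorem M2_ge {p : Par} (S : Siz p) : 4 * Real.sqrt p.N ≤ p.M2 := by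
  have hP : 0 < p.P := by linarith [S.P]
  have h1 := mul_le_mul_of_nonneg_left S.T (Real.sqrt_nonneg p.N)
  unfold Par.M2
  rw [le_div_iff₀ (by positivity)]
  linarith

theorem M2_ge' {p : Par} (S : Siz p) : 40 ≤ p.M2 := by
  have h1 := M2_ge S
  have h2 : 10 ≤ Real.sqrt p.N := M4_ge S
  linarith

/-- `MM' = 32 M₄ M₂`. -/
theorem MM_eq {p : Par} (S : Siz p) : MM' p = 32 * (p.M4 * p.M2) := by
  have hP : 0 < p.P := by linarith [S.P]
  have hN : 0 ≤ p.N := by linarith [S.N]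
  unfold MM' Par.M4 Par.M2
  have h1 := Real.mul_self_sqrt hN
  have h2 : Real.sqrt p.N * (Real.sqrt p.N * p.T / (16 * p.P)) =
      (Real.sqrt p.N * Real.sqrt p.N) * p.T / (16 * p.P) := by ring
  rw [h2, h1]
  field_simp
  ring

theorem w_lt_M4 {p : Par} (S : Siz p) : p.w < p.M4 := S.wN

theorem w_lt_M2 {p : Par} (S : Siz p) : p.w < p.M2 := by
  have h1 := M2_ge S
  have h2 := S.wN
  have h3 := Real.sqrt_nonneg p.N
  linarith

/-! ### Sums over the pairs of groups -/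

theorem sum_JJ {E : Type} [AddCommMonoid E] (p : Par) (m : ℕ) (f : ℕ → ℕ → E) :
    ∑ j ∈ JJ p m, ∑ v4 ∈ (I4 p).filter (fun v => v / m = (Nat.unpair j).1),
      ∑ v2 ∈ (I2 p).filter (fun v => v / m = (Nat.unpair j).2), f v4 v2 =
    ∑ v4 ∈ I4 p, ∑ v2 ∈ I2 p, f v4 v2 := by
  unfold JJ
  rw [sum_image]
  · simp only [Nat.unpair_pair]
    rw [sum_product]
    have h1 : ∀ a ∈ (I4 p).image (fun v => v / m), ∑ b ∈ (I2 p).image (fun v => v / m),
        ∑ v4 ∈ (I4 p).filter (fun v => v / m = a),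
          ∑ v2 ∈ (I2 p).filter (fun v => v / m = b), f v4 v2 =
        ∑ v4 ∈ (I4 p).filter (fun v => v / m = a), ∑ v2 ∈ I2 p, f v4 v2 := by
      intro a _
      rw [sum_comm]
      refine sum_congr rfl fun v4 _ => ?_
      exact sum_fiberwise_of_maps_to (fun v hv => mem_image_of_mem _ hv) _
    rw [sum_congr rfl h1]
    exact sum_fiberwise_of_maps_to (fun v hv => mem_image_of_mem _ hv) _
  · rintro ⟨a, b⟩ _ ⟨a', b'⟩ _ h
    have := Nat.pair_eq_pair.1 h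
    exact Prod.ext this.1 this.2

/-! ### Supports -/

theorem log_nm_nonneg (z : Gi) : 0 ≤ Real.log (nm z) := Real.log_natCast_nonneg _

/-- what a nonzero value of `eta` gives -/
theorem eta_ne {p : Par} (S : Siz p) {v4 v2 : ℕ} {z : Gi} (h : eta p v4 v2 z ≠ 0) :
    z ∈ disc (MM' p) ∧ rgh p.w z ∧ v4 + v2 ≤ ⌊p.h * Real.log (nm z)⌋₊ ∧
      ⌊p.h * Real.log (nm z)⌋₊ + 1 ≤ v4 + v2 + 2 := by
  classical
  unfold X.eta at h
  have h1 : ((cell p.h p.M4 (2 * p.M4) v4 ×ˢ cell p.h p.M2 (2 * p.M2) v2).filter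
      (fun q => Associated (q.1 * q.2) z)).card ≠ 0 := by
    intro h0
    apply h
    rw [Nat.cast_eq_zero]
    convert h0
  obtain ⟨⟨q, r⟩, hq⟩ := card_ne_zero.1 h1
  rw [mem_filter, mem_product] at hq
  obtain ⟨⟨hq1, hr1⟩, ha⟩ := hq
  simp only at hq1 hr1 ha
  rw [mem_cell] at hq1 hr1
  obtain ⟨hq1, hq2⟩ := hq1
  obtain ⟨hr1, hr2⟩ := hr1
  have hqG := mem_GP.1 hq1
  have hrG := mem_GP.1 hr1
  have hnm : nm z = nm q * nm r := by rw [← nm_ass ha, nm_mul]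
  have hq0 : q ≠ 0 := GP_ne_zero hq1
  have hr0 : r ≠ 0 := GP_ne_zero hr1
  have hz0 : z ≠ 0 := by
    rintro rfl
    have := (Associated.eq_zero_iff ha).2 rfl
    rcases mul_eq_zero.1 this with h2 | h2
    · exact hq0 h2
    · exact hr0 h2
  have hh : 0 ≤ p.h := by linarith [S.h]
  have hlog : p.h * Real.log (nm z) = p.h * Real.log (nm q) + p.h * Real.log (nm r) := by
    rw [hnm, Nat.cast_mul, Real.log_mul (ne_of_gt (nm_posR hq0)) (ne_of_gt (nm_posR hr0))]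
    ring
  have hx : 0 ≤ p.h * Real.log (nm q) := mul_nonneg hh (log_nm_nonneg q)
  have hy : 0 ≤ p.h * Real.log (nm r) := mul_nonneg hh (log_nm_nonneg r)
  refine ⟨mem_disc.2 ⟨hz0, ?_⟩, ?_, ?_, ?_⟩
  · rw [hnm, Nat.cast_mul, MM_eq S]
    have h4 := M4_ge S
    have h2 := M2_ge' S
    calc (nm q : ℝ) * nm r ≤ (2 * p.M4) * (2 * p.M2) := by
          apply mul_le_mul hqG.2.2.2.2.2 hrG.2.2.2.2.2 (Nat.cast_nonneg _) (by linarith)
      _ ≤ 32 * (p.M4 * p.M2) := by nlinarith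
  · intro π hπ hd
    have h2 : π ∣ q * r := (Associated.dvd_iff_dvd_right ha).2 hd
    rcases hπ.dvd_or_dvd h2 with h3 | h3
    · have h4 : Associated π q := hπ.associated_of_dvd (GP_prime hq1) h3
      rw [nm_ass h4]
      exact (w_lt_M4 S).trans hqG.2.2.2.2.1
    · have h4 : Associated π r := hπ.associated_of_dvd (GP_prime hr1) h3
      rw [nm_ass h4]
      exact (w_lt_M2 S).trans hrG.2.2.2.2.1
  · rw [hlog]
    apply Nat.le_floor
    rw [Nat.cast_add, ← hq2, ← hr2]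
    exact add_le_add (Nat.floor_le hx) (Nat.floor_le hy)
  · have h2 : ⌊p.h * Real.log (nm z)⌋₊ < v4 + v2 + 2 := by
      rw [hlog, Nat.floor_lt (add_nonneg hx hy)]
      have h3 := Nat.lt_floor_add_one (p.h * Real.log (nm q))
      have h4 := Nat.lt_floor_add_one (p.h * Real.log (nm r))
      rw [hq2] at h3
      rw [hr2] at h4
      push_cast
      linarith
    omega

/-- the upper end of a cell in the range -/
theorem le_of_VV {h M : ℝ} {v : ℕ} (hh : 1 ≤ h) (hM : 1 ≤ M) (hv : v ∈ VV h M (2 * M)) :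
    (v : ℝ) ≤ h * Real.log (2 * M) := by
  unfold VV at hv
  have h1 := (mem_Icc.1 hv).2
  have h2 : 0 ≤ h * Real.log (2 * M) :=
    mul_nonneg (by linarith) (Real.log_nonneg (by linarith))
  exact (Nat.cast_le.2 h1).trans (Nat.floor_le h2)

theorem kap_ne {p : Par} (S : Siz p) {U : Finset Ix} {v4 v2 : ℕ} (h4 : v4 ∈ I4 p) (h2 : v2 ∈ I2 p)
    {z : Gi} (h : kap p U v4 v2 z ≠ 0) :
    z ∈ disc (MM' p) ∧ rgh p.w z ∧ ⌊p.h * Real.log (nm z)⌋₊ = v4 + v2 := by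
  classical
  unfold X.kap at h
  have h1 : z ∈ lc p.h (v4 + v2) ∧ rgh p.w z := by
    by_contra h0
    exact h (if_neg h0)
  obtain ⟨hl, hr⟩ := h1
  unfold X.lc at hl
  rw [mem_filter, mem_disc] at hl
  obtain ⟨⟨hz0, hz1⟩, hz2⟩ := hl
  refine ⟨mem_disc.2 ⟨hz0, hz1.trans ?_⟩, hr, hz2⟩
  have hM4 := M4_ge S
  have hM2 := M2_ge' S
  have hh := S.h
  have e4 := le_of_VV hh (by linarith) h4
  have e2 := le_of_VV hh (by linarith) h2
  have e3 : ((((v4 + v2 : ℕ) : ℝ) + 1) / p.h) ≤ Real.log (4 * (p.M4 * p.M2)) + 1 := by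
    rw [div_le_iff₀ (by linarith)]
    have e5 : Real.log (4 * (p.M4 * p.M2)) = Real.log (2 * p.M4) + Real.log (2 * p.M2) := by
      rw [← Real.log_mul (by positivity) (by positivity)]
      congr 1
      ring
    rw [e5]
    push_cast
    nlinarith
  rw [MM_eq S]
  calc Real.exp ((((v4 + v2 : ℕ) : ℝ) + 1) / p.h)
      ≤ Real.exp (Real.log (4 * (p.M4 * p.M2)) + 1) := Real.exp_le_exp.2 e3
    _ = 4 * (p.M4 * p.M2) * Real.exp 1 := by
        rw [Real.exp_add, Real.exp_log (by positivity)]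
    _ ≤ 4 * (p.M4 * p.M2) * 3 := by
        apply mul_le_mul_of_nonneg_left _ (by positivity)
        linarith [Real.exp_one_lt_d9]
    _ ≤ 32 * (p.M4 * p.M2) := by nlinarith [mul_pos (by linarith : 0 < p.M4) (by linarith : 0 < p.M2)]

theorem div_bounds {m v a : ℕ} (hm : 1 ≤ m) (h : v / m = a) : m * a ≤ v ∧ v + 1 ≤ m * a + m := by
  have h1 := Nat.div_add_mod v m
  have h2 := Nat.mod_lt v (show 0 < m by omega)
  rw [h] at h1
  constructor <;> omega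

theorem supp {p : Par} (S : Siz p) {U : Finset Ix} {m : ℕ} (hm : 1 ≤ m) (j : ℕ) (z : Gi)
    (h : HJ p U m j z ≠ 0) : z ∈ SJ p m j := by
  classical
  unfold HJ at h
  obtain ⟨v4, hv4, h1⟩ := exists_ne_zero_of_sum_ne_zero h
  obtain ⟨v2, hv2, h2⟩ := exists_ne_zero_of_sum_ne_zero h1
  rw [mem_filter] at hv4 hv2
  have b4 := div_bounds hm hv4.2
  have b2 := div_bounds hm hv2.2
  have key : z ∈ disc (MM' p) ∧ rgh p.w z ∧ v4 + v2 ≤ ⌊p.h * Real.log (nm z)⌋₊ ∧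
      ⌊p.h * Real.log (nm z)⌋₊ + 1 ≤ v4 + v2 + 2 := by
    by_cases h3 : eta p v4 v2 z = 0
    · have h4 : kap p U v4 v2 z ≠ 0 := by
        intro h0
        apply h2
        rw [h3, h0, sub_zero]
      obtain ⟨h5, h6, h7⟩ := kap_ne S hv4.1 hv2.1 h4
      exact ⟨h5, h6, by omega, by omega⟩
    · exact eta_ne S h3
  obtain ⟨k1, k2, k3, k4⟩ := key
  unfold SJ
  have e : m * ((Nat.unpair j).1 + (Nat.unpair j).2) =
    m * (Nat.unpair j).1 + m * (Nat.unpair j).2 := Nat.mul_add _ _ _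
  rw [mem_filter]
  refine ⟨k1, k2, ?_, ?_⟩
  · rw [e]
    omega
  · rw [e]
    omega

/-! ### Invariance under `i` -/

theorem isUnit_I : IsUnit (⟨0, 1⟩ : Gi) := isUnit_iff_nm.2 nm_I

theorem nm_I_mul (z : Gi) : nm (⟨0, 1⟩ * z) = nm z := by rw [nm_mul, nm_I, one_mul]

theorem I_mul_ne {z : Gi} : (⟨0, 1⟩ : Gi) * z ≠ 0 ↔ z ≠ 0 := by
  rw [ne_eq, isUnit_I.mul_right_eq_zero]

theorem ass_I (z : Gi) : Associated z (⟨0, 1⟩ * z) := by
  obtain ⟨u, hu⟩ := isUnit_I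
  exact ⟨u, by rw [hu, mul_comm]⟩

theorem eta_I (p : Par) (v4 v2 : ℕ) (z : Gi) : eta p v4 v2 (⟨0, 1⟩ * z) = eta p v4 v2 z := by
  classical
  unfold X.eta
  congr 2
  apply filter_congr
  intro q _
  exact ⟨fun h => h.trans (ass_I z).symm, fun h => h.trans (ass_I z)⟩

theorem lc_I {h : ℝ} {v : ℕ} {z : Gi} : (⟨0, 1⟩ : Gi) * z ∈ lc h v ↔ z ∈ lc h v := by
  unfold X.lc
  rw [mem_filter, mem_filter, mem_disc, mem_disc, nm_I_mul, I_mul_ne]

theorem rgh_I {w : ℝ} {z : Gi} : rgh w (⟨0, 1⟩ * z) ↔ rgh w z :=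
  ⟨fun h π hπ hd => h π hπ ((Associated.dvd_iff_dvd_right (ass_I z)).1 hd),
    fun h π hπ hd => h π hπ ((Associated.dvd_iff_dvd_right (ass_I z)).2 hd)⟩

theorem psi_I {i : Ix} (h : psi i ⟨0, 1⟩ = 1) (hc : ChiG (i.1 : Gi) i.2.1) (z : Gi) :
    psi i (⟨0, 1⟩ * z) = psi i z := by
  have h1 : psi i (⟨0, 1⟩ * z) = psi i ⟨0, 1⟩ * psi i z := by
    unfold X.psi X.hk
    rw [hc.mul, xi_mul]
    ring
  rw [h1, h, one_mul]

theorem kap_I (p : Par) (U : Finset Ix) (v4 v2 : ℕ)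
    (hU : ∀ i ∈ U, psi i ⟨0, 1⟩ = 1 ∧ ChiG (i.1 : Gi) i.2.1) (z : Gi) :
    kap p U v4 v2 (⟨0, 1⟩ * z) = kap p U v4 v2 z := by
  classical
  unfold X.kap
  by_cases h : z ∈ lc p.h (v4 + v2) ∧ rgh p.w z
  · rw [if_pos h, if_pos ⟨lc_I.2 h.1, rgh_I.2 h.2⟩]
    refine sum_congr rfl fun i hi => ?_
    rw [psi_I (hU i hi).1 (hU i hi).2]
  · rw [if_neg h, if_neg]
    rintro ⟨h1, h2⟩
    exact h ⟨lc_I.1 h1, rgh_I.1 h2⟩

end HJSM

open HJSM in
/-- **HJS**: the cells. -/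
theorem specHJS : SpecHJS := by
  intro p U m S hm
  refine ⟨fun j z h => supp S hm j z h, fun z => ?_, fun z => ?_, fun hU j z => ?_⟩
  · unfold HJ
    rw [sum_JJ p m (fun v4 v2 => eta p v4 v2 z - kap p U v4 v2 z)]
    unfold X.Eta X.Kap
    simp only [sum_sub_distrib]
  · rw [← sum_JJ p m (fun v4 v2 => ‖eta p v4 v2 z‖ + ‖kap p U v4 v2 z‖)]
    refine sum_le_sum fun j _ => ?_
    unfold HJ
    refine (norm_sum_le _ _).trans (sum_le_sum fun v4 _ => ?_)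
    exact (norm_sum_le _ _).trans (sum_le_sum fun v2 _ => norm_sub_le _ _)
  · unfold HJ
    refine sum_congr rfl fun v4 _ => sum_congr rfl fun v2 _ => ?_
    rw [eta_I, kap_I p U v4 v2 hU]

end Pool.Agent.Lib.MP391708.XU
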