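import Pool.Agent.Lib.MP_391708_nt.X.U.Spec
import Pool.Agent.Lib.MP_391708_nt.X.MT.RRA
import Pool.Agent.Lib.MP_391708_nt.X.PSI
import Pool.Agent.Lib.MP_391708_nt.X.HM

/-!
# THEOREM X (MP_391708), part U, module HTS: the sum of `HJ` against a character different from all of `U` (helper24)
-/

set_option autoImplicit false

namespace Pool.Agent.Lib.MP391708.XU

open Finset Filter Topology Pool.Agent.Lib.MP391708.MR
open Pool.Agent.Lib.MP391708.X (Par par ChiG hk Dist Fam rgh Ix psi ix1 UOK lc RR S4 S2 I4 I2 eta kap Eta Kap On Var VP)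
open Pool.Agent.Lib.MP391708.XV (md chs ph hat atyp)
open scoped ComplexConjugate

namespace HTSM

lemma exp_one_le : Real.exp 1 ≤ 3 := by
  have := Real.exp_one_lt_d9
  linarith

/-- the range of `v` -/
lemma VV_mem {h M : ℝ} (hh : 1 ≤ h) (hM : 1 ≤ M) {v : ℕ} (hv : v ∈ VV h M (2 * M)) :
    M / 3 ≤ Real.exp (v / h) ∧ Real.exp (v / h) ≤ 2 * M := by
  unfold VV at hv
  rw [mem_Icc] at hv
  have hh0 : 0 < h := by linarith
  have hM0 : 0 < M := by linarith
  constructor
  · have h1 : h * Real.log M < ⌊h * Real.log M⌋₊ + 1 := Nat.lt_floor_add_one _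
    have h2 : (⌊h * Real.log M⌋₊ : ℝ) ≤ v := by exact_mod_cast hv.1
    have h3 : Real.log M - 1 ≤ v / h := by
      rw [le_div_iff₀ hh0]
      nlinarith
    calc M / 3 ≤ M / Real.exp 1 := div_le_div_of_nonneg_left hM0.le (Real.exp_pos _) exp_one_le
      _ = Real.exp (Real.log M - 1) := by rw [Real.exp_sub, Real.exp_log hM0]
      _ ≤ Real.exp (v / h) := Real.exp_le_exp.2 h3
  · have h1 : (v : ℝ) ≤ h * Real.log (2 * M) := by
      have h2 : (v : ℝ) ≤ ⌊h * Real.log (2 * M)⌋₊ := by exact_mod_cast hv.2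
      have h3 : 0 ≤ h * Real.log (2 * M) := mul_nonneg hh0.le (Real.log_nonneg (by linarith))
      exact h2.trans (Nat.floor_le h3)
    have h4 : v / h ≤ Real.log (2 * M) := by
      rw [div_le_iff₀ hh0]
      linarith
    calc Real.exp (v / h) ≤ Real.exp (Real.log (2 * M)) := Real.exp_le_exp.2 h4
      _ = 2 * M := Real.exp_log (by linarith)

lemma VV_card {h M : ℝ} (hh : 1 ≤ h) (hM : 1 ≤ M) : ((VV h M (2 * M)).card : ℝ) ≤ 3 * h := by
  unfold VV
  rw [Nat.card_Icc]
  have hM0 : 0 < M := by linarith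
  have h1 : h * Real.log M < ⌊h * Real.log M⌋₊ + 1 := Nat.lt_floor_add_one _
  have h3 : 0 ≤ h * Real.log (2 * M) :=
    mul_nonneg (by linarith) (Real.log_nonneg (by linarith))
  have h2 : (⌊h * Real.log (2 * M)⌋₊ : ℝ) ≤ h * Real.log (2 * M) := Nat.floor_le h3
  have h4 : Real.log (2 * M) = Real.log 2 + Real.log M := Real.log_mul (by norm_num) hM0.ne'
  have h5 : Real.log 2 ≤ 1 := by linarith [Real.log_two_lt_d9]
  have h6 : ((⌊h * Real.log (2 * M)⌋₊ + 1 - ⌊h * Real.log M⌋₊ : ℕ) : ℝ) ≤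
      (⌊h * Real.log (2 * M)⌋₊ : ℝ) + 1 - ⌊h * Real.log M⌋₊ := by
    rcases le_total ⌊h * Real.log M⌋₊ (⌊h * Real.log (2 * M)⌋₊ + 1) with h7 | h7
    · rw [Nat.cast_sub h7]
      push_cast
      exact le_refl _
    · exfalso
      have h8 : h * Real.log M ≤ h * Real.log (2 * M) := by
        rw [h4]
        have : 0 ≤ Real.log 2 := Real.log_nonneg (by norm_num)
        nlinarith
      have h9 := Nat.floor_le_floor h8
      omega
  refine h6.trans ?_
  have h10 : h * Real.log (2 * M) = h * Real.log 2 + h * Real.log M := by rw [h4]; ring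
  have h11 : h * Real.log 2 ≤ h := by nlinarith
  linarith

lemma GP_card {M : ℝ} (hM : 0 ≤ M) : ((GP M (2 * M)).card : ℝ) ≤ 18 * M := by
  have h1 : ((GP M (2 * M)).card : ℝ) ≤ ((disc (2 * M)).card : ℝ) := by
    exact_mod_cast card_le_card (filter_subset _ _)
  have h2 := card_disc_le (x := 2 * M) (by linarith)
  linarith

lemma cell_sum {m : Gi} {i : Ix} (hχ : ChiG m i.2.1) {h M : ℝ} (hM : 0 ≤ M) (v : ℕ) :
    ‖∑ π ∈ cell h M (2 * M) v, psi i π‖ ≤ 18 * M := by
  calc ‖∑ π ∈ cell h M (2 * M) v, psi i π‖ ≤ ∑ π ∈ cell h M (2 * M) v, (1 : ℝ) :=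
        norm_sum_le_of_le _ fun π _ => X.PSIM.norm_psi_le hχ π
    _ = ((cell h M (2 * M) v).card : ℝ) := by simp
    _ ≤ ((GP M (2 * M)).card : ℝ) := by exact_mod_cast card_le_card (filter_subset _ _)
    _ ≤ 18 * M := GP_card hM

/-- sizes -/
structure Sz (p : Par) : Prop where
  s : Siz p
  m4 : 1 ≤ p.M4
  m2 : 1 ≤ p.M2
  mm : p.M4 * p.M2 = p.N * p.T / (16 * p.P)

lemma sz {p : Par} (hp : Siz p) : Sz p := by
  have hN := hp.N
  have hP := hp.P
  have hT := hp.T
  have hs : 10 ≤ Real.sqrt p.N := by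
    have : Real.sqrt 100 = 10 := by
      rw [show (100 : ℝ) = 10 ^ 2 by norm_num]
      exact Real.sqrt_sq (by norm_num)
    rw [← this]
    exact Real.sqrt_le_sqrt hN
  refine ⟨hp, ?_, ?_, ?_⟩
  · unfold Par.M4
    linarith
  · unfold Par.M2
    rw [le_div_iff₀ (by linarith)]
    nlinarith
  · unfold Par.M4 Par.M2
    rw [← mul_div_assoc, ← mul_assoc, Real.mul_self_sqrt (by linarith)]

/-- the radial cells -/
lemma geom {p : Par} (hp : Sz p) {v4 v2 : ℕ} (h4 : v4 ∈ I4 p) (h2 : v2 ∈ I2 p) :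
    p.M4 * p.M2 / 9 ≤ Real.exp (((v4 + v2 : ℕ) : ℝ) / p.h) ∧
    Real.exp ((((v4 + v2 : ℕ) : ℝ) + 1) / p.h) ≤ 12 * (p.M4 * p.M2) := by
  obtain ⟨a1, a2⟩ := VV_mem hp.s.h hp.m4 h4
  obtain ⟨b1, b2⟩ := VV_mem hp.s.h hp.m2 h2
  have hm4 := hp.m4
  have hm2 := hp.m2
  have hh := hp.s.h
  have e1 : Real.exp (((v4 + v2 : ℕ) : ℝ) / p.h) = Real.exp (v4 / p.h) * Real.exp (v2 / p.h) := by
    rw [← Real.exp_add]
    congr 1
    push_cast
    ring
  have e2 : Real.exp ((((v4 + v2 : ℕ) : ℝ) + 1) / p.h) =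
      Real.exp (v4 / p.h) * Real.exp (v2 / p.h) * Real.exp (1 / p.h) := by
    rw [← Real.exp_add, ← Real.exp_add]
    congr 1
    push_cast
    ring
  have e3 : Real.exp (1 / p.h) ≤ 3 := by
    refine le_trans (Real.exp_le_exp.2 ?_) exp_one_le
    rw [div_le_one (by linarith)]
    exact hh
  constructor
  · rw [e1]
    calc p.M4 * p.M2 / 9 = (p.M4 / 3) * (p.M2 / 3) := by ring
      _ ≤ _ := mul_le_mul a1 b1 (by positivity) (Real.exp_pos _).le
  · rw [e2]
    calc Real.exp (v4 / p.h) * Real.exp (v2 / p.h) * Real.exp (1 / p.h) ≤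
        (2 * p.M4) * (2 * p.M2) * 3 := by
          refine mul_le_mul (mul_le_mul a2 b2 (Real.exp_pos _).le (by linarith)) e3
            (Real.exp_pos _).le (by positivity)
      _ = 12 * (p.M4 * p.M2) := by ring

/-- the support of `kap` -/
lemma sub_SJ {p : Par} (hp : Sz p) {m j v4 v2 : ℕ} (hm : 1 ≤ m) (h4 : v4 ∈ I4 p) (h2 : v2 ∈ I2 p)
    (e4 : v4 / m = (Nat.unpair j).1) (e2 : v2 / m = (Nat.unpair j).2) {z : Gi}
    (hz : z ∈ lc p.h (v4 + v2)) (hr : rgh p.w z) : z ∈ SJ p m j := by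
  classical
  have hh0 : 0 < p.h := by linarith [hp.s.h]
  obtain ⟨z0, -, z2⟩ := (X.RRAM.mem_lc hh0 _ z).1 hz
  have g := (geom hp h4 h2).2
  unfold lc at hz
  rw [mem_filter] at hz
  unfold SJ
  rw [mem_filter, mem_disc]
  have hP := hp.s.P
  have hN := hp.s.N
  have hT := hp.s.T
  refine ⟨⟨z0, ?_⟩, hr, ?_, ?_⟩
  · refine z2.le.trans (g.trans ?_)
    rw [hp.mm]
    unfold MM'
    rw [← mul_div_assoc, div_le_div_iff₀ (by linarith) (by linarith)]
    have : 0 ≤ p.N * p.T * p.P := by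
      have : 0 ≤ p.T := by linarith
      positivity
    nlinarith
  · rw [hz.2, mul_add, ← e4, ← e2]
    exact add_le_add (Nat.mul_div_le _ _) (Nat.mul_div_le _ _)
  · rw [hz.2, mul_add, ← e4, ← e2]
    have a1 := Nat.lt_mul_div_succ v4 (show 0 < m by omega)
    have a2 := Nat.lt_mul_div_succ v2 (show 0 < m by omega)
    rw [mul_add, mul_one] at a1 a2
    omega

/-- the size conditions -/
lemma siz {cT cP ch cw : ℝ} (hch : 1 ≤ ch) (hcP : 1 ≤ cP) (hcw : 1 ≤ cw) (h1 : cw + 1 ≤ cP)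
    (h2 : cP + 1 ≤ cT) : ∀ᶠ N : ℝ in atTop, Siz (par N cT cP ch cw) := by
  have ev1 := (isLittleO_log_rpow_rpow_atTop cw (show (0 : ℝ) < 1 / 2 by norm_num)).bound
    (show (0 : ℝ) < 1 / 2 by norm_num)
  have ev2 := (isLittleO_log_rpow_rpow_atTop (2 * cT) (show (0 : ℝ) < 1 / 2 by norm_num)).bound
    (show (0 : ℝ) < 1 / 100 by norm_num)
  filter_upwards [ev1, ev2, eventually_ge_atTop (100 : ℝ),
    Real.tendsto_log_atTop.eventually_ge_atTop 64] with N g1 g2 hN hL
  have hL0 : 0 < Real.log N := by linarith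
  have hL1 : 1 ≤ Real.log N := by linarith
  have hN0 : 0 < N := by linarith
  have hs : Real.sqrt N = N ^ (1 / 2 : ℝ) := Real.sqrt_eq_rpow N
  have hs0 : 0 < N ^ (1 / 2 : ℝ) := by positivity
  rw [Real.norm_of_nonneg (by positivity), Real.norm_of_nonneg (by positivity)] at g1 g2
  have pw : ∀ a : ℝ, 1 ≤ a → Real.log N ≤ Real.log N ^ a := fun a ha => by
    calc Real.log N = Real.log N ^ (1 : ℝ) := (Real.rpow_one _).symm
      _ ≤ Real.log N ^ a := Real.rpow_le_rpow_of_exponent_le hL1 ha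
  refine ⟨hN, ?_, ?_, ?_, ?_, ?_, ?_, ?_⟩
  · exact le_trans hL1 (pw ch hch)
  · exact le_trans (by linarith) (pw cw hcw)
  · exact le_trans (by linarith) (pw cP hcP)
  · exact Real.rpow_lt_rpow_of_exponent_lt (by linarith) (by linarith)
  · show 64 * Real.log N ^ cP ≤ Real.log N ^ cT
    calc 64 * Real.log N ^ cP ≤ Real.log N * Real.log N ^ cP :=
          mul_le_mul_of_nonneg_right hL (by positivity)
      _ = Real.log N ^ (cP + 1) := by rw [Real.rpow_add hL0, Real.rpow_one]; ring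
      _ ≤ _ := Real.rpow_le_rpow_of_exponent_le hL1 h2
  · show Real.log N ^ cw < Real.sqrt N
    rw [hs]
    linarith
  · show 100 * (Real.log N ^ cT) ^ 2 ≤ Real.sqrt N
    rw [hs]
    have : (Real.log N ^ cT) ^ 2 = Real.log N ^ (2 * cT) := by
      rw [← Real.rpow_natCast, ← Real.rpow_mul hL0.le]
      congr 1
      push_cast
      ring
    rw [this]
    linarith

/-- the coefficients of the model -/
lemma cc_bound {cT cP ch cw : ℝ} (hch : 1 ≤ ch) (hcP : 1 ≤ cP) (hcw : 1 ≤ cw) (h1 : cw + 1 ≤ cP)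
    (h2 : cP + 1 ≤ cT) : ∀ᶠ N : ℝ in atTop, Sz (par N cT cP ch cw) ∧
      ∀ v4 ∈ I4 (par N cT cP ch cw), ∀ v2 ∈ I2 (par N cT cP ch cw), ∀ (m : Gi) (i : Ix),
        ChiG m i.2.1 →
        ‖X.cc (par N cT cP ch cw) i v4 v2‖ ≤ 7776 * Real.exp 54 * Real.log N ^ (ch + 72 * cw) := by
  obtain ⟨c, hc0, hc1, hmain⟩ := X.RRAM.main X.hm_rg0 cw (by linarith)
  have hκ0 : (0 : ℝ) < 1 / 4 * Real.exp (-54) := by positivity
  have ev2 := (isLittleO_log_rpow_rpow_atTop (ch + 72 * cw)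
    (show (0 : ℝ) < 1 / 3 * c by positivity)).bound hκ0
  have ev3 : ∀ᶠ N : ℝ in atTop, N ^ (1 / 3 : ℝ) ≤ N / 3 := by
    have h5 := (tendsto_rpow_atTop (show (0 : ℝ) < 2 / 3 by norm_num)).eventually_ge_atTop (3 : ℝ)
    filter_upwards [h5, eventually_gt_atTop (0 : ℝ)] with N h6 h7
    have h8 : N = N ^ (1 / 3 : ℝ) * N ^ (2 / 3 : ℝ) := by
      rw [← Real.rpow_add h7]
      norm_num
    have h9 : 0 < N ^ (1 / 3 : ℝ) := by positivity
    rw [le_div_iff₀ (by norm_num)]
    calc N ^ (1 / 3 : ℝ) * 3 ≤ N ^ (1 / 3 : ℝ) * N ^ (2 / 3 : ℝ) :=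
          mul_le_mul_of_nonneg_left h6 h9.le
      _ = N := h8.symm
  filter_upwards [siz hch hcP hcw h1 h2, hmain cT cP ch hch, ev2, ev3,
    Real.tendsto_log_atTop.eventually_ge_atTop 4] with N hs hm g2 g3 hL4
  have hz := sz hs
  refine ⟨hz, fun v4 hv4 v2 hv2 m i hχ => ?_⟩
  have hN0 : 0 < N := by linarith [hs.N, show (par N cT cP ch cw).N = N from rfl]
  have hL0 : 0 < Real.log N := by linarith
  have hL1 : 1 ≤ Real.log N := by linarith
  have hh4 : 4 ≤ Real.log N ^ ch := by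
    calc (4 : ℝ) ≤ Real.log N := hL4
      _ = Real.log N ^ (1 : ℝ) := (Real.rpow_one _).symm
      _ ≤ Real.log N ^ ch := Real.rpow_le_rpow_of_exponent_le hL1 hch
  have hw1 : 1 ≤ Real.log N ^ cw := Real.one_le_rpow hL1 (by linarith)
  have hV := XM.RRAM.VP_ge hw1
  have hV0 : 0 < VP (Real.log N ^ cw) := lt_of_lt_of_le (by positivity) hV
  obtain ⟨k1, k2⟩ := geom hz hv4 hv2
  have hmm := hz.mm
  have hP : (2 : ℝ) ≤ Real.log N ^ cP := hs.P
  have hT : 64 * Real.log N ^ cP ≤ Real.log N ^ cT := hs.T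
  have hMM : N / 3 ≤ (par N cT cP ch cw).M4 * (par N cT cP ch cw).M2 / 9 := by
    rw [hmm]
    show N / 3 ≤ N * Real.log N ^ cT / (16 * Real.log N ^ cP) / 9
    rw [div_div, div_le_div_iff₀ (by norm_num) (by positivity)]
    nlinarith
  have k1' : (par N cT cP ch cw).M4 * (par N cT cP ch cw).M2 / 9 ≤
    Real.exp (((v4 + v2 : ℕ) : ℝ) / Real.log N ^ ch) := k1
  have hEN : N ^ (1 / 3 : ℝ) ≤ Real.exp (((v4 + v2 : ℕ) : ℝ) / Real.log N ^ ch) :=
    g3.trans (hMM.trans k1')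
  have hm1 := hm (v4 + v2) hEN
  set E : ℝ := Real.exp (((v4 + v2 : ℕ) : ℝ) / Real.log N ^ ch) with hE
  have hE0 : 0 < E := Real.exp_pos _
  have hx : Real.exp ((((v4 + v2 : ℕ) : ℝ) + 1) / Real.log N ^ ch) =
      E * Real.exp (1 / Real.log N ^ ch) := by
    rw [hE, ← Real.exp_add]
    congr 1
    ring
  rw [hx] at hm1
  rw [Real.norm_of_nonneg (by positivity), Real.norm_of_nonneg (by positivity)] at g2
  set V := VP (Real.log N ^ cw) with hVdef
  have hVi : Real.log N ^ ch / V ≤ Real.exp 54 * Real.log N ^ (ch + 72 * cw) := by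
    have h6 : Real.log N ^ ch / V ≤
        Real.log N ^ ch / (Real.exp (-54) * (Real.log N ^ cw) ^ (-72 : ℝ)) :=
      div_le_div_of_nonneg_left (by positivity) (by positivity) hV
    refine h6.trans (le_of_eq ?_)
    have h7 : (Real.log N ^ cw) ^ (-72 : ℝ) = (Real.log N ^ (72 * cw))⁻¹ := by
      rw [← Real.rpow_mul hL0.le, ← Real.rpow_neg hL0.le]
      congr 1
      ring
    rw [h7, Real.exp_neg, Real.rpow_add hL0]
    have : 0 < Real.log N ^ (72 * cw) := by positivity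
    have : 0 < Real.exp 54 := Real.exp_pos _
    field_simp
  have key : |RR (par N cT cP ch cw) (v4 + v2) * (Real.log N ^ ch) /
      (Real.pi * E * V) - 1| ≤ 1 / 2 := by
    refine XM.RRAM.core (h := Real.log N ^ ch) (c := c) hV0 hE0 (by linarith) hm1 ?_ ?_
    · rw [div_le_iff₀ (by linarith)]
      linarith
    · have h5 : N ^ (1 / 3 * c) ≤ E ^ c := by
        rw [Real.rpow_mul hN0.le]
        exact Real.rpow_le_rpow (by positivity) hEN hc0.le
      refine hVi.trans ?_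
      calc Real.exp 54 * Real.log N ^ (ch + 72 * cw) ≤
          Real.exp 54 * (1 / 4 * Real.exp (-54) * N ^ (1 / 3 * c)) :=
            mul_le_mul_of_nonneg_left g2 (Real.exp_pos _).le
        _ = (Real.exp 54 * Real.exp (-54)) * (1 / 4) * N ^ (1 / 3 * c) := by ring
        _ = 1 / 2 / 2 * N ^ (1 / 3 * c) := by
            rw [← Real.exp_add]
            norm_num
        _ ≤ 1 / 2 / 2 * E ^ c := mul_le_mul_of_nonneg_left h5 (by norm_num)
  set R := RR (par N cT cP ch cw) (v4 + v2) with hR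
  set MM := (par N cT cP ch cw).M4 * (par N cT cP ch cw).M2 with hMMdef
  have hMM0 : 0 < MM := by
    have := hz.m4
    have := hz.m2
    positivity
  have hpi3 := Real.pi_gt_three
  have hRl : MM * V / (6 * Real.log N ^ ch) ≤ R := by
    have h3 := (abs_le.1 key).1
    have h4 : 1 / 2 ≤ R * Real.log N ^ ch / (Real.pi * E * V) := by linarith
    have hden : 0 < Real.pi * E * V := by positivity
    rw [le_div_iff₀ hden] at h4
    rw [div_le_iff₀ (by positivity)]
    have h5 : 3 * (MM / 9) * V ≤ Real.pi * E * V := by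
      refine mul_le_mul_of_nonneg_right ?_ hV0.le
      exact mul_le_mul hpi3.le k1' (by positivity) (by linarith)
    nlinarith
  have hR0 : 0 < R := lt_of_lt_of_le (by positivity) hRl
  have hS4 : ‖S4 (par N cT cP ch cw) i v4‖ ≤ 18 * (par N cT cP ch cw).M4 :=
    cell_sum hχ (by linarith [hz.m4]) v4
  have hS2 : ‖S2 (par N cT cP ch cw) i v2‖ ≤ 72 * (par N cT cP ch cw).M2 := by
    have h6 := cell_sum hχ (h := (par N cT cP ch cw).h) (M := (par N cT cP ch cw).M2)
      (by linarith [hz.m2]) v2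
    unfold S2
    rw [norm_mul]
    have : ‖(4 : ℂ)‖ = 4 := by simp
    rw [this]
    linarith
  unfold X.cc
  rw [norm_div, norm_mul, Complex.norm_real, Real.norm_of_nonneg hR0.le, div_le_iff₀ hR0]
  calc ‖S4 (par N cT cP ch cw) i v4‖ * ‖S2 (par N cT cP ch cw) i v2‖ ≤
      (18 * (par N cT cP ch cw).M4) * (72 * (par N cT cP ch cw).M2) :=
        mul_le_mul hS4 hS2 (norm_nonneg _) (by linarith [hz.m4])
    _ = 7776 * (Real.log N ^ ch / V) * (MM * V / (6 * Real.log N ^ ch)) := by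
        rw [hMMdef]
        have : 0 < Real.log N ^ ch := by positivity
        field_simp
        ring
    _ ≤ 7776 * (Real.exp 54 * Real.log N ^ (ch + 72 * cw)) * R := by
        refine mul_le_mul (mul_le_mul_of_nonneg_left hVi (by norm_num)) hRl (by positivity)
          (by positivity)
    _ = _ := by ring

/-- the part of `kap` -/
lemma kap_sum {p : Par} (hp : Sz p) {U : Finset Ix} {m j v4 v2 : ℕ} (hm : 1 ≤ m)
    (h4 : v4 ∈ I4 p) (h2 : v2 ∈ I2 p) (e4 : v4 / m = (Nat.unpair j).1)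
    (e2 : v2 / m = (Nat.unpair j).2) (i : Ix) {X0 C0 : ℝ}
    (hcc : ∀ u ∈ U, ‖X.cc p u v4 v2‖ ≤ C0)
    (hR : ∀ (u : Ix) (S : Finset Gi), u ∈ U → (∀ z, z ∈ S ↔ z ∈ lc p.h (v4 + v2) ∧ rgh p.w z) →
      ‖∑ z ∈ S, psi i z * conj (psi u z)‖ ≤ X0) :
    ‖∑ z ∈ SJ p m j, kap p U v4 v2 z * psi i z‖ ≤ U.card * (C0 * X0) := by
  classical
  set S : Finset Gi := (lc p.h (v4 + v2)).filter (rgh p.w) with hS
  have hSm : ∀ z, z ∈ S ↔ z ∈ lc p.h (v4 + v2) ∧ rgh p.w z := fun z => by rw [hS, mem_filter]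
  have hsub : S ⊆ SJ p m j := fun z hz =>
    sub_SJ hp hm h4 h2 e4 e2 ((hSm z).1 hz).1 ((hSm z).1 hz).2
  have e1 : ∑ z ∈ SJ p m j, kap p U v4 v2 z * psi i z = ∑ z ∈ S, kap p U v4 v2 z * psi i z := by
    symm
    refine Finset.sum_subset hsub fun z _ hz => ?_
    unfold kap
    rw [if_neg fun h => hz ((hSm z).2 h), zero_mul]
  have e3 : ∑ z ∈ S, kap p U v4 v2 z * psi i z =
      ∑ u ∈ U, X.cc p u v4 v2 * ∑ z ∈ S, psi i z * conj (psi u z) := by
    calc ∑ z ∈ S, kap p U v4 v2 z * psi i z =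
        ∑ z ∈ S, ∑ u ∈ U, X.cc p u v4 v2 * (psi i z * conj (psi u z)) := by
          refine sum_congr rfl fun z hz => ?_
          unfold kap
          rw [if_pos ((hSm z).1 hz), Finset.sum_mul]
          refine sum_congr rfl fun u _ => ?_
          ring
      _ = ∑ u ∈ U, ∑ z ∈ S, X.cc p u v4 v2 * (psi i z * conj (psi u z)) := Finset.sum_comm
      _ = _ := by
          refine sum_congr rfl fun u _ => ?_
          rw [Finset.mul_sum]
  rw [e1, e3]
  refine (norm_sum_le_of_le (f := fun u => X.cc p u v4 v2 * ∑ z ∈ S, psi i z * conj (psi u z))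
    U (n := fun _ => C0 * X0) fun u hu => ?_).trans (le_of_eq ?_)
  · rw [norm_mul]
    exact mul_le_mul (hcc u hu) (hR u S hu hSm) (norm_nonneg _)
      ((norm_nonneg _).trans (hcc u hu))
  · rw [sum_const, nsmul_eq_mul]

end HTSM

open HTSM in
theorem specHTS (hRGS : SpecRGS) (_hHJS : SpecHJS) (hETH : SpecETH) : SpecHTS := by
  classical
  intro cw hcw
  obtain ⟨c, hc0, hc1, hR⟩ := hRGS cw hcw
  refine ⟨c / 2, by linarith, by linarith, ?_⟩
  intro cT cP ch aQ aU a hch hcP hwP hPT hQ haQ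
  set a' : ℝ := max (max a aQ) cT with ha'
  have ha1 : a ≤ a' := (le_max_left _ _).trans (le_max_left _ _)
  have ha2 : aQ ≤ a' := (le_max_right _ _).trans (le_max_left _ _)
  have ha3 : cT ≤ a' := le_max_right _ _
  have ha0 : 0 ≤ a' := by linarith
  have hκ0 : (0 : ℝ) < 1 / (9 * (7776 * Real.exp 54)) := by positivity
  have ev := (isLittleO_log_rpow_rpow_atTop (2 * ch + aU + (ch + 72 * cw))
    (show (0 : ℝ) < c / 2 by linarith)).bound hκ0
  filter_upwards [cc_bound hch hcP hcw hwP hPT, hR a' ha0, ev,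
    Real.tendsto_log_atTop.eventually_ge_atTop 4, eventually_gt_atTop (0 : ℝ)] with
    N hN hRN hev hL4 hN0
  intro F U hF hU i m j hm hi1 hia hχ hk hI hD
  have hL0 : 0 < Real.log N := by linarith
  have hL1 : 1 ≤ Real.log N := by linarith
  rw [Real.norm_of_nonneg (by positivity), Real.norm_of_nonneg (by positivity)] at hev
  obtain ⟨hz, hcc⟩ := hN
  set p := par N cT cP ch cw with hp
  set C0 : ℝ := 7776 * Real.exp 54 * Real.log N ^ (ch + 72 * cw) with hC0
  have hC00 : 0 ≤ C0 := by positivity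
  have pL : ∀ b : ℝ, b ≤ a' → Real.log N ^ b ≤ Real.log N ^ a' := fun b hb =>
    Real.rpow_le_rpow_of_exponent_le hL1 hb
  -- the two parts
  have hsplit : ∑ z ∈ SJ p m j, HJ p U m j z * psi i z =
      (∑ z ∈ SJ p m j, (∑ v4 ∈ (I4 p).filter (fun v => v / m = (Nat.unpair j).1),
        ∑ v2 ∈ (I2 p).filter (fun v => v / m = (Nat.unpair j).2), eta p v4 v2 z) * psi i z) -
      ∑ v4 ∈ (I4 p).filter (fun v => v / m = (Nat.unpair j).1),
        ∑ v2 ∈ (I2 p).filter (fun v => v / m = (Nat.unpair j).2),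
          ∑ z ∈ SJ p m j, kap p U v4 v2 z * psi i z := by
    have e1 : ∀ z, HJ p U m j z * psi i z =
        (∑ v4 ∈ (I4 p).filter (fun v => v / m = (Nat.unpair j).1),
        ∑ v2 ∈ (I2 p).filter (fun v => v / m = (Nat.unpair j).2), eta p v4 v2 z) * psi i z -
        ∑ v4 ∈ (I4 p).filter (fun v => v / m = (Nat.unpair j).1),
        ∑ v2 ∈ (I2 p).filter (fun v => v / m = (Nat.unpair j).2), kap p U v4 v2 z * psi i z := by
      intro z
      unfold HJ
      simp only [sum_sub_distrib, sub_mul, sum_mul]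
    rw [sum_congr rfl fun z _ => e1 z, sum_sub_distrib]
    congr 1
    rw [sum_comm]
    refine sum_congr rfl fun v4 _ => ?_
    rw [sum_comm]
  have h1 := hETH p m j i hz.s hm hi1 hχ hI
  have hkap : ∀ v4 ∈ (I4 p).filter (fun v => v / m = (Nat.unpair j).1),
      ∀ v2 ∈ (I2 p).filter (fun v => v / m = (Nat.unpair j).2),
      ‖∑ z ∈ SJ p m j, kap p U v4 v2 z * psi i z‖ ≤ Real.log N ^ aU * (C0 * N ^ (1 - c)) := by
    intro v4 hv4 v2 hv2
    rw [mem_filter] at hv4 hv2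
    refine (kap_sum (X0 := N ^ (1 - c)) hz hm hv4.1 hv2.1 hv4.2 hv2.2 i (fun u hu =>
      hcc v4 hv4.1 v2 hv2.1 _ u (hU.ch u hu).2.2) (fun u S hu hS => ?_)).trans ?_
    · have hgeo := (geom hz hv4.1 hv2.1).2
      have hle : Real.exp ((((v4 + v2 : ℕ) : ℝ) + 1) / Real.log N ^ ch) ≤
          N * Real.log N ^ a' := by
        have h3 : Real.exp ((((v4 + v2 : ℕ) : ℝ) + 1) / Real.log N ^ ch) ≤
          12 * (p.M4 * p.M2) := hgeo
        refine h3.trans ?_
        rw [hz.mm]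
        show 12 * (N * Real.log N ^ cT / (16 * Real.log N ^ cP)) ≤ N * Real.log N ^ a'
        have hP : (2 : ℝ) ≤ Real.log N ^ cP := hz.s.P
        have h4 : N * Real.log N ^ cT / (16 * Real.log N ^ cP) ≤
            N * Real.log N ^ cT / 16 := by
          refine div_le_div_of_nonneg_left (by positivity) (by norm_num) (by linarith)
        have h5 : N * Real.log N ^ cT ≤ N * Real.log N ^ a' :=
          mul_le_mul_of_nonneg_left (pL cT ha3) hN0.le
        have h6 : 0 ≤ N * Real.log N ^ cT := by positivity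
        linarith
      have hh1 : 1 ≤ Real.log N ^ ch := hz.s.h
      refine hRN i u (Real.log N ^ ch) (v4 + v2) S hh1 hle ⟨hi1, hia.trans (pL a ha1), hχ, hk⟩
        ⟨(hU.ch u hu).1, (hU.ch u hu).2.1.trans (pL aQ ha2), (hU.ch u hu).2.2,
          (hU.frq u hu).trans hF⟩ (hD u hu) hS
    · exact mul_le_mul_of_nonneg_right hU.card (by positivity)
  have hcard4 : (((I4 p).filter (fun v => v / m = (Nat.unpair j).1)).card : ℝ) ≤
      3 * Real.log N ^ ch := by
    have h3 : (((I4 p).filter (fun v => v / m = (Nat.unpair j).1)).card : ℝ) ≤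
      ((I4 p).card : ℝ) := by exact_mod_cast card_le_card (filter_subset _ _)
    exact h3.trans (VV_card hz.s.h hz.m4)
  have hcard2 : (((I2 p).filter (fun v => v / m = (Nat.unpair j).2)).card : ℝ) ≤
      3 * Real.log N ^ ch := by
    have h3 : (((I2 p).filter (fun v => v / m = (Nat.unpair j).2)).card : ℝ) ≤
      ((I2 p).card : ℝ) := by exact_mod_cast card_le_card (filter_subset _ _)
    exact h3.trans (VV_card hz.s.h hz.m2)
  have hsum : ‖∑ v4 ∈ (I4 p).filter (fun v => v / m = (Nat.unpair j).1),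
        ∑ v2 ∈ (I2 p).filter (fun v => v / m = (Nat.unpair j).2),
          ∑ z ∈ SJ p m j, kap p U v4 v2 z * psi i z‖ ≤ N ^ (1 - c / 2) := by
    have hB0 : 0 ≤ Real.log N ^ aU * (C0 * N ^ (1 - c)) := by positivity
    calc ‖∑ v4 ∈ (I4 p).filter (fun v => v / m = (Nat.unpair j).1),
        ∑ v2 ∈ (I2 p).filter (fun v => v / m = (Nat.unpair j).2),
          ∑ z ∈ SJ p m j, kap p U v4 v2 z * psi i z‖ ≤
        ∑ v4 ∈ (I4 p).filter (fun v => v / m = (Nat.unpair j).1),
          ∑ v2 ∈ (I2 p).filter (fun v => v / m = (Nat.unpair j).2),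
            Real.log N ^ aU * (C0 * N ^ (1 - c)) :=
          norm_sum_le_of_le _ fun v4 hv4 => norm_sum_le_of_le _ fun v2 hv2 => hkap v4 hv4 v2 hv2
      _ = (((I4 p).filter (fun v => v / m = (Nat.unpair j).1)).card : ℝ) *
          ((((I2 p).filter (fun v => v / m = (Nat.unpair j).2)).card : ℝ) *
            (Real.log N ^ aU * (C0 * N ^ (1 - c)))) := by
          simp only [sum_const, nsmul_eq_mul]
      _ ≤ (3 * Real.log N ^ ch) * ((3 * Real.log N ^ ch) *
            (Real.log N ^ aU * (C0 * N ^ (1 - c)))) := by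
          refine mul_le_mul hcard4 (mul_le_mul_of_nonneg_right hcard2 hB0)
            (by positivity) (by positivity)
      _ = 9 * (7776 * Real.exp 54) * Real.log N ^ (2 * ch + aU + (ch + 72 * cw)) *
            N ^ (1 - c) := by
          rw [hC0, Real.rpow_add hL0 (2 * ch + aU), Real.rpow_add hL0 (2 * ch), two_mul,
            Real.rpow_add hL0 ch ch]
          ring
      _ ≤ N ^ (c / 2) * N ^ (1 - c) := by
          refine mul_le_mul_of_nonneg_right ?_ (by positivity)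
          have h3 := mul_le_mul_of_nonneg_left hev
            (show (0 : ℝ) ≤ 9 * (7776 * Real.exp 54) by positivity)
          refine h3.trans (le_of_eq ?_)
          have : (0 : ℝ) < 9 * (7776 * Real.exp 54) := by positivity
          field_simp
      _ = N ^ (1 - c / 2) := by
          rw [← Real.rpow_add hN0]
          congr 1
          ring
  rw [hsplit, h1]
  refine (norm_sub_le _ _).trans ?_
  have h9 : ‖4 * G4 p m i (Nat.unpair j).1 * G2 p m i (Nat.unpair j).2‖ =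
      4 * ‖G4 p m i (Nat.unpair j).1‖ * ‖G2 p m i (Nat.unpair j).2‖ := by
    rw [norm_mul, norm_mul]
    simp
  rw [h9]
  linarith

end Pool.Agent.Lib.MP391708.XU
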