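import Pool.Agent.Lib.MP_391708_nt.X.U.HTAC
import Pool.Agent.Lib.MP_391708_nt.X.U.HTS
import Pool.Agent.Lib.MP_391708_nt.X.RRL
import Pool.Agent.Lib.MP_391708_nt.X.VPL
import Pool.Agent.Lib.MP_391708_nt.X.HM
import Pool.Agent.Lib.MP_391708_nt.MR.PG

/-!
# THEOREM X (MP_391708), part U, module HTA: the sum of `HJ` against a character of `U`
-/

set_option autoImplicit false

namespace Pool.Agent.Lib.MP391708.XU

open Finset Filter Topology Pool.Agent.Lib.MP391708.MR
open Pool.Agent.Lib.MP391708.X (Par par ChiG hk Dist rgh Ix psi ix1 UOK lc RR S4 S2 I4 I2 eta kap Eta Kap cc)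
open scoped ComplexConjugate

namespace HTAM

open HJSM

theorem fin_small {C K c : ℝ} (hC : 0 < C) (hc : 0 < c) :
    ∀ᶠ N : ℝ in atTop, C * Real.log N ^ K * N ^ (1 - c) ≤ N ^ (1 - c / 2) := by
  have h := (isLittleO_log_rpow_rpow_atTop K (show 0 < c / 2 by positivity)).bound
    (show 0 < 1 / C by positivity)
  filter_upwards [h, eventually_gt_atTop (1 : ℝ)] with N hN h1
  have hN0 : 0 < N := by linarith
  have hL0 : 0 < Real.log N := Real.log_pos h1
  rw [Real.norm_of_nonneg (by positivity), Real.norm_of_nonneg (by positivity)] at hN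
  have h2 : C * Real.log N ^ K ≤ N ^ (c / 2) := by
    calc C * Real.log N ^ K ≤ C * (1 / C * N ^ (c / 2)) := mul_le_mul_of_nonneg_left hN hC.le
      _ = N ^ (c / 2) := by field_simp
  calc C * Real.log N ^ K * N ^ (1 - c) ≤ N ^ (c / 2) * N ^ (1 - c) :=
        mul_le_mul_of_nonneg_right h2 (by positivity)
    _ = N ^ (1 - c / 2) := by
        rw [← Real.rpow_add hN0]
        congr 1
        ring

theorem of_rrl (hRRL : X.SpecRRL) (hRGS : SpecRGS) (hNCD : SpecNCD) (hETH : SpecETH)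
    (hSUP : SpecSUP) : SpecHTA := by
  classical
  intro cw hcw
  obtain ⟨c0, hc0, hc0', hR⟩ := hRGS cw hcw
  obtain ⟨r, _, hr, _, hRR⟩ := hRRL
  refine ⟨c0 / 2, by positivity, by linarith, ?_⟩
  intro cT cP ch aQ aU a hch hcP hcwP hcPT hQw haQ
  have ha' : 0 ≤ max aQ cT := le_max_of_le_left (by linarith)
  have hCpos : 0 < 104976 * cw / r := by positivity
  filter_upwards [hRR cT cP ch cw hch (by linarith), hR (max aQ cT) ha',
    hSUP cT cP ch cw aQ aU hch hcP hcPT hQw hcw haQ, HTSM.siz hch hcP hcw hcwP hcPT,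
    (isLittleO_log_rpow_rpow_atTop (2 * a) (show (0 : ℝ) < 1 / 2 by norm_num)).bound
      (show (0 : ℝ) < 1 by norm_num),
    fin_small (K := 3 * ch + aU + 1) hCpos hc0,
    Real.tendsto_log_atTop.eventually_ge_atTop 4] with N g1 g2 g3 S g5 g6 g7
  intro F U hF hU i m j hm hi1 hia hχ hu
  obtain ⟨u, hu, hk, hz⟩ := hu
  have hN100 : (100 : ℝ) ≤ N := S.N
  have hN0 : (0 : ℝ) < N := by linarith
  set L : ℝ := Real.log N with hLd
  have hL0 : 0 < L := by linarith
  have hL1 : 1 ≤ L := by linarith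
  have hh : 1 ≤ L ^ ch := S.h
  have hw2 : 2 ≤ L ^ cw := S.w
  have hlw : 0 < Real.log (L ^ cw) := Real.log_pos (by linarith)
  have hP2 : 2 ≤ L ^ cP := S.P
  have hM4 := M4_ge S
  have hM2 := M2_ge' S
  -- sizes
  have hQ : L ^ aQ ≤ L ^ cw := Real.rpow_le_rpow_of_exponent_le hL1 (by linarith)
  have hQ2 : (L ^ aQ) ^ 2 ≤ L ^ cw := by
    rw [← Real.rpow_natCast, ← Real.rpow_mul hL0.le]
    apply Real.rpow_le_rpow_of_exponent_le hL1
    push_cast
    linarith
  have hM4e : (par N cT cP ch cw).M4 = N ^ (1 / 2 : ℝ) := Real.sqrt_eq_rpow N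
  have hsz : (i.1 : ℝ) ^ 2 ≤ (par N cT cP ch cw).M4 := by
    rw [Real.norm_of_nonneg (by positivity), Real.norm_of_nonneg (by positivity), one_mul] at g5
    have h1 : (i.1 : ℝ) ^ 2 ≤ (L ^ a) ^ 2 := pow_le_pow_left₀ (Nat.cast_nonneg _) hia 2
    have h2 : (L ^ a) ^ 2 = L ^ (2 * a) := by
      rw [← Real.rpow_natCast, ← Real.rpow_mul hL0.le]
      congr 1
      push_cast
      ring
    rw [hM4e]
    rw [h2] at h1
    exact h1.trans g5
  have hN3 : N ^ (1 / 3 : ℝ) ≤ (par N cT cP ch cw).M4 := by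
    rw [hM4e]
    exact Real.rpow_le_rpow_of_exponent_le (by linarith) (by norm_num)
  have hE : ∀ v4 ∈ I4 (par N cT cP ch cw), ∀ v2 ∈ I2 (par N cT cP ch cw),
      N ^ (1 / 3 : ℝ) ≤ Real.exp (((v4 + v2 : ℕ) : ℝ) / L ^ ch) := by
    intro v4 h4 v2 h2
    have h5 := exp_ge S h4 h2
    refine hN3.trans (le_trans ?_ h5)
    nlinarith
  have hRRl : ∀ v4 ∈ I4 (par N cT cP ch cw), ∀ v2 ∈ I2 (par N cT cP ch cw),
      r / (L ^ ch * Real.log (L ^ cw)) * Real.exp (((v4 + v2 : ℕ) : ℝ) / L ^ ch) ≤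
        RR (par N cT cP ch cw) (v4 + v2) := by
    intro v4 h4 v2 h2
    have h5 := (g1 (v4 + v2) (hE v4 h4 v2 h2)).1
    calc r / (L ^ ch * Real.log (L ^ cw)) * Real.exp (((v4 + v2 : ℕ) : ℝ) / L ^ ch) =
        r * (Real.exp (((v4 + v2 : ℕ) : ℝ) / L ^ ch) / (L ^ ch * Real.log (L ^ cw))) := by ring
      _ ≤ RR (par N cT cP ch cw) (v4 + v2) := h5
  have hcpos : 0 < r / (L ^ ch * Real.log (L ^ cw)) := by positivity
  have hMMle : MM' (par N cT cP ch cw) ≤ N * L ^ max aQ cT := by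
    have h5 : L ^ cT ≤ L ^ max aQ cT :=
      Real.rpow_le_rpow_of_exponent_le hL1 (le_max_right _ _)
    have h6 : MM' (par N cT cP ch cw) = 2 * N * L ^ cT / L ^ cP := rfl
    have h7 : 0 < L ^ cT := by positivity
    rw [h6, div_le_iff₀ (by linarith)]
    calc 2 * N * L ^ cT = N * L ^ cT * 2 := by ring
      _ ≤ N * L ^ max aQ cT * L ^ cP := by
          apply mul_le_mul (mul_le_mul_of_nonneg_left h5 hN0.le) hP2 (by norm_num)
          positivity
  have hix : ∀ u ∈ U, 1 ≤ u.1 ∧ (u.1 : ℝ) ≤ L ^ max aQ cT ∧ ChiG (u.1 : Gi) u.2.1 ∧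
      |(u.2.2 : ℝ)| ≤ N ^ 2 := by
    intro u hu
    obtain ⟨h5, h6, h7⟩ := hU.ch u hu
    exact ⟨h5, h6.trans (Real.rpow_le_rpow_of_exponent_le hL1 (le_max_left _ _)), h7,
      (hU.frq u hu).trans hF⟩
  have h0 := core (p := par N cT cP ch cw) (Q := L ^ aQ) (F := F) (W := L ^ aU) (i := i) (u := u)
    (D := N ^ (1 - c0)) (Bc := 11664 / (r / (L ^ ch * Real.log (L ^ cw)))) (L := L) (m := m)
    hETH hNCD S hU hQ hQ2 (by positivity) (by positivity) hL0.le ?_ ?_ ?_ (fun z => g3 F U hF hU z)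
    hm j hi1 hχ hsz hu hk hz
  · refine h0.trans (add_le_add (le_refl _) ?_)
    have k4 : ((I4 (par N cT cP ch cw)).card : ℝ) ≤ 3 * L ^ ch :=
      HTSM.VV_card hh (by linarith)
    have k2 : ((I2 (par N cT cP ch cw)).card : ℝ) ≤ 3 * L ^ ch :=
      HTSM.VV_card hh (by linarith)
    have kU := hU.card
    have hlw2 : Real.log (L ^ cw) ≤ cw * L := by
      rw [Real.log_rpow hL0]
      have h8 := Real.log_le_sub_one_of_pos hL0
      nlinarith
    have kB : 11664 / (r / (L ^ ch * Real.log (L ^ cw))) ≤ 11664 * cw / r * (L ^ ch * L) := by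
      have h8 : 11664 / (r / (L ^ ch * Real.log (L ^ cw))) =
          11664 / r * (L ^ ch * Real.log (L ^ cw)) := by
        field_simp
      rw [h8]
      calc 11664 / r * (L ^ ch * Real.log (L ^ cw)) ≤ 11664 / r * (L ^ ch * (cw * L)) := by
            apply mul_le_mul_of_nonneg_left _ (by positivity)
            apply mul_le_mul_of_nonneg_left hlw2 (by positivity)
        _ = 11664 * cw / r * (L ^ ch * L) := by ring
    have hD0 : 0 ≤ N ^ (1 - c0) := by positivity
    have hB0 : 0 ≤ 11664 / (r / (L ^ ch * Real.log (L ^ cw))) := by positivity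
    calc ((I4 (par N cT cP ch cw)).card : ℝ) * ((I2 (par N cT cP ch cw)).card *
          (U.card * (11664 / (r / (L ^ ch * Real.log (L ^ cw))) * N ^ (1 - c0)))) ≤
        (3 * L ^ ch) * ((3 * L ^ ch) * (L ^ aU * (11664 * cw / r * (L ^ ch * L) *
          N ^ (1 - c0)))) := by
          apply mul_le_mul k4 _ (by positivity) (by positivity)
          apply mul_le_mul k2 _ (by positivity) (by positivity)
          apply mul_le_mul kU _ (by positivity) (by positivity)
          exact mul_le_mul_of_nonneg_right kB hD0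
      _ = 104976 * cw / r * (L ^ ch * L ^ ch * L ^ ch * L ^ aU * L) * N ^ (1 - c0) := by ring
      _ = 104976 * cw / r * L ^ (3 * ch + aU + 1) * N ^ (1 - c0) := by
          have h9 : L ^ ch * L ^ ch * L ^ ch * L ^ aU * L = L ^ (3 * ch + aU + 1) := by
            rw [Real.rpow_add hL0, Real.rpow_one, Real.rpow_add hL0]
            congr 2
            rw [← Real.rpow_add hL0, ← Real.rpow_add hL0]
            congr 1
            ring
          rw [h9]
      _ ≤ N ^ (1 - c0 / 2) := g6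
  · intro u hu u' hu' hne v4 h4 v2 h2
    exact g2 u u' (L ^ ch) (v4 + v2) _ hh ((exp_le S h4 h2).trans hMMle) (hix u hu) (hix u' hu')
      (hU.dif u hu u' hu' hne) (fun z => by rw [mem_filter]; rfl)
  · intro v4 h4 v2 h2
    exact (lt_of_lt_of_le (mul_pos hcpos (Real.exp_pos _)) (hRRl v4 h4 v2 h2)).ne'
  · intro u hu v4 h4 v2 h2
    exact norm_cc S (hU.ch u hu).2.2 h4 h2 hcpos (hRRl v4 h4 v2 h2)

end HTAM

/-- **HTA**: the sum of `HJ` against a character of `U`. -/
theorem specHTA (hRGS : SpecRGS) (hNCD : SpecNCD) (_ : SpecHJS) (hETH : SpecETH)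
    (hSUP : SpecSUP) : SpecHTA :=
  HTAM.of_rrl (X.specRRL X.hm_rg0 (X.specVPL specPG)) hRGS hNCD hETH hSUP

end Pool.Agent.Lib.MP391708.XU
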