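import Pool.Agent.Lib.MP_391708_nt.X.U.Spec
import Pool.Agent.Lib.MP_391708_nt.X.U.HJS
import Pool.Agent.Lib.MP_391708_nt.X.U.ETH
import Pool.Agent.Lib.MP_391708_nt.X.PSI

/-!
# THEOREM X (MP_391708), part U, module HTA: the sum of `HJ` against a character of `U` (core)
-/

set_option autoImplicit false

namespace Pool.Agent.Lib.MP391708.XU

open Finset Filter Topology Pool.Agent.Lib.MP391708.MR
open Pool.Agent.Lib.MP391708.X (Par par ChiG hk Dist rgh Ix psi ix1 UOK lc RR S4 S2 I4 I2 eta kap Eta Kap cc)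
open scoped ComplexConjugate

namespace HTAM

open HJSM

/-! ### Sizes -/

theorem VV_ge {h M : ℝ} {v : ℕ} (hv : v ∈ VV h M (2 * M)) : h * Real.log M - 1 ≤ v := by
  unfold VV at hv
  have h1 := (mem_Icc.1 hv).1
  have h2 := Nat.lt_floor_add_one (h * Real.log M)
  have h3 : ((⌊h * Real.log M⌋₊ : ℕ) : ℝ) ≤ v := Nat.cast_le.2 h1
  linarith

theorem exp_le {p : Par} (S : Siz p) {v4 v2 : ℕ} (h4 : v4 ∈ I4 p) (h2 : v2 ∈ I2 p) :
    Real.exp ((((v4 + v2 : ℕ) : ℝ) + 1) / p.h) ≤ MM' p := by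
  have hM4 := M4_ge S
  have hM2 := M2_ge' S
  have hh := S.h
  have e4 := le_of_VV hh (by linarith) h4
  have e2 := le_of_VV hh (by linarith) h2
  have e3 : ((((v4 + v2 : ℕ) : ℝ) + 1) / p.h) ≤ Real.log (4 * (p.M4 * p.M2)) + 1 := by
    rw [div_le_iff₀ (by linarith)]
    have e5 : Real.log (4 * (p.M4 * p.M2)) = Real.log (2 * p.M4) + Real.log (2 * p.M2) := by
      rw [← Real.log_mul (by positivity) (by positivity)]
      congr 1
      ring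
    rw [e5]
    push_cast
    nlinarith
  rw [MM_eq S]
  calc Real.exp ((((v4 + v2 : ℕ) : ℝ) + 1) / p.h)
      ≤ Real.exp (Real.log (4 * (p.M4 * p.M2)) + 1) := Real.exp_le_exp.2 e3
    _ = 4 * (p.M4 * p.M2) * Real.exp 1 := by
        rw [Real.exp_add, Real.exp_log (by positivity)]
    _ ≤ 4 * (p.M4 * p.M2) * 3 := by
        apply mul_le_mul_of_nonneg_left _ (by positivity)
        linarith [Real.exp_one_lt_d9]
    _ ≤ 32 * (p.M4 * p.M2) := by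
        nlinarith [mul_pos (by linarith : 0 < p.M4) (by linarith : 0 < p.M2)]

theorem exp_ge {p : Par} (S : Siz p) {v4 v2 : ℕ} (h4 : v4 ∈ I4 p) (h2 : v2 ∈ I2 p) :
    p.M4 * p.M2 / 9 ≤ Real.exp (((v4 + v2 : ℕ) : ℝ) / p.h) := by
  have hM4 := M4_ge S
  have hM2 := M2_ge' S
  have hh := S.h
  have e4 := VV_ge h4
  have e2 := VV_ge h2
  have hpos : 0 < p.M4 * p.M2 := mul_pos (by linarith) (by linarith)
  have e3 : Real.log (p.M4 * p.M2) - 2 ≤ ((v4 + v2 : ℕ) : ℝ) / p.h := by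
    rw [le_div_iff₀ (by linarith), Real.log_mul (by positivity) (by positivity)]
    push_cast
    nlinarith
  have e5 : Real.exp 2 ≤ 9 := by
    have h3 : Real.exp 2 = Real.exp 1 * Real.exp 1 := by
      rw [← Real.exp_add]
      norm_num
    have h6 := Real.exp_one_lt_d9
    have h7 := Real.exp_pos 1
    rw [h3]
    nlinarith
  calc p.M4 * p.M2 / 9 ≤ p.M4 * p.M2 / Real.exp 2 :=
        div_le_div_of_nonneg_left hpos.le (Real.exp_pos 2) e5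
    _ = Real.exp (Real.log (p.M4 * p.M2) - 2) := by
        rw [Real.exp_sub, Real.exp_log hpos]
    _ ≤ Real.exp (((v4 + v2 : ℕ) : ℝ) / p.h) := Real.exp_le_exp.2 e3

theorem norm_S4 {p : Par} (S : Siz p) {i : Ix} {m : Gi} (h : ChiG m i.2.1) (v : ℕ) :
    ‖S4 p i v‖ ≤ 18 * p.M4 := by
  have hM4 := M4_ge S
  unfold X.S4
  have h1 : ‖∑ π ∈ cell p.h p.M4 (2 * p.M4) v, psi i π‖ ≤
      ((cell p.h p.M4 (2 * p.M4) v).card : ℝ) := by
    refine (norm_sum_le_of_le _ (fun z _ => X.PSIM.norm_psi_le h z)).trans ?_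
    simp
  have h2 : ((cell p.h p.M4 (2 * p.M4) v).card : ℝ) ≤ ((disc (2 * p.M4)).card : ℝ) := by
    apply Nat.cast_le.2
    apply card_le_card
    exact (filter_subset _ _).trans (filter_subset _ _)
  have h3 := card_disc_le (show 0 ≤ 2 * p.M4 by linarith)
  linarith

theorem norm_S2 {p : Par} (S : Siz p) {i : Ix} {m : Gi} (h : ChiG m i.2.1) (v : ℕ) :
    ‖S2 p i v‖ ≤ 72 * p.M2 := by
  have hM2 := M2_ge' S
  unfold X.S2
  rw [norm_mul]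
  have h1 : ‖∑ π ∈ cell p.h p.M2 (2 * p.M2) v, psi i π‖ ≤
      ((cell p.h p.M2 (2 * p.M2) v).card : ℝ) := by
    refine (norm_sum_le_of_le _ (fun z _ => X.PSIM.norm_psi_le h z)).trans ?_
    simp
  have h2 : ((cell p.h p.M2 (2 * p.M2) v).card : ℝ) ≤ ((disc (2 * p.M2)).card : ℝ) := by
    apply Nat.cast_le.2
    apply card_le_card
    exact (filter_subset _ _).trans (filter_subset _ _)
  have h3 := card_disc_le (show 0 ≤ 2 * p.M2 by linarith)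
  have h4 : ‖(4 : ℂ)‖ = 4 := by simp
  rw [h4]
  linarith

/-- the coefficients of the model are at most a power of `log N` -/
theorem norm_cc {p : Par} (S : Siz p) {i : Ix} {m : Gi} (h : ChiG m i.2.1) {v4 v2 : ℕ}
    (h4 : v4 ∈ I4 p) (h2 : v2 ∈ I2 p) {c : ℝ} (hc : 0 < c)
    (hR : c * Real.exp (((v4 + v2 : ℕ) : ℝ) / p.h) ≤ RR p (v4 + v2)) :
    ‖cc p i v4 v2‖ ≤ 11664 / c := by
  have hM4 := M4_ge S
  have hM2 := M2_ge' S
  have hE := exp_ge S h4 h2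
  have hpos : 0 < p.M4 * p.M2 := mul_pos (by linarith) (by linarith)
  have hR1 : c * (p.M4 * p.M2 / 9) ≤ RR p (v4 + v2) :=
    (mul_le_mul_of_nonneg_left hE hc.le).trans hR
  have hR0 : 0 < RR p (v4 + v2) := lt_of_lt_of_le (by positivity) hR1
  unfold X.cc
  rw [norm_div, norm_mul, Complex.norm_real, Real.norm_of_nonneg hR0.le,
    div_le_div_iff₀ hR0 hc]
  have e1 : ‖S4 p i v4‖ * ‖S2 p i v2‖ ≤ 18 * p.M4 * (72 * p.M2) :=
    mul_le_mul (norm_S4 S h v4) (norm_S2 S h v2) (norm_nonneg _) (by linarith)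
  calc ‖S4 p i v4‖ * ‖S2 p i v2‖ * c ≤ 18 * p.M4 * (72 * p.M2) * c :=
        mul_le_mul_of_nonneg_right e1 hc.le
    _ = 11664 * (c * (p.M4 * p.M2 / 9)) := by ring
    _ ≤ 11664 * RR p (v4 + v2) := mul_le_mul_of_nonneg_left hR1 (by norm_num)

theorem card_VV {h M : ℝ} (hh : 1 ≤ h) (hM : 1 ≤ M) :
    ((VV h M (2 * M)).card : ℝ) ≤ 2 * h * (1 + Real.log (2 * M)) := by
  have hl : 0 ≤ Real.log (2 * M) := Real.log_nonneg (by linarith)
  have h1 : (VV h M (2 * M)).card ≤ ⌊h * Real.log (2 * M)⌋₊ + 1 := by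
    unfold VV
    rw [Nat.card_Icc]
    omega
  have h2 : ((⌊h * Real.log (2 * M)⌋₊ : ℕ) : ℝ) ≤ h * Real.log (2 * M) :=
    Nat.floor_le (mul_nonneg (by linarith) hl)
  have h3 : ((VV h M (2 * M)).card : ℝ) ≤ ((⌊h * Real.log (2 * M)⌋₊ : ℕ) : ℝ) + 1 := by
    exact_mod_cast h1
  nlinarith [mul_nonneg (by linarith : 0 ≤ h) hl]

/-! ### The sum of `kap` over the cell of a pair -/

theorem sub_SJ {p : Par} (S : Siz p) {m : ℕ} (hm : 1 ≤ m) {j v4 v2 : ℕ}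
    (h4 : v4 ∈ (I4 p).filter (fun v => v / m = (Nat.unpair j).1))
    (h2 : v2 ∈ (I2 p).filter (fun v => v / m = (Nat.unpair j).2)) {z : Gi}
    (hz : z ∈ lc p.h (v4 + v2)) (hr : rgh p.w z) : z ∈ SJ p m j := by
  classical
  rw [mem_filter] at h4 h2
  have b4 := div_bounds hm h4.2
  have b2 := div_bounds hm h2.2
  unfold X.lc at hz
  rw [mem_filter, mem_disc] at hz
  obtain ⟨⟨hz0, hz1⟩, hz2⟩ := hz
  have e : m * ((Nat.unpair j).1 + (Nat.unpair j).2) =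
    m * (Nat.unpair j).1 + m * (Nat.unpair j).2 := Nat.mul_add _ _ _
  unfold SJ
  rw [mem_filter, mem_disc]
  refine ⟨⟨hz0, hz1.trans (exp_le S h4.1 h2.1)⟩, hr, ?_, ?_⟩
  · rw [e]
    omega
  · rw [e]
    omega

open scoped Classical in
theorem kap_sum {p : Par} (S : Siz p) (U : Finset Ix) {m : ℕ} (hm : 1 ≤ m) {j v4 v2 : ℕ}
    (h4 : v4 ∈ (I4 p).filter (fun v => v / m = (Nat.unpair j).1))
    (h2 : v2 ∈ (I2 p).filter (fun v => v / m = (Nat.unpair j).2)) (f : Gi → ℂ) :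
    ∑ z ∈ SJ p m j, kap p U v4 v2 z * f z = ∑ i ∈ U, cc p i v4 v2 *
      ∑ z ∈ (lc p.h (v4 + v2)).filter (rgh p.w), f z * conj (psi i z) := by
  have h1 : (lc p.h (v4 + v2)).filter (rgh p.w) ⊆ SJ p m j := by
    intro z hz
    rw [mem_filter] at hz
    exact sub_SJ S hm h4 h2 hz.1 hz.2
  rw [← sum_subset h1]
  · simp only [mul_sum]
    rw [sum_comm]
    refine sum_congr rfl fun z hz => ?_
    rw [mem_filter] at hz
    unfold X.kap
    rw [if_pos hz, sum_mul]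
    refine sum_congr rfl fun i _ => ?_
    ring
  · intro z _ hz
    rw [mem_filter] at hz
    unfold X.kap
    rw [if_neg hz, zero_mul]

/-! ### Characters -/

theorem coprime_GP {M : ℝ} {t : ℕ} (ht : 1 ≤ t) (hM : (t : ℝ) ^ 2 ≤ M) {π : Gi}
    (hπ : π ∈ GP M (2 * M)) : IsCoprime π (t : Gi) := by
  rw [Prime.coprime_iff_not_dvd (GP_prime hπ)]
  intro hd
  have h2 : nm π ∣ nm ((t : ℕ) : Gi) := nm_dvd hd
  rw [X.PSIM.nm_cast_nat] at h2
  have h3 : nm π ≤ t ^ 2 := Nat.le_of_dvd (by positivity) h2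
  have h4 : (nm π : ℝ) ≤ (t : ℝ) ^ 2 := by exact_mod_cast h3
  have h5 := (mem_GP.1 hπ).2.2.2.2.1
  linarith

theorem cop_I (m : Gi) : IsCoprime (⟨0, 1⟩ : Gi) m :=
  ⟨⟨0, -1⟩, 0, by
    rw [zero_mul, add_zero]
    apply Zsqrtd.ext <;> simp⟩

section Core

variable {p : Par} {U : Finset Ix} {Q F W : ℝ} {i u : Ix}

theorem psi_eq (hk : i.2.2 = u.2.2) (hz : ∀ z, i.2.1 z ≠ 0 → u.2.1 z = i.2.1 z)
    (hχ : ChiG (i.1 : Gi) i.2.1) {z : Gi} (hc : IsCoprime z (i.1 : Gi)) : psi i z = psi u z := by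
  unfold X.psi X.hk
  rw [hz z ((hχ.supp z).2 hc), hk]

theorem psi_zero (hχ : ChiG (i.1 : Gi) i.2.1) {z : Gi} (hc : ¬ IsCoprime z (i.1 : Gi)) :
    psi i z = 0 := by
  have h1 : i.2.1 z = 0 := by
    by_contra h
    exact hc ((hχ.supp z).1 h)
  unfold X.psi X.hk
  rw [h1, zero_mul]

theorem G_eq (hk : i.2.2 = u.2.2) (hz : ∀ z, i.2.1 z ≠ 0 → u.2.1 z = i.2.1 z) (hi1 : 1 ≤ i.1)
    (hχ : ChiG (i.1 : Gi) i.2.1) {h M : ℝ} {m a : ℕ} (hM : (i.1 : ℝ) ^ 2 ≤ M) :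
    ∑ π ∈ GG h M m a, psi i π = ∑ π ∈ GG h M m a, psi u π := by
  refine sum_congr rfl fun π hπ => ?_
  unfold GG at hπ
  rw [mem_filter] at hπ
  exact psi_eq hk hz hχ (coprime_GP hi1 hM hπ.1)

theorem main_eq (S : Siz p) (m j : ℕ) (u : Ix) :
    4 * G4 p m u (Nat.unpair j).1 * G2 p m u (Nat.unpair j).2 =
      ∑ v4 ∈ (I4 p).filter (fun v => v / m = (Nat.unpair j).1),
        ∑ v2 ∈ (I2 p).filter (fun v => v / m = (Nat.unpair j).2), S4 p u v4 * S2 p u v2 := by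
  have hh : 0 < p.h := by linarith [S.h]
  unfold G4 G2
  rw [ETHM.sum_GG _ _ _ _ hh (ETHM.M4_pos S), ETHM.sum_GG _ _ _ _ hh (ETHM.M2_pos S)]
  unfold X.I4 X.I2 X.S4 X.S2
  rw [mul_assoc, Finset.sum_mul_sum, Finset.mul_sum]
  refine Finset.sum_congr rfl fun v4 _ => ?_
  rw [Finset.mul_sum]
  refine Finset.sum_congr rfl fun v2 _ => ?_
  ring

open scoped Classical in
/-- one pair of fine cells -/
theorem pair_le (S : Siz p) (hU : UOK Q F W U) (hQ : Q ≤ p.w) (hQ2 : Q ^ 2 ≤ p.w) {D Bc : ℝ}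
    (hBc : 0 ≤ Bc) (hD0 : 0 ≤ D)
    (hD : ∀ u ∈ U, ∀ u' ∈ U, u ≠ u' → ∀ v4 ∈ I4 p, ∀ v2 ∈ I2 p,
      ‖∑ z ∈ (lc p.h (v4 + v2)).filter (rgh p.w), psi u z * conj (psi u' z)‖ ≤ D)
    (hRR : ∀ v4 ∈ I4 p, ∀ v2 ∈ I2 p, RR p (v4 + v2) ≠ 0)
    (hcc : ∀ u ∈ U, ∀ v4 ∈ I4 p, ∀ v2 ∈ I2 p, ‖cc p u v4 v2‖ ≤ Bc)
    {m : ℕ} (hm : 1 ≤ m) {j v4 v2 : ℕ}
    (h4 : v4 ∈ (I4 p).filter (fun v => v / m = (Nat.unpair j).1))
    (h2 : v2 ∈ (I2 p).filter (fun v => v / m = (Nat.unpair j).2)) (hu : u ∈ U) :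
    ‖∑ z ∈ SJ p m j, kap p U v4 v2 z * psi u z - S4 p u v4 * S2 p u v2‖ ≤
      U.card * (Bc * D) := by
  have k4 := (mem_filter.1 h4).1
  have k2 := (mem_filter.1 h2).1
  rw [kap_sum S U hm h4 h2, ← add_sum_erase U _ hu]
  have e1 : ∑ z ∈ (lc p.h (v4 + v2)).filter (rgh p.w), psi u z * conj (psi u z) =
      (RR p (v4 + v2) : ℂ) := by
    have e2 : ∀ z ∈ (lc p.h (v4 + v2)).filter (rgh p.w), psi u z * conj (psi u z) = 1 := by
      intro z hz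
      rw [mem_filter] at hz
      have hz0 : z ≠ 0 := by
        have h5 := hz.1
        unfold X.lc at h5
        rw [mem_filter, mem_disc] at h5
        exact h5.1.1
      have h6 := (X.specPSI Q F W U hU u hu).2.2.2.2.2.2 p.w z hQ hQ2 hz0 hz.2
      rw [Complex.mul_conj, Complex.normSq_eq_norm_sq, h6]
      simp
    rw [sum_congr rfl e2, sum_const, nsmul_eq_mul, mul_one]
    unfold X.RR
    rw [Complex.ofReal_natCast]
  have e3 : cc p u v4 v2 * (RR p (v4 + v2) : ℂ) = S4 p u v4 * S2 p u v2 := by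
    unfold X.cc
    rw [div_mul_cancel₀]
    exact_mod_cast hRR v4 k4 v2 k2
  rw [e1, e3, add_sub_cancel_left]
  refine (norm_sum_le_of_le (n := fun _ => Bc * D) _ (fun u' hu' => ?_)).trans ?_
  · rw [norm_mul]
    rw [mem_erase] at hu'
    exact mul_le_mul (hcc u' hu'.2 v4 k4 v2 k2) (hD u hu u' hu'.2 (Ne.symm hu'.1) v4 k4 v2 k2)
      (norm_nonneg _) hBc
  · rw [sum_const, nsmul_eq_mul]
    apply mul_le_mul_of_nonneg_right _ (mul_nonneg hBc hD0)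
    exact_mod_cast card_le_card (erase_subset u U)

open scoped Classical in
theorem core (hETH : SpecETH) (hNCD : SpecNCD) (S : Siz p) (hU : UOK Q F W U) (hQ : Q ≤ p.w)
    (hQ2 : Q ^ 2 ≤ p.w) {D Bc L : ℝ} (hBc : 0 ≤ Bc) (hD0 : 0 ≤ D) (hL0 : 0 ≤ L)
    (hD : ∀ u ∈ U, ∀ u' ∈ U, u ≠ u' → ∀ v4 ∈ I4 p, ∀ v2 ∈ I2 p,
      ‖∑ z ∈ (lc p.h (v4 + v2)).filter (rgh p.w), psi u z * conj (psi u' z)‖ ≤ D)
    (hRR : ∀ v4 ∈ I4 p, ∀ v2 ∈ I2 p, RR p (v4 + v2) ≠ 0)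
    (hcc : ∀ u ∈ U, ∀ v4 ∈ I4 p, ∀ v2 ∈ I2 p, ‖cc p u v4 v2‖ ≤ Bc)
    (hL : ∀ z, ∑ v4 ∈ I4 p, ∑ v2 ∈ I2 p, (‖eta p v4 v2 z‖ + ‖kap p U v4 v2 z‖) ≤ L)
    {m : ℕ} (hm : 1 ≤ m) (j : ℕ) (hi1 : 1 ≤ i.1) (hχ : ChiG (i.1 : Gi) i.2.1)
    (hsz : (i.1 : ℝ) ^ 2 ≤ p.M4) (hu : u ∈ U) (hk : i.2.2 = u.2.2)
    (hz : ∀ z, i.2.1 z ≠ 0 → u.2.1 z = i.2.1 z) :
    ‖∑ z ∈ SJ p m j, HJ p U m j z * psi i z‖ ≤
      40 * (1 + Real.log i.1) * L * MM' p / p.w +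
        (I4 p).card * ((I2 p).card * (U.card * (Bc * D))) := by
  have hM4 := M4_ge S
  have hM2 := M2_ge' S
  have hw1 : 1 ≤ p.w := by linarith [S.w]
  have hMM : 0 ≤ MM' p := by
    rw [MM_eq S]
    positivity
  set A := (I4 p).filter (fun v => v / m = (Nat.unpair j).1) with hA
  set B := (I2 p).filter (fun v => v / m = (Nat.unpair j).2) with hB
  -- the index u
  obtain ⟨hu1, huQ, huχ⟩ := hU.ch u hu
  have huI := hU.adm u hu
  have hiI : psi i ⟨0, 1⟩ = 1 := by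
    rw [psi_eq hk hz hχ (cop_I _)]
    exact huI
  have hM2' : (i.1 : ℝ) ^ 2 ≤ p.M2 := by
    have h1 := M2_ge S
    have h2 : p.M4 = Real.sqrt p.N := rfl
    rw [← h2] at h1
    linarith
  -- the eta part
  have e1 := hETH p m j i S hm hi1 hχ hiI
  have e2 : G4 p m i (Nat.unpair j).1 = G4 p m u (Nat.unpair j).1 := G_eq hk hz hi1 hχ hsz
  have e3 : G2 p m i (Nat.unpair j).2 = G2 p m u (Nat.unpair j).2 := G_eq hk hz hi1 hχ hM2'
  rw [e2, e3, main_eq S] at e1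
  -- the kap part
  set K : Gi → ℂ := fun z => ∑ v4 ∈ A, ∑ v2 ∈ B, kap p U v4 v2 z with hK
  have e4 : ∑ z ∈ SJ p m j, HJ p U m j z * psi i z =
      ∑ v4 ∈ A, ∑ v2 ∈ B, S4 p u v4 * S2 p u v2 - ∑ z ∈ SJ p m j, K z * psi i z := by
    rw [← e1, ← sum_sub_distrib]
    refine sum_congr rfl fun z _ => ?_
    rw [← sub_mul]
    unfold HJ
    simp only [sum_sub_distrib]
    rfl
  have e5 : ∑ z ∈ SJ p m j, K z * psi i z = ∑ z ∈ SJ p m j, K z * psi u z -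
      ∑ z ∈ (SJ p m j).filter (fun z => ¬ IsCoprime z (i.1 : Gi)), K z * psi u z := by
    rw [sum_filter, ← sum_sub_distrib]
    refine sum_congr rfl fun z _ => ?_
    by_cases hc : IsCoprime z (i.1 : Gi)
    · rw [if_neg (not_not.2 hc), sub_zero, psi_eq hk hz hχ hc]
    · rw [if_pos hc, sub_self, psi_zero hχ hc, mul_zero]
  have e6 : ∑ z ∈ SJ p m j, K z * psi u z =
      ∑ v4 ∈ A, ∑ v2 ∈ B, ∑ z ∈ SJ p m j, kap p U v4 v2 z * psi u z := by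
    simp only [hK, Finset.sum_mul]
    rw [Finset.sum_comm]
    refine Finset.sum_congr rfl fun v4 _ => ?_
    rw [Finset.sum_comm]
  have e7 : ‖∑ v4 ∈ A, ∑ v2 ∈ B, (∑ z ∈ SJ p m j, kap p U v4 v2 z * psi u z -
      S4 p u v4 * S2 p u v2)‖ ≤ (I4 p).card * ((I2 p).card * (U.card * (Bc * D))) := by
    have hP : 0 ≤ (U.card : ℝ) * (Bc * D) :=
      mul_nonneg (Nat.cast_nonneg _) (mul_nonneg hBc hD0)
    have h5 : ∀ v4 ∈ A, ‖∑ v2 ∈ B, (∑ z ∈ SJ p m j, kap p U v4 v2 z * psi u z -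
        S4 p u v4 * S2 p u v2)‖ ≤ (I2 p).card * (U.card * (Bc * D)) := by
      intro v4 h4
      refine (norm_sum_le_of_le _ (fun v2 h2 => pair_le S hU hQ hQ2 hBc hD0 hD hRR hcc hm h4 h2
        hu)).trans ?_
      rw [sum_const, nsmul_eq_mul]
      apply mul_le_mul_of_nonneg_right _ hP
      exact_mod_cast card_le_card (filter_subset _ _)
    refine (norm_sum_le_of_le _ h5).trans ?_
    rw [sum_const, nsmul_eq_mul]
    apply mul_le_mul_of_nonneg_right _ (mul_nonneg (Nat.cast_nonneg _) hP)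
    exact_mod_cast card_le_card (filter_subset _ _)
  -- the elements which are not coprime to the modulus
  have hKL : ∀ z, ‖K z‖ ≤ L := by
    intro z
    refine le_trans ?_ (hL z)
    have h5 : ‖K z‖ ≤ ∑ v4 ∈ A, ∑ v2 ∈ B, ‖kap p U v4 v2 z‖ :=
      (norm_sum_le _ _).trans (sum_le_sum fun v4 _ => norm_sum_le _ _)
    have h6 : ∑ v4 ∈ A, ∑ v2 ∈ B, ‖kap p U v4 v2 z‖ ≤
        ∑ v4 ∈ I4 p, ∑ v2 ∈ I2 p, ‖kap p U v4 v2 z‖ := by
      refine (sum_le_sum fun v4 _ => sum_le_sum_of_subset_of_nonneg (filter_subset _ _)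
        fun v2 _ _ => norm_nonneg _).trans ?_
      exact sum_le_sum_of_subset_of_nonneg (filter_subset _ _)
        fun v4 _ _ => sum_nonneg fun v2 _ => norm_nonneg _
    have h7 : ∑ v4 ∈ I4 p, ∑ v2 ∈ I2 p, ‖kap p U v4 v2 z‖ ≤
        ∑ v4 ∈ I4 p, ∑ v2 ∈ I2 p, (‖eta p v4 v2 z‖ + ‖kap p U v4 v2 z‖) :=
      sum_le_sum fun v4 _ => sum_le_sum fun v2 _ => le_add_of_nonneg_left (norm_nonneg _)
    exact h5.trans (h6.trans h7)
  have e8 : ‖∑ z ∈ (SJ p m j).filter (fun z => ¬ IsCoprime z (i.1 : Gi)), K z * psi u z‖ ≤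
      40 * (1 + Real.log i.1) * L * MM' p / p.w := by
    have h5 : (((SJ p m j).filter (fun z => ¬ IsCoprime z (i.1 : Gi))).card : ℝ) ≤
        40 * (1 + Real.log i.1) * MM' p / p.w := by
      refine hNCD i.1 (MM' p) p.w _ hi1 hMM hw1 fun z hz' => ?_
      rw [mem_filter] at hz'
      have h6 := hz'.1
      unfold SJ at h6
      rw [mem_filter] at h6
      exact ⟨h6.1, h6.2.1, hz'.2⟩
    refine (norm_sum_le_of_le (n := fun _ => L) _ (fun z _ => ?_)).trans ?_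
    · rw [norm_mul]
      calc ‖K z‖ * ‖psi u z‖ ≤ L * 1 :=
            mul_le_mul (hKL z) (X.PSIM.norm_psi_le huχ z) (norm_nonneg _) hL0
        _ = L := mul_one L
    · rw [sum_const, nsmul_eq_mul]
      calc (((SJ p m j).filter (fun z => ¬ IsCoprime z (i.1 : Gi))).card : ℝ) * L ≤
            40 * (1 + Real.log i.1) * MM' p / p.w * L := mul_le_mul_of_nonneg_right h5 hL0
        _ = 40 * (1 + Real.log i.1) * L * MM' p / p.w := by ring
  -- conclusion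
  have e9 : ∑ z ∈ SJ p m j, HJ p U m j z * psi i z =
      ∑ z ∈ (SJ p m j).filter (fun z => ¬ IsCoprime z (i.1 : Gi)), K z * psi u z -
        ∑ v4 ∈ A, ∑ v2 ∈ B, (∑ z ∈ SJ p m j, kap p U v4 v2 z * psi u z -
          S4 p u v4 * S2 p u v2) := by
    rw [e4, e5, e6]
    simp only [sum_sub_distrib]
    ring
  rw [e9]
  exact (norm_sub_le _ _).trans (add_le_add e8 e7)

end Core

end HTAM

end Pool.Agent.Lib.MP391708.XU
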