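import Pool.Agent.Lib.MP_391708_nt.X.U.Spec
import Pool.Agent.Lib.MP_391708_nt.X.HM
import Pool.Agent.Lib.MP_391708_nt.MR.Basic

/-!
# THEOREM X (MP_391708), part U: module LVX (few characters have a large prime sum)
-/

set_option autoImplicit false

namespace Pool.Agent.Lib.MP391708.XU

open Finset Filter Topology Pool.Agent.Lib.MP391708.MR
open Pool.Agent.Lib.MP391708.X (ChiG hk Dist Fam Ix psi)
open scoped ComplexConjugate

namespace LVXM

lemma nm_nat (n : ℕ) : nm ((n : ℕ) : Gi) = n ^ 2 := by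
  have h1 : (((n : ℕ) : Gi)).re = (n : ℤ) := by simp
  have h2 : (((n : ℕ) : Gi)).im = 0 := by simp
  unfold nm
  rw [h1, h2]
  zify
  rw [abs_of_nonneg (by positivity)]
  ring

/-- powers of the logarithm are small -/
lemma log_pow_le (b c : ℝ) (hc : 0 < c) (C : ℝ) :
    ∀ᶠ N : ℝ in atTop, C * Real.log N ^ b + 1 ≤ (2 * Real.sqrt N) ^ c := by
  have h1 : Tendsto (fun N : ℝ => Real.sqrt N) atTop atTop := Real.tendsto_sqrt_atTop
  have h2 : (fun N : ℝ => Real.log N ^ b) =o[atTop] (fun N : ℝ => N ^ (c / 2)) :=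
    isLittleO_log_rpow_rpow_atTop b (by positivity)
  have h3 : (fun _ : ℝ => (1 : ℝ)) =o[atTop] (fun N : ℝ => N ^ (c / 2)) := by
    rw [Asymptotics.isLittleO_const_left]
    right
    exact tendsto_norm_atTop_atTop.comp (tendsto_rpow_atTop (by positivity))
  have h4 := (h2.const_mul_left C).add h3
  have h5 := h4.def (show (0 : ℝ) < 1 by norm_num)
  filter_upwards [h5, eventually_ge_atTop (1 : ℝ)] with N hN hN1
  have hN0 : 0 ≤ N := by linarith
  rw [Real.norm_of_nonneg (Real.rpow_nonneg hN0 _), one_mul] at hN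
  have h6 : N ^ (c / 2) ≤ (2 * Real.sqrt N) ^ c := by
    have h7 : N ^ (c / 2) = (Real.sqrt N) ^ c := by
      rw [Real.sqrt_eq_rpow, ← Real.rpow_mul hN0]
      congr 1
      ring
    rw [h7]
    apply Real.rpow_le_rpow (Real.sqrt_nonneg _) _ hc.le
    linarith [Real.sqrt_nonneg N]
  exact (le_abs_self _).trans (hN.trans h6)

end LVXM

open LVXM in
theorem specLVX (_ : SpecBRG) : SpecLVX := by
  intro a A₁ ha hA₁
  obtain ⟨c, hc0, hc1, hH⟩ := Pool.Agent.Lib.MP391708.X.hm_hmt 5 (by norm_num)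
  have ht : Tendsto (fun N : ℝ => 2 * Real.sqrt N) atTop atTop :=
    Real.tendsto_sqrt_atTop.const_mul_atTop (by norm_num)
  filter_upwards [ht.eventually hH, log_pow_le (2 * A₁) c hc0 300, log_pow_le (2 * a) c hc0 1,
    eventually_ge_atTop (3 : ℝ)] with N hN hL1 hL2 hN3 W G hG hW hD hbig
  by_contra hcon
  push Not at hcon
  have hN0 : 0 < N := by linarith
  have hl : 0 < Real.log N := Real.log_pos (by linarith)
  have hs : 0 < Real.sqrt N := Real.sqrt_pos.2 hN0
  have hss : Real.sqrt N ^ 2 = N := Real.sq_sqrt hN0.le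
  have hlA : 0 < Real.log N ^ (2 * A₁) := Real.rpow_pos_of_pos hl _
  set n : ℕ := ⌊300 * Real.log N ^ (2 * A₁)⌋₊ + 1 with hn
  have hnW : n ≤ W.card := by
    have : ⌊300 * Real.log N ^ (2 * A₁)⌋₊ < W.card := by
      rw [Nat.floor_lt (by positivity)]
      exact hcon
    omega
  obtain ⟨W', hW'W, hW'c⟩ := Finset.exists_subset_card_eq hnW
  have hn1 : (n : ℝ) ≤ 300 * Real.log N ^ (2 * A₁) + 1 := by
    rw [hn]
    push_cast
    linarith [Nat.floor_le (show 0 ≤ 300 * Real.log N ^ (2 * A₁) by positivity)]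
  have hn2 : 300 * Real.log N ^ (2 * A₁) < n := by
    rw [hn]
    push_cast
    exact Nat.lt_floor_add_one _
  have hx1 : (1 : ℝ) ≤ 2 * Real.sqrt N := by
    have : (1 : ℝ) ≤ Real.sqrt N := by
      rw [Real.one_le_sqrt]
      linarith
    linarith
  have hfam : Fam W' (fun i : Ix => i.2.1) (fun i : Ix => i.2.2) ((2 * Real.sqrt N) ^ c)
      ((2 * Real.sqrt N) ^ (5 : ℝ)) := by
    refine ⟨fun i hi => ?_, fun i hi => ?_, fun i hi j hj hij => ?_⟩
    · obtain ⟨h1, h2, h3, h4⟩ := hW i (hW'W hi)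
      refine ⟨((i.1 : ℕ) : Gi), ?_, h3⟩
      rw [nm_nat]
      push_cast
      have h5 : (i.1 : ℝ) ^ 2 ≤ (Real.log N ^ a) ^ 2 := by
        apply pow_le_pow_left₀ (by positivity) h2
      have h6 : (Real.log N ^ a) ^ 2 = Real.log N ^ (2 * a) := by
        rw [← Real.rpow_natCast, ← Real.rpow_mul hl.le]
        congr 1
        push_cast
        ring
      rw [h6] at h5
      linarith
    · obtain ⟨h1, h2, h3, h4⟩ := hW i (hW'W hi)
      refine h4.trans ?_
      have h5 : N ^ 2 = Real.sqrt N ^ (4 : ℝ) := by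
        rw [show (4 : ℝ) = ((4 : ℕ) : ℝ) by norm_num, Real.rpow_natCast,
          show Real.sqrt N ^ 4 = (Real.sqrt N ^ 2) ^ 2 by ring, hss]
      rw [h5]
      calc Real.sqrt N ^ (4 : ℝ) ≤ (2 * Real.sqrt N) ^ (4 : ℝ) :=
            Real.rpow_le_rpow hs.le (by linarith) (by norm_num)
        _ ≤ (2 * Real.sqrt N) ^ (5 : ℝ) := Real.rpow_le_rpow_of_exponent_le hx1 (by norm_num)
    · exact hD i (hW'W hi) j (hW'W hj) hij
  have hcard : (W'.card : ℝ) ≤ (2 * Real.sqrt N) ^ c := by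
    rw [hW'c]
    linarith
  classical
  have key := hN Ix W' (fun i => i.2.1) (fun i => i.2.2) hfam hcard (Real.sqrt N)
    (2 * Real.sqrt N) (fun z => if z ∈ G then 1 else 0) hs.le (by linarith) le_rfl
  have hGann : G ⊆ ann (Real.sqrt N) (2 * Real.sqrt N) := by
    intro z hz
    have hz' := hG hz
    rw [mem_ann]
    exact ⟨GP_ne_zero hz', (mem_GP.1 hz').2.2.2.2.1, (mem_GP.1 hz').2.2.2.2.2⟩
  have hsum : ∀ i ∈ W', ∑ z ∈ ann (Real.sqrt N) (2 * Real.sqrt N),
      (if z ∈ G then (1 : ℂ) else 0) * hk (i : Ix).2.1 i.2.2 z = ∑ π ∈ G, psi i π := by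
    intro i _
    simp only [ite_mul, one_mul, zero_mul]
    rw [← Finset.sum_filter]
    congr 1
    ext z
    rw [mem_filter]
    exact ⟨fun h => h.2, fun h => ⟨hGann h, h⟩⟩
  have hnorm : ∑ z ∈ ann (Real.sqrt N) (2 * Real.sqrt N), ‖(if z ∈ G then (1 : ℂ) else 0)‖ ^ 2 =
      (G.card : ℝ) := by
    have : ∀ z : Gi, ‖(if z ∈ G then (1 : ℂ) else 0)‖ ^ 2 = if z ∈ G then (1 : ℝ) else 0 := by
      intro z
      split_ifs <;> simp
    simp only [this]
    rw [← Finset.sum_filter]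
    have h2 : (ann (Real.sqrt N) (2 * Real.sqrt N)).filter (fun z => z ∈ G) = G := by
      ext z
      rw [mem_filter]
      exact ⟨fun h => h.2, fun h => ⟨hGann h, h⟩⟩
    rw [h2]
    simp
  have hGc : (G.card : ℝ) ≤ 18 * Real.sqrt N := by
    have h1 : G ⊆ disc (2 * Real.sqrt N) := hGann.trans (ann_subset_disc _ _)
    have h2 : (G.card : ℝ) ≤ (disc (2 * Real.sqrt N)).card := by exact_mod_cast card_le_card h1
    have h3 := card_disc_le (show (0 : ℝ) ≤ 2 * Real.sqrt N by positivity)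
    linarith
  rw [hnorm] at key
  have hlow : (n : ℝ) * (Real.sqrt N * Real.log N ^ (-A₁)) ^ 2 ≤
      ∑ i ∈ W', ‖∑ z ∈ ann (Real.sqrt N) (2 * Real.sqrt N),
      (if z ∈ G then (1 : ℂ) else 0) * hk (i : Ix).2.1 i.2.2 z‖ ^ 2 := by
    rw [← hW'c, ← nsmul_eq_mul, ← Finset.sum_const]
    apply Finset.sum_le_sum
    intro i hi
    rw [hsum i hi]
    apply pow_le_pow_left₀ (by positivity) (hbig i (hW'W hi)).le
  have hup : (Real.pi * (2 * Real.sqrt N - Real.sqrt N) + (2 * Real.sqrt N) ^ (1 - c)) * G.card ≤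
      108 * N := by
    have h1 : (2 * Real.sqrt N) ^ (1 - c) ≤ 2 * Real.sqrt N := by
      calc (2 * Real.sqrt N) ^ (1 - c) ≤ (2 * Real.sqrt N) ^ (1 : ℝ) :=
            Real.rpow_le_rpow_of_exponent_le hx1 (by linarith)
        _ = 2 * Real.sqrt N := Real.rpow_one _
    have h2 : Real.pi * (2 * Real.sqrt N - Real.sqrt N) ≤ 4 * Real.sqrt N := by
      nlinarith [Real.pi_le_four, hs]
    calc (Real.pi * (2 * Real.sqrt N - Real.sqrt N) + (2 * Real.sqrt N) ^ (1 - c)) * G.card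
        ≤ (6 * Real.sqrt N) * (18 * Real.sqrt N) := by
          apply mul_le_mul (by linarith) hGc (by positivity) (by positivity)
      _ = 108 * Real.sqrt N ^ 2 := by ring
      _ = 108 * N := by rw [hss]
  have hfin : (n : ℝ) * (Real.sqrt N * Real.log N ^ (-A₁)) ^ 2 ≤ 108 * N :=
    (hlow.trans key).trans hup
  have h7 : (Real.sqrt N * Real.log N ^ (-A₁)) ^ 2 = N * (Real.log N ^ (2 * A₁))⁻¹ := by
    rw [mul_pow, hss, ← Real.rpow_natCast, ← Real.rpow_mul hl.le, ← Real.rpow_neg hl.le]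
    congr 2
    push_cast
    ring
  rw [h7] at hfin
  have h8 : (n : ℝ) ≤ 108 * Real.log N ^ (2 * A₁) := by
    have h9 : (n : ℝ) * (N * (Real.log N ^ (2 * A₁))⁻¹) * Real.log N ^ (2 * A₁) ≤
        108 * N * Real.log N ^ (2 * A₁) := mul_le_mul_of_nonneg_right hfin hlA.le
    have h10 : (n : ℝ) * (N * (Real.log N ^ (2 * A₁))⁻¹) * Real.log N ^ (2 * A₁) = n * N := by
      field_simp
    rw [h10] at h9
    nlinarith
  linarith

end Pool.Agent.Lib.MP391708.XU
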