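import Pool.Agent.Lib.MP_391708_nt.X.U.Spec

set_option autoImplicit false

namespace Pool.Agent.Lib.MP391708.XU

open Finset Filter Topology Pool.Agent.Lib.MP391708.MR
open Pool.Agent.Lib.MP391708.X (Par par ChiG hk Dist Fam rgh Ix psi ix1 UOK lc RR S4 S2 I4 I2 eta kap Eta Kap On Var)
open scoped ComplexConjugate

namespace NCDM

lemma nm_mprod (s : Multiset Gi) : nm s.prod = (s.map nm).prod := by
  induction s using Multiset.induction_on with
  | empty => simp
  | cons a s ih => rw [Multiset.prod_cons, nm_mul, ih, Multiset.map_cons, Multiset.prod_cons]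

lemma two_le_nm {q : Gi} (hq : Prime q) : 2 ≤ nm q := by
  have h0 : 0 < nm q := nm_pos hq.ne_zero
  have h1 : nm q ≠ 1 := by
    intro h
    apply hq.not_unit
    rw [nm_norm] at h
    exact Zsqrtd.norm_eq_one_iff.1 h
  omega

lemma pow_card_le (s : Multiset Gi) (h : ∀ q ∈ s, Prime q) : 2 ^ s.card ≤ (s.map nm).prod := by
  induction s using Multiset.induction_on with
  | empty => simp
  | cons a s ih =>
    rw [Multiset.card_cons, Multiset.map_cons, Multiset.prod_cons, pow_succ, mul_comm]
    exact Nat.mul_le_mul (two_le_nm (h a (Multiset.mem_cons_self a s)))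
      (ih (fun q hq => h q (Multiset.mem_cons_of_mem hq)))

lemma nm_nat' (t : ℕ) : nm (t : Gi) = t ^ 2 := by
  have h : ((nm (t : Gi) : ℕ) : ℤ) = ((t ^ 2 : ℕ) : ℤ) := by
    rw [nm_cast]
    have h1 : ((t : Gi)).re = (t : ℤ) := by simp
    have h2 : ((t : Gi)).im = 0 := by simp
    rw [h1, h2]
    push_cast
    ring
  exact_mod_cast h

lemma nm_assoc {a b : Gi} (h : Associated a b) : nm a = nm b :=
  Nat.dvd_antisymm (nm_dvd h.dvd) (nm_dvd h.symm.dvd)

open UniqueFactorizationMonoid in
lemma card_factors {t : ℕ} (ht : 1 ≤ t) :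
    ((factors (t : Gi)).card : ℝ) ≤ 3 * Real.log t := by
  have ht0 : (t : Gi) ≠ 0 := by
    intro h
    have h1 := nm_nat' t
    rw [h] at h1
    have h2 : 0 < t ^ 2 := by positivity
    simp at h1
    omega
  have h1 := pow_card_le (factors (t : Gi)) (fun q hq => prime_of_factor q hq)
  rw [← nm_mprod, nm_assoc (factors_prod ht0), nm_nat'] at h1
  have h2 : ((2 : ℝ)) ^ (factors (t : Gi)).card ≤ (t : ℝ) ^ 2 := by exact_mod_cast h1
  have h3 := Real.log_le_log (by positivity) h2
  rw [Real.log_pow, Real.log_pow] at h3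
  have h4 : (0.6931471803 : ℝ) < Real.log 2 := Real.log_two_gt_d9
  have h5 : (0 : ℝ) ≤ (factors (t : Gi)).card := by positivity
  have h6 : (0 : ℝ) ≤ Real.log t := Real.log_natCast_nonneg t
  push_cast at h3
  nlinarith

end NCDM

open NCDM UniqueFactorizationMonoid in
theorem specNCD : SpecNCD := by
  classical
  intro t M w S ht hM hw hS
  have ht0 : (t : Gi) ≠ 0 := by
    intro h
    have h1 := nm_nat' t
    rw [h] at h1
    have h2 : 0 < t ^ 2 := by positivity
    simp at h1
    omega
  have hw0 : 0 < w := by linarith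
  set F : Finset Gi := (factors (t : Gi)).toFinset.filter (fun q => w < (nm q : ℝ)) with hF
  have hsub : S ⊆ F.biUnion (fun q => (disc (M / nm q)).image (fun z => q * z)) := by
    intro z hz
    obtain ⟨hd, hr, hc⟩ := hS z hz
    rw [mem_disc] at hd
    have h1 : ∃ π : Gi, Prime π ∧ π ∣ z ∧ π ∣ (t : Gi) := by
      by_contra hcon
      push Not at hcon
      exact hc (isCoprime_of_prime_dvd (fun h => ht0 h.2) (fun q hq hqz => hcon q hq hqz))
    obtain ⟨π, hπ, hπz, hπt⟩ := h1
    obtain ⟨q, hq, hqa⟩ := exists_mem_factors_of_dvd ht0 hπ.irreducible hπt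
    have hqz : q ∣ z := hqa.symm.dvd.trans hπz
    have hqp : Prime q := prime_of_factor q hq
    have hwq : w < (nm q : ℝ) := hr q hqp hqz
    obtain ⟨z', rfl⟩ := hqz
    rw [mem_biUnion]
    refine ⟨q, ?_, ?_⟩
    · rw [hF, mem_filter, Multiset.mem_toFinset]
      exact ⟨hq, hwq⟩
    · rw [mem_image]
      refine ⟨z', ?_, rfl⟩
      rw [mem_disc]
      have hz' : z' ≠ 0 := fun h => hd.1 (by rw [h, mul_zero])
      refine ⟨hz', ?_⟩
      have h2 := hd.2
      rw [nm_mul] at h2
      push_cast at h2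
      have h3 : (0 : ℝ) < nm q := by linarith
      rw [le_div_iff₀ h3]
      linarith
  have hcard : (F.card : ℝ) ≤ 3 * Real.log t := by
    have h1 : F.card ≤ (factors (t : Gi)).card :=
      (Finset.card_filter_le _ _).trans (Multiset.toFinset_card_le _)
    have h2 : (F.card : ℝ) ≤ ((factors (t : Gi)).card : ℝ) := by exact_mod_cast h1
    exact h2.trans (card_factors ht)
  have h1 : (S.card : ℝ) ≤ ∑ q ∈ F, 9 * (M / w) := by
    have h2 : (S.card : ℝ) ≤
        ((F.biUnion (fun q => (disc (M / nm q)).image (fun z => q * z))).card : ℝ) := by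
      exact_mod_cast Finset.card_le_card hsub
    have h3 : ((F.biUnion (fun q => (disc (M / nm q)).image (fun z => q * z))).card : ℝ) ≤
        ∑ q ∈ F, (((disc (M / nm q)).image (fun z => q * z)).card : ℝ) := by
      exact_mod_cast Finset.card_biUnion_le
    refine (h2.trans h3).trans (Finset.sum_le_sum (fun q hq => ?_))
    rw [hF, mem_filter] at hq
    have h4 : (0 : ℝ) < nm q := by linarith [hq.2]
    have h5 : (((disc (M / nm q)).image (fun z => q * z)).card : ℝ) ≤ ((disc (M / nm q)).card : ℝ) := by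
      exact_mod_cast Finset.card_image_le
    have h6 : ((disc (M / nm q)).card : ℝ) ≤ 9 * (M / nm q) := card_disc_le (by positivity)
    have h7 : M / nm q ≤ M / w := div_le_div_of_nonneg_left hM hw0 hq.2.le
    linarith
  rw [Finset.sum_const, nsmul_eq_mul] at h1
  have h8 : 0 ≤ M / w := by positivity
  have h9 : (F.card : ℝ) * (9 * (M / w)) ≤ (3 * Real.log t) * (9 * (M / w)) :=
    mul_le_mul_of_nonneg_right hcard (by positivity)
  have h10 : (0 : ℝ) ≤ Real.log t := Real.log_natCast_nonneg t
  have h11 : 40 * (1 + Real.log t) * M / w = 40 * (1 + Real.log t) * (M / w) := by ring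
  rw [h11]
  nlinarith [mul_nonneg h10 h8]

end Pool.Agent.Lib.MP391708.XU
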