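import Pool.Agent.Lib.MP_391708_nt.X.U.Spec
import Pool.Agent.Lib.MP_391708_nt.MR.Basic

/-!
# THEOREM X (MP_391708), part U, module PRC: the hypotheses of the variance inequality
-/

set_option autoImplicit false

namespace Pool.Agent.Lib.MP391708.XU

open Finset Filter Topology Pool.Agent.Lib.MP391708.MR
open Pool.Agent.Lib.MP391708.X (Par par ChiG hk Dist Fam rgh Ix psi ix1 UOK lc RR S4 S2 I4 I2 eta kap Eta Kap On Var)
open Pool.Agent.Lib.MP391708.XV (md chs ph hat atyp)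
open scoped ComplexConjugate

namespace PRCM

theorem half_floor {x : ℝ} (hx : 1 ≤ x) : x / 2 ≤ (⌊x⌋₊ : ℝ) ∧ 1 ≤ ⌊x⌋₊ := by
  have h1 : 1 ≤ ⌊x⌋₊ := Nat.floor_pos.2 hx
  have h2 : (1 : ℝ) ≤ (⌊x⌋₊ : ℝ) := by exact_mod_cast h1
  have h3 := Nat.lt_floor_add_one x
  exact ⟨by linarith, h1⟩

theorem mem_cell {h P Q : ℝ} {v : ℕ} {z : Gi} :
    z ∈ cell h P Q v ↔ z ∈ GP P Q ∧ ⌊h * Real.log (nm z)⌋₊ = v := by
  unfold cell
  rw [mem_filter]

theorem mem_SJ {p : Par} {m j : ℕ} {z : Gi} : z ∈ SJ p m j ↔ z ∈ disc (MM' p) ∧ rgh p.w z ∧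
    m * ((Nat.unpair j).1 + (Nat.unpair j).2) ≤ ⌊p.h * Real.log (nm z)⌋₊ ∧
      ⌊p.h * Real.log (nm z)⌋₊ + 1 ≤ m * ((Nat.unpair j).1 + (Nat.unpair j).2) + 2 * m := by
  classical
  unfold SJ
  exact Finset.mem_filter

theorem mem_GP' {P Q : ℝ} {z : Gi} (h : z ∈ GP P Q) : z ≠ 0 ∧ (nm z : ℝ) ≤ Q ∧ P < (nm z : ℝ) := by
  unfold GP at h
  rw [mem_filter, mem_disc] at h
  exact ⟨h.1.1, h.1.2, h.2.2.2.2.2⟩

theorem GP_sub {P Q P' Q' : ℝ} (h1 : P' ≤ P) (h2 : Q ≤ Q') : GP P Q ⊆ GP P' Q' := by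
  intro z hz
  unfold GP at hz ⊢
  rw [mem_filter, mem_disc] at hz ⊢
  exact ⟨⟨hz.1.1, hz.1.2.trans h2⟩, hz.2.1, hz.2.2.1, hz.2.2.2.1, hz.2.2.2.2.1,
    lt_of_le_of_lt h1 hz.2.2.2.2.2⟩

theorem one_le_nm {z : Gi} (hz : z ≠ 0) : (1 : ℝ) ≤ (nm z : ℝ) := by
  have h0 : nm z ≠ 0 := by
    intro h
    apply hz
    unfold nm at h
    rw [Int.natAbs_eq_zero] at h
    have h1 : z.re = 0 := by nlinarith [sq_nonneg z.re, sq_nonneg z.im]
    have h2 : z.im = 0 := by nlinarith [sq_nonneg z.re, sq_nonneg z.im]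
    exact Zsqrtd.ext h1 h2
  exact_mod_cast Nat.one_le_iff_ne_zero.2 h0

/-- the norm and the floor of `h log`. -/
theorem floor_log {h x : ℝ} {a b : ℕ} (hh : 0 < h) (hx : 1 ≤ x) (ha : a ≤ ⌊h * Real.log x⌋₊)
    (hb : ⌊h * Real.log x⌋₊ + 1 ≤ b) : Real.exp (a / h) ≤ x ∧ x ≤ Real.exp (b / h) := by
  have hx0 : 0 < x := by linarith
  have h0 : 0 ≤ h * Real.log x := mul_nonneg hh.le (Real.log_nonneg hx)
  have h1 : (a : ℝ) ≤ h * Real.log x := (Nat.cast_le.2 ha).trans (Nat.floor_le h0)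
  have h2 : h * Real.log x ≤ b := by
    have := Nat.lt_floor_add_one (h * Real.log x)
    have h3 : ((⌊h * Real.log x⌋₊ + 1 : ℕ) : ℝ) ≤ b := Nat.cast_le.2 hb
    push_cast at h3
    linarith
  constructor
  · rw [← Real.le_log_iff_exp_le hx0, div_le_iff₀ hh]
    linarith
  · rw [← Real.log_le_iff_le_exp hx0, le_div_iff₀ hh]
    linarith

/-- the range of the indices of coarse cells -/
theorem II_bound {h M : ℝ} {m a : ℕ} (hh : 0 < h) (hM : 1 ≤ M) (hm : 1 ≤ m)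
    (ha : a ∈ (VV h M (2 * M)).image (fun v => v / m)) :
    h * Real.log M - m - 1 ≤ (m : ℝ) * a ∧ (m : ℝ) * a ≤ h * Real.log (2 * M) := by
  rw [mem_image] at ha
  obtain ⟨v, hv, rfl⟩ := ha
  unfold VV at hv
  rw [mem_Icc] at hv
  have h0 : 0 ≤ h * Real.log (2 * M) := mul_nonneg hh.le (Real.log_nonneg (by linarith))
  have h1 : (v : ℝ) ≤ h * Real.log (2 * M) := (Nat.cast_le.2 hv.2).trans (Nat.floor_le h0)
  have h2 : h * Real.log M - 1 ≤ v := by
    have := Nat.lt_floor_add_one (h * Real.log M)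
    have h3 : (⌊h * Real.log M⌋₊ : ℝ) ≤ v := Nat.cast_le.2 hv.1
    linarith
  have h4 : m * (v / m) ≤ v := Nat.mul_div_le v m
  have h5 : v < m * (v / m) + m := by
    have := Nat.lt_mul_div_succ v (show 0 < m by omega)
    rw [Nat.mul_add, Nat.mul_one] at this
    exact this
  have h4' : (m : ℝ) * ((v / m : ℕ) : ℝ) ≤ v := by exact_mod_cast h4
  have h5' : (v : ℝ) < (m : ℝ) * ((v / m : ℕ) : ℝ) + m := by exact_mod_cast h5
  constructor <;> linarith

/-- the geometric part: the cells `L i j`. -/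
theorem cells {p : Par} {hc : ℝ} {m : ℕ} (S : Siz p) (hhc : 6 ≤ hc) (hm : 1 ≤ m)
    (hmh : (m : ℝ) ≤ p.h / hc) {i j : ℕ} (hi : i ∈ VV hc p.P (2 * p.P)) (hj : j ∈ JJ p m) :
    (2 * p.N * p.T) / 1000 ≤ Real.exp (i / hc) *
        Real.exp (m * ((Nat.unpair j).1 + (Nat.unpair j).2) / p.h) ∧
      Real.exp (3 / hc) * (Real.exp (i / hc) *
        Real.exp (m * ((Nat.unpair j).1 + (Nat.unpair j).2) / p.h)) ≤ 2 * p.N * p.T := by
  have hN : 0 < p.N := by linarith [S.N]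
  have hP : 0 < p.P := by linarith [S.P]
  have hT : 0 < p.T := by linarith [S.T]
  have hh : 0 < p.h := by linarith [S.h]
  have hc0 : 0 < hc := by linarith
  have hs : 10 ≤ Real.sqrt p.N := by
    have h1 : Real.sqrt (10 ^ 2) ≤ Real.sqrt p.N := Real.sqrt_le_sqrt (by have := S.N; linarith)
    rwa [Real.sqrt_sq (by norm_num)] at h1
  have hM4 : 1 ≤ p.M4 := by unfold Par.M4; linarith
  have hM2 : 1 ≤ p.M2 := by
    unfold Par.M2
    rw [le_div_iff₀ (by positivity)]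
    nlinarith [S.T, S.P]
  unfold JJ at hj
  rw [mem_image] at hj
  obtain ⟨⟨a, b⟩, hab, rfl⟩ := hj
  rw [mem_product] at hab
  rw [Nat.unpair_pair]
  have ha := II_bound hh hM4 hm hab.1
  have hb := II_bound hh hM2 hm hab.2
  have hmm : (m : ℝ) / p.h ≤ 1 / hc := by
    rw [div_le_div_iff₀ hh hc0]
    rw [le_div_iff₀ hc0] at hmh
    linarith
  have hh1 : 1 / p.h ≤ 1 / hc := by
    have h1 : (1 : ℝ) ≤ m := by exact_mod_cast hm
    refine le_trans ?_ hmm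
    gcongr
  unfold VV at hi
  rw [mem_Icc] at hi
  have hi1 : hc * Real.log p.P - 1 ≤ i := by
    have := Nat.lt_floor_add_one (hc * Real.log p.P)
    have h3 : (⌊hc * Real.log p.P⌋₊ : ℝ) ≤ i := Nat.cast_le.2 hi.1
    linarith
  have hi2 : (i : ℝ) ≤ hc * Real.log (2 * p.P) :=
    (Nat.cast_le.2 hi.2).trans (Nat.floor_le (mul_nonneg hc0.le (Real.log_nonneg (by linarith [S.P]))))
  have e1 : Real.log p.P - 1 / hc ≤ i / hc := by
    rw [le_div_iff₀ hc0]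
    have : (Real.log p.P - 1 / hc) * hc = hc * Real.log p.P - 1 := by field_simp
    linarith
  have e2 : (i : ℝ) / hc ≤ Real.log (2 * p.P) := by
    rw [div_le_iff₀ hc0]
    linarith
  have e3 : Real.log p.M4 + Real.log p.M2 - 4 / hc ≤ (m : ℝ) * ((a : ℝ) + b) / p.h := by
    have h1 : Real.log p.M4 + Real.log p.M2 - 2 * ((m : ℝ) / p.h) - 2 * (1 / p.h) ≤
        (m : ℝ) * ((a : ℝ) + b) / p.h := by
      rw [le_div_iff₀ hh]
      have : (Real.log p.M4 + Real.log p.M2 - 2 * ((m : ℝ) / p.h) - 2 * (1 / p.h)) * p.h =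
        (p.h * Real.log p.M4 - m - 1) + (p.h * Real.log p.M2 - m - 1) := by
        field_simp
        ring
      rw [this]
      nlinarith [ha.1, hb.1]
    have h2 : 4 / hc = 2 * (1 / hc) + 2 * (1 / hc) := by ring
    linarith
  have e4 : (m : ℝ) * ((a : ℝ) + b) / p.h ≤ Real.log (2 * p.M4) + Real.log (2 * p.M2) := by
    rw [div_le_iff₀ hh]
    nlinarith [ha.2, hb.2]
  have hprod : p.P * p.M4 * p.M2 = p.N * p.T / 16 := by
    unfold Par.M4 Par.M2
    have h1 := Real.mul_self_sqrt hN.le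
    have h2 : p.P * Real.sqrt p.N * (Real.sqrt p.N * p.T / (16 * p.P)) =
      (Real.sqrt p.N * Real.sqrt p.N) * (p.P * p.T / (16 * p.P)) := by ring
    rw [h2, h1]
    field_simp
  have h5 : 5 / hc ≤ 5 / 6 := by
    apply div_le_div_of_nonneg_left <;> linarith
  have h3 : 3 / hc ≤ 1 / 2 := by
    rw [div_le_iff₀ hc0]
    linarith
  have hM40 : 0 < p.M4 := by linarith
  have hM20 : 0 < p.M2 := by linarith
  constructor
  · rw [← Real.exp_add]
    have h1 : Real.log p.P + Real.log p.M4 + Real.log p.M2 - 5 / 6 ≤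
        (i : ℝ) / hc + (m : ℝ) * ((a : ℝ) + b) / p.h := by
      have : (5 : ℝ) / hc = 1 / hc + 4 / hc := by ring
      linarith
    have h2 : Real.exp (Real.log p.P + Real.log p.M4 + Real.log p.M2 - 5 / 6) =
        p.P * p.M4 * p.M2 * Real.exp (-(5 / 6)) := by
      rw [sub_eq_add_neg, Real.exp_add, Real.exp_add, Real.exp_add, Real.exp_log hP,
        Real.exp_log hM40, Real.exp_log hM20]
    have h4 : (1 : ℝ) / 6 ≤ Real.exp (-(5 / 6)) := by
      have := Real.add_one_le_exp (-(5 / 6) : ℝ)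
      norm_num at this ⊢
      linarith
    refine le_trans ?_ (Real.exp_le_exp.2 h1)
    rw [h2, hprod]
    have h6 : 0 < p.N * p.T := mul_pos hN hT
    nlinarith
  · rw [← Real.exp_add, ← Real.exp_add]
    have h1 : 3 / hc + ((i : ℝ) / hc + (m : ℝ) * ((a : ℝ) + b) / p.h) ≤
        1 / 2 + (Real.log (2 * p.P) + (Real.log (2 * p.M4) + Real.log (2 * p.M2))) := by
      linarith
    refine le_trans (Real.exp_le_exp.2 h1) ?_
    rw [Real.exp_add, Real.exp_add, Real.exp_add, Real.exp_log (by linarith),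
      Real.exp_log (by linarith), Real.exp_log (by linarith)]
    have h2 : 2 * p.P * (2 * p.M4 * (2 * p.M2)) = p.N * p.T / 2 := by
      have : 2 * p.P * (2 * p.M4 * (2 * p.M2)) = 8 * (p.P * p.M4 * p.M2) := by ring
      rw [this, hprod]
      ring
    rw [h2]
    have h4 : Real.exp (1 / 2) ≤ 4 := by
      have h7 : Real.exp (1 / 2) ≤ Real.exp 1 := Real.exp_le_exp.2 (by norm_num)
      have := Real.exp_one_lt_d9
      linarith
    have h6 : 0 < p.N * p.T := mul_pos hN hT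
    nlinarith

theorem cellL {p : Par} {hc : ℝ} {m : ℕ} (S : Siz p) (hhc : 6 ≤ hc)
    (hmh : (m : ℝ) ≤ p.h / hc) {i j : ℕ} {π z : Gi} (hπ : π ∈ cell hc p.P (2 * p.P) i)
    (hz : z ∈ SJ p m j) :
    Real.exp (i / hc) * Real.exp (m * ((Nat.unpair j).1 + (Nat.unpair j).2) / p.h) ≤
        (nm (π * z) : ℝ) ∧
      (nm (π * z) : ℝ) ≤ Real.exp (3 / hc) * (Real.exp (i / hc) *
        Real.exp (m * ((Nat.unpair j).1 + (Nat.unpair j).2) / p.h)) := by
  have hh : 0 < p.h := by linarith [S.h]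
  have hc0 : 0 < hc := by linarith
  rw [mem_cell] at hπ
  rw [mem_SJ, mem_disc] at hz
  have h1 := floor_log (a := i) (b := i + 1) hc0 (one_le_nm (mem_GP' hπ.1).1) hπ.2.ge
    (by rw [hπ.2])
  have h2 := floor_log (a := m * ((Nat.unpair j).1 + (Nat.unpair j).2))
    (b := m * ((Nat.unpair j).1 + (Nat.unpair j).2) + 2 * m) hh (one_le_nm hz.1.1) hz.2.2.1 hz.2.2.2
  have hn : (nm (π * z) : ℝ) = (nm π : ℝ) * nm z := by
    rw [nm_mul]
    push_cast
    rfl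
  have hc1 : (((m * ((Nat.unpair j).1 + (Nat.unpair j).2) : ℕ)) : ℝ) =
      (m : ℝ) * (((Nat.unpair j).1 : ℝ) + (Nat.unpair j).2) := by push_cast; rfl
  have hc2 : (((m * ((Nat.unpair j).1 + (Nat.unpair j).2) + 2 * m : ℕ)) : ℝ) =
      (m : ℝ) * (((Nat.unpair j).1 : ℝ) + (Nat.unpair j).2) + 2 * m := by push_cast; rfl
  rw [hc1, hc2] at h2
  rw [hn]
  constructor
  · exact mul_le_mul h1.1 h2.1 (Real.exp_pos _).le (by positivity)
  · refine (mul_le_mul h1.2 h2.2 (by positivity) (Real.exp_pos _).le).trans ?_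
    rw [← Real.exp_add, ← Real.exp_add, ← Real.exp_add]
    apply Real.exp_le_exp.2
    have h3 : (m : ℝ) / p.h ≤ 1 / hc := by
      rw [div_le_div_iff₀ hh hc0]
      rw [le_div_iff₀ hc0] at hmh
      linarith
    have h4 : (((i + 1 : ℕ)) : ℝ) / hc = i / hc + 1 / hc := by
      push_cast
      ring
    have h5 : ((m : ℝ) * (((Nat.unpair j).1 : ℝ) + (Nat.unpair j).2) + 2 * m) / p.h =
        (m : ℝ) * (((Nat.unpair j).1 : ℝ) + (Nat.unpair j).2) / p.h + 2 * ((m : ℝ) / p.h) := by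
      ring
    have h6 : (3 : ℝ) / hc = 1 / hc + 2 * (1 / hc) := by ring
    rw [h4, h5, h6]
    linarith

theorem ev_log_le (s r : ℝ) (hr : 0 < r) : ∀ᶠ N : ℝ in atTop, Real.log N ^ s ≤ N ^ r := by
  have h := (isLittleO_log_rpow_rpow_atTop s hr).bound (show (0 : ℝ) < 1 by norm_num)
  filter_upwards [h, eventually_ge_atTop (1 : ℝ)] with N hN h1
  have h2 : 0 ≤ N ^ r := Real.rpow_nonneg (by linarith) r
  rw [one_mul, Real.norm_eq_abs, Real.norm_eq_abs, abs_of_nonneg h2] at hN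
  exact (le_abs_self _).trans hN

/-- all the sizes -/
theorem sizes {ch0 a₀ aF cw ch cP cT cB : ℝ} (h1 : 1 ≤ ch0) (h2 : 0 < a₀) (h3 : a₀ + 1 ≤ aF)
    (h5 : 1 ≤ cw) (h7 : ch0 + 1 ≤ ch) (h8 : cw + 1 ≤ cP) (h9 : cP + a₀ + 2 ≤ cT)
    (h10 : cT + aF + 1 ≤ cB) {N B : ℝ} (hl : 64 ≤ Real.log N) (hN : 2 * 80000 ^ 2 ≤ N)
    (hT : Real.log N ^ cT ≤ N ^ (1 / 8 : ℝ))
    (hB : Real.log N ^ cB ≤ B) (hB2 : B ^ 2 ≤ 2 * N) :
    Siz (par N cT cP ch cw) ∧ 6 ≤ Real.log N ^ ch0 ∧ 1 ≤ Real.log N ^ ch / Real.log N ^ ch0 ∧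
      1 ≤ Real.log N ^ (cT - a₀) ∧ Real.log N ^ (cT - a₀) ≤ Real.log N ^ cT ∧
      64 * Real.log N ^ cT ≤ Real.log N ^ (cT - a₀) * Real.log N ^ aF ∧
      1 ≤ Real.log N ^ aF ∧ 80000 * B ≤ N ∧ 5 * Real.log N ^ cT ≤ B ∧ 64 ≤ B ∧
      64 ≤ Real.log N ^ cT ∧ (Real.log N ^ cT) ^ 2 * 100 ≤ Real.sqrt N := by
  have hl1 : (1 : ℝ) ≤ Real.log N := by linarith
  have hl0 : (0 : ℝ) < Real.log N := by linarith
  have hN0 : 0 < N := by linarith
  have mono : ∀ {a b : ℝ}, a ≤ b → Real.log N ^ a ≤ Real.log N ^ b := fun h =>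
    Real.rpow_le_rpow_of_exponent_le hl1 h
  have ge64 : ∀ {a : ℝ}, 1 ≤ a → 64 ≤ Real.log N ^ a := fun h => by
    have := mono h
    rw [Real.rpow_one] at this
    linarith
  have step : ∀ {a b : ℝ}, a + 1 ≤ b → 64 * Real.log N ^ a ≤ Real.log N ^ b := fun {a b} h => by
    have h1 := mono h
    rw [Real.rpow_add hl0, Real.rpow_one] at h1
    have h2 : 0 < Real.log N ^ a := Real.rpow_pos_of_pos hl0 a
    nlinarith
  have hcT : 1 ≤ cT := by linarith
  have hT64 := ge64 hcT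
  have hB64 : 64 * Real.log N ^ cT ≤ B := (step (by linarith)).trans hB
  have hBpos : 0 < B := by nlinarith
  have h80 : 80000 * B ≤ N := by
    by_contra hcon
    rw [not_le] at hcon
    nlinarith
  have hs8 : (100 : ℝ) ≤ N ^ (1 / 4 : ℝ) := by
    have h1 : (100 : ℝ) = ((100 : ℝ) ^ (4 : ℕ)) ^ (1 / 4 : ℝ) := by
      rw [← Real.rpow_natCast, ← Real.rpow_mul (by norm_num)]
      norm_num
    rw [h1]
    apply Real.rpow_le_rpow (by norm_num) _ (by norm_num)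
    norm_num
    linarith
  have hsq : (Real.log N ^ cT) ^ 2 * 100 ≤ Real.sqrt N := by
    have h1 : (Real.log N ^ cT) ^ 2 ≤ (N ^ (1 / 8 : ℝ)) ^ 2 := by
      apply pow_le_pow_left₀ (Real.rpow_nonneg hl0.le _) hT
    have h2 : (N ^ (1 / 8 : ℝ)) ^ 2 = N ^ (1 / 4 : ℝ) := by
      rw [← Real.rpow_natCast, ← Real.rpow_mul hN0.le]
      norm_num
    have h3 : N ^ (1 / 4 : ℝ) * N ^ (1 / 4 : ℝ) = Real.sqrt N := by
      rw [← Real.rpow_add hN0, Real.sqrt_eq_rpow]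
      norm_num
    have h4 : 0 < N ^ (1 / 4 : ℝ) := Real.rpow_pos_of_pos hN0 _
    rw [← h3]
    rw [h2] at h1
    nlinarith
  have hP := ge64 (show 1 ≤ cP by linarith)
  have hPT := step (show cP + 1 ≤ cT by linarith)
  have hwP := step h8
  have hw := ge64 h5
  have hTT : Real.log N ^ cT ≤ (Real.log N ^ cT) ^ 2 := by nlinarith
  refine ⟨⟨?_, ?_, ?_, ?_, ?_, ?_, ?_, ?_⟩, ?_, ?_, ?_, ?_, ?_, ?_, h80, ?_, ?_, hT64, hsq⟩
  · show 100 ≤ N
    linarith
  · show 1 ≤ Real.log N ^ ch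
    have := ge64 (show 1 ≤ ch by linarith)
    linarith
  · show 2 ≤ Real.log N ^ cw
    linarith
  · show 2 ≤ Real.log N ^ cP
    linarith
  · show Real.log N ^ cw < Real.log N ^ cP
    linarith
  · show 64 * Real.log N ^ cP ≤ Real.log N ^ cT
    exact hPT
  · show Real.log N ^ cw < Real.sqrt N
    linarith
  · show 100 * (Real.log N ^ cT) ^ 2 ≤ Real.sqrt N
    linarith
  · have := ge64 h1
    linarith
  · rw [le_div_iff₀ (Real.rpow_pos_of_pos hl0 _), one_mul]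
    exact mono (by linarith)
  · have := ge64 (show 1 ≤ cT - a₀ by linarith)
    linarith
  · exact mono (by linarith)
  · rw [← Real.rpow_add hl0]
    exact step (by linarith)
  · have := ge64 (show 1 ≤ aF by linarith)
    linarith
  · linarith
  · linarith

theorem ar1 {N T : ℝ} (hN : 0 < N) (hT : 64 ≤ T) : 2 * 2 * (N / T) ≤ 2 * N * T := by
  have hT0 : 0 < T := by linarith
  rw [← mul_div_assoc, div_le_iff₀ hT0]
  have h1 : (2 : ℝ) ≤ T * T := by nlinarith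
  nlinarith [mul_le_mul_of_nonneg_left h1 hN.le]

theorem ar2 {N T T1 : ℝ} (hN : 0 < N) (hT : 64 ≤ T) (h : 4 * T ≤ T1) :
    8 * (2 * N * T) ≤ T1 ^ 2 * (N / T) := by
  have hT0 : 0 < T := by linarith
  rw [← mul_div_assoc, le_div_iff₀ hT0]
  have : (4 * T) ^ 2 ≤ T1 ^ 2 := pow_le_pow_left₀ (by linarith) h 2
  nlinarith [mul_le_mul_of_nonneg_left this hN.le]

theorem ar3 {N T T1 : ℝ} (hN : 0 < N) (hT : 64 ≤ T) (h0 : 0 ≤ T1) (h : T1 ≤ 5 * T) :
    T1 ^ 2 * (N / T) ≤ 16 * (2 * N * T) := by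
  have hT0 : 0 < T := by linarith
  rw [← mul_div_assoc, div_le_iff₀ hT0]
  have : T1 ^ 2 ≤ (5 * T) ^ 2 := pow_le_pow_left₀ h0 h 2
  nlinarith [mul_le_mul_of_nonneg_left this hN.le, mul_pos hN (mul_pos hT0 hT0)]

theorem ar4 {N T T1 B : ℝ} (hT : 0 < T) (hB : 0 < B) (h : T1 ≤ 5 * T) (h2 : 80000 * B ≤ N) :
    32 * 1000 * T1 * B ≤ 2 * N * T := by
  have ha : 32 * 1000 * T1 * B ≤ 32 * 1000 * (5 * T) * B := by gcongr
  have hb : 32 * 1000 * (5 * T) * B = 2 * (80000 * B) * T := by ring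
  rw [hb] at ha
  refine ha.trans ?_
  gcongr

theorem ar5 {N T X Y B T0 K : ℝ} (hN : 0 < N) (hT : 0 < T) (hB : 0 < B) (hX : 0 ≤ X) (hY : 0 ≤ Y)
    (h0 : X / 2 ≤ T0) (h1 : Y * (N / B) / 2 ≤ K) (h2 : 64 * T ≤ X * Y) :
    Real.pi * (2 * N * T) ≤ 8 * T0 * B * K := by
  have hb : 8 * (X / 2) * B * (Y * (N / B) / 2) = 2 * (X * Y) * N := by
    field_simp
    ring
  have hNB : 0 ≤ N / B := by positivity
  have hc : 8 * (X / 2) * B * (Y * (N / B) / 2) ≤ 8 * T0 * B * K := by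
    have : 0 ≤ T0 := le_trans (by positivity) h0
    gcongr
  refine le_trans ?_ hc
  rw [hb]
  have h3 : Real.pi ≤ 4 := Real.pi_le_four
  have h5 : 0 < N * T := by positivity
  have h6 : N * (64 * T) ≤ N * (X * Y) := by gcongr
  nlinarith

theorem ar6 {N T P : ℝ} (hN : 1 ≤ N) (hP : 2 ≤ P) (hT : 64 * P ≤ T) :
    1 ≤ 2 * N * T / P ∧ 2 * N * T / P ≤ 2 * N * T ∧ 2 * P ≤ 2 * N * T := by
  have hP0 : 0 < P := by linarith
  have hT0 : 0 < T := by linarith
  have h1 : T ≤ N * T := by nlinarith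
  refine ⟨?_, ?_, ?_⟩
  · rw [le_div_iff₀ hP0]
    linarith
  · rw [div_le_iff₀ hP0]
    have : 0 < 2 * N * T := by positivity
    nlinarith
  · linarith

theorem ar7 {N B F : ℝ} (hB : 1 ≤ B) (hN : 0 < N) (_hF0 : 0 ≤ F) (hF : F ≤ N) : F * (N / B) ≤ N ^ 2 := by
  have hNB2 : N / B ≤ N := div_le_self hN.le hB
  have h0 : 0 ≤ N / B := by positivity
  calc F * (N / B) ≤ N * N := by gcongr
    _ = N ^ 2 := by ring

end PRCM

open PRCM in
theorem specPRC (hHJS : SpecHJS) (hSUP : SpecSUP) : SpecPRC := by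
  intro ch0 a₀ aF aU aQ cw h1 h2 h3 h4 h5 h6 ch cP cT h7 h8 h9 cB h10
  have hsup := hSUP cT cP ch cw aQ aU (by linarith) (by linarith) (by linarith) h4 h5 h6
  filter_upwards [hsup, Real.tendsto_log_atTop.eventually_ge_atTop 64,
    eventually_ge_atTop (2 * 80000 ^ 2 : ℝ), ev_log_le cT (1 / 8) (by norm_num),
    ev_log_le aF 1 one_pos] with N hs hl hN hT8 hF1 B hB hB2 U hU
  obtain ⟨S, c6, cm, c1, cle, c64, cF1, c80, c5, cB64, cT64, csq⟩ :=
    sizes h1 h2 h3 h5 h7 h8 h9 h10 hl hN hT8 hB hB2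
  have hN0 : 0 < N := by linarith
  have hT0 : 0 < Real.log N ^ cT := by linarith
  have hP2 : 2 ≤ Real.log N ^ cP := S.P
  have hPT : 64 * Real.log N ^ cP ≤ Real.log N ^ cT := S.T
  have hwP : Real.log N ^ cw < Real.log N ^ cP := S.wP
  have hw2 : 2 ≤ Real.log N ^ cw := S.w
  have hP0 : 0 < Real.log N ^ cP := by linarith
  have hB0 : 0 < B := by linarith
  obtain ⟨m, hm⟩ : ∃ m : ℕ, m = ⌊Real.log N ^ ch / Real.log N ^ ch0⌋₊ := ⟨_, rfl⟩
  have hm1 : 1 ≤ m := by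
    rw [hm]
    exact (half_floor cm).2
  have hmh : (m : ℝ) ≤ Real.log N ^ ch / Real.log N ^ ch0 := by
    rw [hm]
    exact Nat.floor_le (by linarith)
  obtain ⟨f1, f2⟩ := half_floor c1
  have hNB : 1 ≤ N / B := by
    rw [le_div_iff₀ hB0]
    linarith
  have hY1 : 1 ≤ Real.log N ^ aF * (N / B) := one_le_mul_of_one_le_of_one_le cF1 hNB
  obtain ⟨g1, g2⟩ := half_floor hY1
  have t1 : (4 * Real.log N ^ cT) ≤ (⌈4 * Real.log N ^ cT⌉₊ : ℝ) := Nat.le_ceil _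
  have t2 : (⌈4 * Real.log N ^ cT⌉₊ : ℝ) ≤ 5 * Real.log N ^ cT := by
    have := Nat.ceil_lt_add_one (show 0 ≤ 4 * Real.log N ^ cT by linarith)
    linarith
  have hK : (par N cT cP ch cw).K = N / Real.log N ^ cT := rfl
  have hMM : MM' (par N cT cP ch cw) = 2 * N * Real.log N ^ cT / Real.log N ^ cP := rfl
  obtain ⟨a1, a2, a3⟩ := ar6 (show 1 ≤ N by linarith) hP2 hPT
  have hh := hHJS (par N cT cP ch cw) U m S hm1
  rw [← hm]
  refine
    { hκ := by norm_num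
      hρ := by norm_num
      hK := ?_
      hB := by linarith
      hTB := t2.trans c5
      hKY := ?_
      hT1 := ?_
      hT1' := ?_
      hBY := ?_
      hT0 := f2
      hT01 := ?_
      hKm := g2
      hKm' := ?_
      hη := by positivity
      hη' := ?_
      hw := hw2
      hF := by linarith
      hM := ?_
      hMY := ?_
      hP := ?_
      hPw := ?_
      hPd := ?_
      hS := ?_
      hSw := ?_
      hL := ?_
      hL' := ?_
      hh := ?_ }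
  · rw [hK, le_div_iff₀ hT0]
    linarith
  · rw [hK]
    exact ar1 hN0 cT64
  · rw [hK]
    exact ar2 hN0 cT64 t1
  · rw [hK]
    exact ar3 hN0 cT64 (by positivity) t2
  · exact ar4 hT0 hB0 t2 c80
  · have ha : ((⌊Real.log N ^ (cT - a₀)⌋₊ : ℕ) : ℝ) ≤ (⌈4 * Real.log N ^ cT⌉₊ : ℝ) := by
      have := Nat.floor_le (show 0 ≤ Real.log N ^ (cT - a₀) by linarith)
      linarith
    exact_mod_cast ha
  · exact ar5 hN0 hT0 hB0 (by linarith) (by linarith) f1 g1 c64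
  · rw [div_le_iff₀ (by linarith)]
    linarith
  · rw [hMM]
    exact a1
  · rw [hMM]
    exact a2
  · intro i hi π hπ
    rw [mem_cell] at hπ
    exact GP_sub hP0.le a3 hπ.1
  · intro i hi π hπ
    rw [mem_cell] at hπ
    exact hwP.le.trans (mem_GP' hπ.1).2.2.le
  · intro i _ i' _ hne
    rw [Finset.disjoint_left]
    intro π h1 h2
    rw [mem_cell] at h1 h2
    exact hne (h1.2.symm.trans h2.2)
  · intro j _ z hz
    exact (mem_SJ.1 hz).1
  · intro j _ z hz π hπ hd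
    exact ((mem_SJ.1 hz).2.1 π hπ hd).le
  · intro i hi j hj
    have := cells S c6 hm1 hmh hi hj
    exact this
  · intro i hi j hj π hπ z hz
    exact cellL S c6 hmh hπ hz
  · intro z
    rw [Real.rpow_one] at hF1
    have hFN : Real.log N ^ aF * (N / B) ≤ N ^ 2 := ar7 (by linarith) hN0 (by linarith) hF1
    refine le_trans ?_ ((hh.2.2.1 z).trans (hs _ U hFN hU z))
    apply sum_le_sum
    intro j _
    split_ifs
    · exact le_rfl
    · exact norm_nonneg _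

end Pool.Agent.Lib.MP391708.XU
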