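import Pool.Agent.Lib.MP_391708_nt.X.U.Spec
import Pool.Agent.Lib.MP_391708_nt.X.HM
import Pool.Agent.Lib.MP_391708_nt.X.B.LCA

/-!
# Theorem X, part U, module RGS: different characters over the rough elements of a lattice cell

`X.hm_rg1` with `A = 2`, `A' = cw` and `x = N (log N)^a`; the cell is an annulus by `X.specLCA`.
-/

set_option autoImplicit false

namespace Pool.Agent.Lib.MP391708.XU

open Finset Filter Topology Pool.Agent.Lib.MP391708.MR
open Pool.Agent.Lib.MP391708.X (ChiG hk Dist rgh Ix psi lc)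
open scoped ComplexConjugate

namespace RGSM

lemma nm_nat (t : ℕ) : (nm ((t : ℕ) : Gi) : ℝ) = (t : ℝ) ^ 2 := by
  rw [nm_castR]
  simp

lemma tendsto_x {a : ℝ} (ha : 0 ≤ a) : Tendsto (fun N : ℝ => N * Real.log N ^ a) atTop atTop := by
  refine tendsto_atTop_mono' atTop ?_ tendsto_id
  have h1 : ∀ᶠ N : ℝ in atTop, 1 ≤ Real.log N := Real.tendsto_log_atTop.eventually_ge_atTop 1
  filter_upwards [h1, eventually_ge_atTop (0 : ℝ)] with N hN hN0
  have h2 : (1 : ℝ) ≤ Real.log N ^ a := Real.one_le_rpow hN ha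
  show N ≤ N * Real.log N ^ a
  nlinarith

lemma small {b e : ℝ} (he : 0 < e) : ∀ᶠ N : ℝ in atTop, Real.log N ^ b ≤ N ^ e := by
  have h := (isLittleO_log_rpow_rpow_atTop b he).bound zero_lt_one
  filter_upwards [h, eventually_ge_atTop (1 : ℝ)] with N hN h1
  have h0 : 0 ≤ Real.log N := Real.log_nonneg h1
  rw [Real.norm_of_nonneg (Real.rpow_nonneg h0 _),
    Real.norm_of_nonneg (Real.rpow_nonneg (by linarith) _), one_mul] at hN
  exact hN

/-- the index `i` satisfies the hypotheses of RG1 -/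
lemma idx {i : Ix} {N a x c' : ℝ} (hN : 1 ≤ N) (hx : N ≤ x) (hc' : 0 < c')
    (hs : Real.log N ^ (2 * a) ≤ N ^ c')
    (hi : 1 ≤ i.1 ∧ (i.1 : ℝ) ≤ Real.log N ^ a ∧ ChiG (i.1 : Gi) i.2.1 ∧ |(i.2.2 : ℝ)| ≤ N ^ 2) :
    (nm ((i.1 : ℕ) : Gi) : ℝ) ≤ x ^ c' ∧ |(i.2.2 : ℝ)| ≤ x ^ (2 : ℝ) := by
  have h0 : 0 ≤ Real.log N := Real.log_nonneg hN
  constructor
  · rw [nm_nat]
    have h1 : (i.1 : ℝ) ^ 2 ≤ (Real.log N ^ a) ^ 2 := by
      have : (0 : ℝ) ≤ (i.1 : ℝ) := Nat.cast_nonneg _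
      exact pow_le_pow_left₀ this hi.2.1 2
    have h2 : (Real.log N ^ a) ^ 2 = Real.log N ^ (2 * a) := by
      rw [← Real.rpow_natCast, ← Real.rpow_mul h0]
      congr 1
      push_cast
      ring
    have h3 : N ^ c' ≤ x ^ c' := Real.rpow_le_rpow (by linarith) hx hc'.le
    rw [h2] at h1
    linarith
  · have h1 : x ^ (2 : ℝ) = x ^ (2 : ℕ) := by
      rw [← Real.rpow_natCast]
      norm_num
    rw [h1]
    have h2 : N ^ 2 ≤ x ^ 2 := pow_le_pow_left₀ (by linarith) hx 2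
    exact hi.2.2.2.trans h2

end RGSM

/-- RGS -/
theorem specRGS : SpecRGS := by
  intro cw hcw
  obtain ⟨c', hc0, hc1, hev⟩ := X.hm_rg1 2 cw (by norm_num) hcw
  refine ⟨c' / 2, by positivity, by linarith, ?_⟩
  intro a ha
  have hx := (RGSM.tendsto_x ha).eventually hev
  filter_upwards [hx, RGSM.small (b := 2 * a) hc0, RGSM.small (b := a) (half_pos hc0),
    eventually_ge_atTop (1 : ℝ), Real.tendsto_log_atTop.eventually_ge_atTop 1] with
    N hN hs1 hs2 hN1 hlog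
  intro i j h v S hh hv hi hj hd hS
  have hN0 : 0 < N := by linarith
  have hla : (1 : ℝ) ≤ Real.log N ^ a := Real.one_le_rpow hlog ha
  have hNx : N ≤ N * Real.log N ^ a := by nlinarith
  obtain ⟨y, y', hy0, hyy, hy', -, -, -, hann⟩ := X.specLCA h v (by linarith)
  obtain ⟨hi1, hi2⟩ := RGSM.idx hN1 hNx hc0 hs1 hi
  obtain ⟨hj1, hj2⟩ := RGSM.idx hN1 hNx hc0 hs1 hj
  have hw : Real.log N ^ cw ≤ Real.log (N * Real.log N ^ a) ^ cw := by
    apply Real.rpow_le_rpow (by linarith) _ (by linarith)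
    exact Real.log_le_log hN0 hNx
  have hmain := hN ((i.1 : ℕ) : Gi) ((j.1 : ℕ) : Gi) i.2.1 j.2.1 i.2.2 j.2.2 hi.2.2.1 hj.2.2.1
    hi1 hj1 hi2 hj2 hd (Real.log N ^ cw) y y' hw hy0 hyy (hy'.trans hv) S
    (fun z => by rw [hS z, hann])
  refine le_trans hmain ?_
  have h1 : (N * Real.log N ^ a) ^ (1 - c') = N ^ (1 - c') * (Real.log N ^ a) ^ (1 - c') :=
    Real.mul_rpow hN0.le (by linarith)
  have h2 : (Real.log N ^ a) ^ (1 - c') ≤ (Real.log N ^ a) ^ (1 : ℝ) :=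
    Real.rpow_le_rpow_of_exponent_le hla (by linarith)
  rw [Real.rpow_one] at h2
  have h3 : N ^ (1 - c') * N ^ (c' / 2) = N ^ (1 - c' / 2) := by
    rw [← Real.rpow_add hN0]
    congr 1
    ring
  rw [h1, ← h3]
  exact mul_le_mul_of_nonneg_left (h2.trans hs2) (Real.rpow_nonneg hN0.le _)

end Pool.Agent.Lib.MP391708.XU
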