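import Pool.Agent.Lib.MP_391708_nt.X.U.Spec
import Pool.Agent.Lib.MP_391708_nt.X.CEL2

/-!
# THEOREM X (MP_391708), part U, module SUP: the pointwise bound
-/

set_option autoImplicit false

namespace Pool.Agent.Lib.MP391708.XU

open Finset Filter Topology Pool.Agent.Lib.MP391708.MR
open Pool.Agent.Lib.MP391708.X (Par par ChiG hk Dist Fam rgh Ix psi ix1 UOK lc RR S4 S2 I4 I2 eta kap Eta Kap)
open scoped ComplexConjugate

namespace SUPM

/-- two pairs of primes with associated products are equal -/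
lemma pair_eq {M4 M2 : ℝ} (hM : 2 * M4 < M2) {a b a' b' z : Gi} (ha : a ∈ GP M4 (2 * M4))
    (hb : b ∈ GP M2 (2 * M2)) (ha' : a' ∈ GP M4 (2 * M4)) (hb' : b' ∈ GP M2 (2 * M2))
    (h : Associated (a * b) z) (h' : Associated (a' * b') z) : a = a' ∧ b = b' := by
  have hab : Associated (a * b) (a' * b') := h.trans h'.symm
  have pa := GP_prime ha
  have pb := GP_prime hb
  have n1 := (mem_GP.1 ha)
  have n1' := (mem_GP.1 ha')
  have n2 := (mem_GP.1 hb)
  have n2' := (mem_GP.1 hb')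
  -- `a` and `b'` have different norms
  have hne : ∀ x y : Gi, x ∈ GP M4 (2 * M4) → y ∈ GP M2 (2 * M2) → ¬ x ∣ y ∧ ¬ y ∣ x := by
    intro x y hx hy
    have m1 := mem_GP.1 hx
    have m2 := mem_GP.1 hy
    constructor
    · intro hd
      have e := GP_eq_of_dvd hx hy hd
      subst e
      linarith [m1.2.2.2.2.2, m2.2.2.2.2.1]
    · intro hd
      have e := GP_eq_of_dvd hy hx hd
      subst e
      linarith [m1.2.2.2.2.2, m2.2.2.2.2.1]
  have hda : a ∣ a' * b' := (dvd_mul_right a b).trans hab.dvd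
  have hdb : b ∣ a' * b' := (dvd_mul_left b a).trans hab.dvd
  constructor
  · rcases pa.dvd_or_dvd hda with hd | hd
    · exact (GP_eq_of_dvd ha ha' hd).symm
    · exact absurd hd (hne a b' ha hb').1
  · rcases pb.dvd_or_dvd hdb with hd | hd
    · exact absurd hd (hne a' b ha' hb).2
    · exact (GP_eq_of_dvd hb hb' hd).symm

open scoped Classical in
/-- the sum of `eta` over all cells is at most `1` -/
lemma sum_eta {p : Par} (hM : 2 * p.M4 < p.M2) (z : Gi) :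
    ∑ v4 ∈ I4 p, ∑ v2 ∈ I2 p, ‖eta p v4 v2 z‖ ≤ 1 := by
  set D : Finset (Gi × Gi) := (GP p.M4 (2 * p.M4) ×ˢ GP p.M2 (2 * p.M2)).filter
    (fun q => Associated (q.1 * q.2) z) with hD
  have hD1 : D.card ≤ 1 := by
    rw [Finset.card_le_one]
    intro q hq q' hq'
    rw [hD, mem_filter, mem_product] at hq hq'
    obtain ⟨e1, e2⟩ := pair_eq hM hq.1.1 hq.1.2 hq'.1.1 hq'.1.2 hq.2 hq'.2
    exact Prod.ext e1 e2
  have key : ∀ v4 v2 : ℕ, ‖eta p v4 v2 z‖ = ∑ q ∈ D,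
      (if v4 = ⌊p.h * Real.log (nm q.1)⌋₊ then (if v2 = ⌊p.h * Real.log (nm q.2)⌋₊ then (1 : ℝ) else 0)
        else 0) := by
    intro v4 v2
    unfold eta
    rw [Complex.norm_natCast]
    have e1 : (cell p.h p.M4 (2 * p.M4) v4 ×ˢ cell p.h p.M2 (2 * p.M2) v2).filter
        (fun q => Associated (q.1 * q.2) z) = D.filter (fun q => v4 = ⌊p.h * Real.log (nm q.1)⌋₊ ∧
          v2 = ⌊p.h * Real.log (nm q.2)⌋₊) := by
      ext q
      simp only [hD, cell, mem_filter, mem_product]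
      tauto
    rw [e1, Finset.card_filter]
    push_cast
    refine Finset.sum_congr rfl fun q _ => ?_
    by_cases h1 : v4 = ⌊p.h * Real.log (nm q.1)⌋₊ <;> by_cases h2 : v2 = ⌊p.h * Real.log (nm q.2)⌋₊ <;>
      simp [h1, h2]
  have e2 : ∑ v4 ∈ I4 p, ∑ v2 ∈ I2 p, ‖eta p v4 v2 z‖ = ∑ q ∈ D, ∑ v4 ∈ I4 p, ∑ v2 ∈ I2 p,
      (if v4 = ⌊p.h * Real.log (nm q.1)⌋₊ then (if v2 = ⌊p.h * Real.log (nm q.2)⌋₊ then (1 : ℝ) else 0)
        else 0) := by
    rw [Finset.sum_congr rfl fun v4 _ => Finset.sum_congr rfl fun v2 _ => key v4 v2,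
      Finset.sum_congr rfl fun v4 _ => Finset.sum_comm, Finset.sum_comm]
  rw [e2]
  have e3 : ∀ q ∈ D, ∑ v4 ∈ I4 p, ∑ v2 ∈ I2 p,
      (if v4 = ⌊p.h * Real.log (nm q.1)⌋₊ then (if v2 = ⌊p.h * Real.log (nm q.2)⌋₊ then (1 : ℝ) else 0)
        else 0) ≤ 1 := by
    intro q _
    have e4 : ∀ v4 ∈ I4 p, ∑ v2 ∈ I2 p, (if v4 = ⌊p.h * Real.log (nm q.1)⌋₊ then
        (if v2 = ⌊p.h * Real.log (nm q.2)⌋₊ then (1 : ℝ) else 0) else 0) ≤
        if v4 = ⌊p.h * Real.log (nm q.1)⌋₊ then 1 else 0 := by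
      intro v4 _
      by_cases h1 : v4 = ⌊p.h * Real.log (nm q.1)⌋₊
      · simp only [if_pos h1]
        rw [Finset.sum_ite_eq' (I2 p) ⌊p.h * Real.log (nm q.2)⌋₊ (fun _ => (1 : ℝ))]
        split_ifs <;> norm_num
      · simp only [if_neg h1, Finset.sum_const_zero, le_refl]
    refine (Finset.sum_le_sum e4).trans ?_
    rw [Finset.sum_ite_eq' (I4 p) ⌊p.h * Real.log (nm q.1)⌋₊ (fun _ => (1 : ℝ))]
    split_ifs <;> norm_num
  calc ∑ q ∈ D, ∑ v4 ∈ I4 p, ∑ v2 ∈ I2 p,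
      (if v4 = ⌊p.h * Real.log (nm q.1)⌋₊ then (if v2 = ⌊p.h * Real.log (nm q.2)⌋₊ then (1 : ℝ) else 0)
        else 0) ≤ ∑ q ∈ D, (1 : ℝ) := Finset.sum_le_sum e3
    _ = (D.card : ℝ) := by simp
    _ ≤ 1 := by exact_mod_cast hD1

lemma sum_kap {p : Par} {U : Finset Ix} {z : Gi} {B : ℝ} (hB : 0 ≤ B)
    (h : ∀ v4 v2, ‖kap p U v4 v2 z‖ ≤ B) :
    ∑ v4 ∈ I4 p, ∑ v2 ∈ I2 p, ‖kap p U v4 v2 z‖ ≤ ((I4 p).card : ℝ) * B := by
  rw [← nsmul_eq_mul]
  refine Finset.sum_le_card_nsmul _ _ _ fun v4 _ => ?_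
  by_cases h0 : v4 ≤ ⌊p.h * Real.log (nm z)⌋₊
  · have h1 : ∀ v2 ∈ I2 p, v2 ≠ ⌊p.h * Real.log (nm z)⌋₊ - v4 → ‖kap p U v4 v2 z‖ = 0 := by
      intro v2 _ hne
      rw [X.KSBM.kap_zero (by omega), norm_zero]
    by_cases h2 : ⌊p.h * Real.log (nm z)⌋₊ - v4 ∈ I2 p
    · rw [Finset.sum_eq_single_of_mem _ h2 h1]
      exact h _ _
    · rw [Finset.sum_eq_zero fun v2 hv => h1 v2 hv fun e => h2 (e ▸ hv)]
      exact hB
  · rw [Finset.sum_eq_zero fun v2 _ => by rw [X.KSBM.kap_zero (by omega), norm_zero]]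
    exact hB

end SUPM

open SUPM in
/-- **SUP**: the pointwise bound. -/
theorem specSUP (hK : X.C2.SpecKSB) : SpecSUP := by
  obtain ⟨C, hC, hK⟩ := hK
  intro cT cP ch cw aQ aU hch hcP hcT haQ hcw haQ1
  filter_upwards [hK cT cP ch cw aQ aU hch (by linarith), X.KSBM.small (3 * C) cw (by linarith),
    Real.tendsto_log_atTop.eventually_ge_atTop 33, eventually_ge_atTop (1 : ℝ)] with N hN hs hL hN1
  intro F U hF hU z
  obtain ⟨-, hk, -⟩ := hN F U hF hU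
  have hL0 : 0 < Real.log N := by linarith
  have hL1 : 1 ≤ Real.log N := by linarith
  have hh : 1 ≤ Real.log N ^ ch := Real.one_le_rpow hL1 (by linarith)
  have hh0 : 0 < Real.log N ^ ch := by linarith
  have hN0 : 0 < N := by linarith
  have hM4 : (par N cT cP ch cw).M4 = Real.sqrt N := rfl
  have hs1 : 1 ≤ Real.sqrt N := by
    rw [Real.one_le_sqrt]; exact hN1
  have hM : 2 * (par N cT cP ch cw).M4 < (par N cT cP ch cw).M2 := by
    have e : (par N cT cP ch cw).M2 = Real.sqrt N * Real.log N ^ cT / (16 * Real.log N ^ cP) := rfl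
    rw [hM4, e, lt_div_iff₀ (by positivity)]
    have e1 : 33 * Real.log N ^ cP ≤ Real.log N ^ cT := by
      calc 33 * Real.log N ^ cP ≤ Real.log N * Real.log N ^ cP := by gcongr
        _ = Real.log N ^ (1 + cP) := by rw [Real.rpow_add hL0, Real.rpow_one]
        _ ≤ Real.log N ^ cT := Real.rpow_le_rpow_of_exponent_le hL1 (by linarith)
    have e2 : 0 < Real.log N ^ cP := Real.rpow_pos_of_pos hL0 _
    have e3 : 0 < Real.sqrt N := by linarith
    calc 2 * Real.sqrt N * (16 * Real.log N ^ cP) = Real.sqrt N * (32 * Real.log N ^ cP) := by ring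
      _ < Real.sqrt N * (33 * Real.log N ^ cP) := by
          apply mul_lt_mul_of_pos_left _ e3; linarith
      _ ≤ Real.sqrt N * Real.log N ^ cT := mul_le_mul_of_nonneg_left e1 e3.le
  have hw : 0 ≤ Real.log (Real.log N ^ cw) := Real.log_nonneg (Real.one_le_rpow hL1 (by linarith))
  have hB : 0 ≤ C * (Real.log (Real.log N ^ cw) / (Real.log N ^ ch * Real.log N ^ 2)) := by positivity
  have h1 := sum_eta hM z
  have h2 := sum_kap hB (fun v4 v2 => hk v4 v2 z) (p := par N cT cP ch cw) (U := U) (z := z)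
  have h3 : ((I4 (par N cT cP ch cw)).card : ℝ) ≤ 3 * Real.log N ^ ch :=
    X.KSBM.card_I4 hh (by rw [hM4]; exact hs1)
  have h4 : ((I4 (par N cT cP ch cw)).card : ℝ) *
      (C * (Real.log (Real.log N ^ cw) / (Real.log N ^ ch * Real.log N ^ 2))) ≤ 1 := by
    refine (mul_le_mul_of_nonneg_right h3 hB).trans (le_trans (le_of_eq ?_) hs)
    field_simp
  have h5 : ∑ v4 ∈ I4 (par N cT cP ch cw), ∑ v2 ∈ I2 (par N cT cP ch cw),
      (‖eta (par N cT cP ch cw) v4 v2 z‖ + ‖kap (par N cT cP ch cw) U v4 v2 z‖) =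
      ∑ v4 ∈ I4 (par N cT cP ch cw), ∑ v2 ∈ I2 (par N cT cP ch cw), ‖eta (par N cT cP ch cw) v4 v2 z‖ +
      ∑ v4 ∈ I4 (par N cT cP ch cw), ∑ v2 ∈ I2 (par N cT cP ch cw),
        ‖kap (par N cT cP ch cw) U v4 v2 z‖ := by
    rw [← Finset.sum_add_distrib]
    exact Finset.sum_congr rfl fun v4 _ => Finset.sum_add_distrib
  rw [h5]
  linarith

end Pool.Agent.Lib.MP391708.XU
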