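import Pool.Agent.Lib.MP_391708_nt.X.U.SUP
import Pool.Agent.Lib.MP_391708_nt.X.CELAll

/-!
# THEOREM X (MP_391708), part U, module SUP, without hypotheses
-/

set_option autoImplicit false

namespace Pool.Agent.Lib.MP391708.XU

/-- SUP without hypotheses -/
theorem u_sup : SpecSUP := specSUP X.ce2_ksb

end Pool.Agent.Lib.MP391708.XU
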