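import Pool.Agent.Lib.MP_391708_nt.X.Spec
import Pool.Agent.Lib.MP_391708_nt.X.SpecVAR

/-!
# THEOREM X (MP_391708), part U: from the variance inequality `XV.SpecVAR` to `X.SpecVAR`

The set `U` of Hecke characters: the primitive forms, of conductor `≤ (log N)^aQ`, of the characters `(χ mod t, k)`,
`t ≤ T₁`, `|k| ≤ Km`, for which the prime sum over some coarse cell of `π₄` is large.

Modules: files `X/U/XXX.lean`, `import Pool.Agent.Lib.MP_391708_nt.X.U.Spec`, namespace `Pool.Agent.Lib.MP391708.XU`, own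
lemmas in the namespace `XXXM`, `theorem specXXX (hYYY : SpecYYY) .. : SpecXXX` (hypotheses in the order of the brackets).
The statements of `X/SpecHM` are proved without hypotheses in `X/HM.lean` (`hm_hmt`, `hm_rg0`, `hm_rg1`, `hm_par`, ..) and may be
cited.
-/

set_option autoImplicit false

namespace Pool.Agent.Lib.MP391708.XU

open Finset Filter Topology Pool.Agent.Lib.MP391708.MR
open Pool.Agent.Lib.MP391708.X (Par par ChiG hk Dist Fam rgh Ix psi ix1 UOK lc RR S4 S2 I4 I2 eta kap Eta Kap On Var)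
open Pool.Agent.Lib.MP391708.XV (md chs ph hat atyp)
open scoped ComplexConjugate

/-! ## Definitions -/

/-- the function on `ℤ[i]` of a character modulo `t` -/
noncomputable def fn (t : ℕ) (χ : MulChar (Cls.RR (md t)) ℂ) (z : Gi) : ℂ :=
  χ (Ideal.Quotient.mk (Ideal.span {md t}) z)

/-- the index of `(χ mod t, k)` -/
noncomputable def ixq (t : ℕ) (q : MulChar (Cls.RR (md t)) ℂ × ℤ) : Ix := (t, fn t q.1, q.2)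

/-- the coarse cell `a` of `GP M 2M`: groups of `m` consecutive fine cells -/
noncomputable def GG (h M : ℝ) (m a : ℕ) : Finset Gi :=
  (GP M (2 * M)).filter (fun π => ⌊h * Real.log (nm π)⌋₊ / m = a)

/-- the sum over a coarse cell of `π₄` -/
noncomputable def G4 (p : Par) (m : ℕ) (i : Ix) (a : ℕ) : ℂ := ∑ π ∈ GG p.h p.M4 m a, psi i π

/-- the sum over a coarse cell of `π₂` (first quadrant) -/
noncomputable def G2 (p : Par) (m : ℕ) (i : Ix) (a : ℕ) : ℂ := ∑ π ∈ GG p.h p.M2 m a, psi i π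

/-- the indices of the pairs of coarse cells, coded by `Nat.pair` -/
noncomputable def JJ (p : Par) (m : ℕ) : Finset ℕ :=
  (((I4 p).image (fun v => v / m)) ×ˢ ((I2 p).image (fun v => v / m))).image (fun q => Nat.pair q.1 q.2)

/-- the bound for the norm of `z'` -/
noncomputable def MM' (p : Par) : ℝ := 2 * p.N * p.T / p.P

open scoped Classical in
/-- the radial cell of `z'` of the pair `j` -/
noncomputable def SJ (p : Par) (m j : ℕ) : Finset Gi :=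
  (disc (MM' p)).filter (fun z => rgh p.w z ∧ m * ((Nat.unpair j).1 + (Nat.unpair j).2) ≤ ⌊p.h * Real.log (nm z)⌋₊ ∧
    ⌊p.h * Real.log (nm z)⌋₊ + 1 ≤ m * ((Nat.unpair j).1 + (Nat.unpair j).2) + 2 * m)

/-- the part of `Eta - Kap` of the pair `j` of coarse cells -/
noncomputable def HJ (p : Par) (U : Finset Ix) (m j : ℕ) (z : Gi) : ℂ :=
  ∑ v4 ∈ (I4 p).filter (fun v => v / m = (Nat.unpair j).1), ∑ v2 ∈ (I2 p).filter (fun v => v / m = (Nat.unpair j).2),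
    (eta p v4 v2 z - kap p U v4 v2 z)

/-- `i`, `j` are the same character up to the moduli -/
def Eqv (i j : Ix) : Prop := ¬ Dist i.2.1 j.2.1 i.2.2 j.2.2

/-- the size conditions used below -/
structure Siz (p : Par) : Prop where
  N : 100 ≤ p.N
  h : 1 ≤ p.h
  w : 2 ≤ p.w
  P : 2 ≤ p.P
  wP : p.w < p.P
  T : 64 * p.P ≤ p.T
  wN : p.w < Real.sqrt p.N
  TN : 100 * p.T ^ 2 ≤ Real.sqrt p.N

/-! ## Characters -/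

/-- BRG (120 lines).  The bridge.
Proof.  `md t = ((t : ℤ) : Gi) = ((t : ℕ) : Gi)`.  `ChiG`: a `MulChar` is multiplicative, `1 ↦ 1`, vanishes exactly on the
non-units of `Gi ⧸ (t)`; `mk z` is a unit iff `IsCoprime z t` (`Cls.isUnit_mk` or `Ideal.Quotient`).  The period: `mk (x + t y) = mk x`.
Different characters modulo `t` differ at a unit `mk z`, where both are nonzero. -/
def SpecBRG : Prop :=
  (∀ (t : ℕ) (χ : MulChar (Cls.RR (md t)) ℂ), 1 ≤ t → ChiG (t : Gi) (fn t χ)) ∧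
  (∀ (t : ℕ) (χ : MulChar (Cls.RR (md t)) ℂ) (k : ℤ) (S : Finset Gi) (f : Gi → ℂ),
    hat t χ k S f = ∑ z ∈ S, f z * hk (fn t χ) k z) ∧
  (∀ (t : ℕ) (q q' : MulChar (Cls.RR (md t)) ℂ × ℤ), 1 ≤ t → q ≠ q' → Dist (fn t q.1) (fn t q'.1) q.2 q'.2) ∧
  ∀ (m : Gi) (χ : Gi → ℂ), ChiG m χ → ∀ z, ‖χ z‖ ≤ 1 ∧ (χ z ≠ 0 → ‖χ z‖ = 1)

/-- CON (300 lines).  The conductor.
Proof.  (1) GCD: let `χ₁ mod t₁`, `χ₂ mod t₂` (rational moduli, `ChiG`) agree where both are nonzero, `g = gcd(t₁, t₂)`.  If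
`z ≡ z' mod g` and both are coprime to `t₁ t₂`, then there is `x` with `x ≡ z mod t₁`, `x ≡ z' mod t₂` (Chinese remainder: `z - z'` is
in the ideal `(g) = (t₁) + (t₂)`, Bezout in `ℤ`), `x` is coprime to `t₁` and to `t₂`, so `χ₁ z = χ₁ x = χ₂ x = χ₂ z'`, `= χ₁ z'`.  Every `z` coprime
to `g` is congruent modulo `g` to some `z'` coprime to `t₁ t₂` (Chinese remainder over the prime powers, or: write `t₁ t₂ = g' s` where `g'`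
contains all primes dividing `g` and `s` is coprime to `g`, and solve `z' ≡ z mod g'`, `z' ≡ 1 mod s`).  Define `χ z = χ₁ z'` for
such a `z'` if `z` is coprime to `g`, `0` otherwise: a character modulo `g` which agrees with `χ₁` on the `z` coprime to `t₁` (for `z`
coprime to `t₁`: choose `z' ≡ z mod t₁` coprime to `t₁ t₂`) and with `χ₂` on the `z` coprime to `t₂`.
(2) Let `f` be the least `f ≥ 1` such that some `ChiG f χ` agrees with `χ_i` where both are nonzero.  By (1) for `f` and `i.1`: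
`gcd(f, i.1)` has the property, so `f ∣ i.1`, and `χ z = χ_i z` for `z` coprime to `i.1` (two characters which agree where both are nonzero
agree on the `z` coprime to the larger support: choose `z' ≡ z` modulo `i.1` coprime to both; here `f ∣ i.1` so both are nonzero
anyway).  If `χ' mod t` agrees with `χ_i` where both are nonzero, it agrees with `χ` where both are nonzero: for `z` coprime to `t f` choose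
`z' ≡ z mod t f` coprime to `i.1`: `χ' z = χ' z' = χ_i z' = χ z' = χ z`.  Then (1) for `t`, `f`: `gcd(t, f)` has the property, `f ∣ t`, and
then `χ z = χ' z` for all `z` coprime to `t`. -/
def SpecCON : Prop := ∀ i : Ix, 1 ≤ i.1 → ChiG (i.1 : Gi) i.2.1 → ∃ (f : ℕ) (χ : Gi → ℂ), 1 ≤ f ∧ f ∣ i.1 ∧
  ChiG (f : Gi) χ ∧ (∀ z, i.2.1 z ≠ 0 → χ z = i.2.1 z) ∧
  ∀ (t : ℕ) (χ' : Gi → ℂ), 1 ≤ t → ChiG (t : Gi) χ' → (∀ z, χ' z ≠ 0 → i.2.1 z ≠ 0 → χ' z = i.2.1 z) →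
    f ∣ t ∧ ∀ z, χ' z ≠ 0 → χ z = χ' z

/-- LVX (150 lines, from HM: `hm_hmt`, BRG).  Few characters have a large sum over primes of norm about `√N`.
Proof.  Suppose `#W > 300 ℓ^(2 A₁)`; take `W' ⊆ W` with `⌊300 ℓ^(2 A₁)⌋ + 1 ≤ x^c` elements, `x = 2√N`.  HMT with `A = 5`
(`|k| ≤ N^2 ≤ x^5`), moduli of norm `i.1² ≤ ℓ^(2a) ≤ x^c`, `y = √N`, `y' = 2√N`, `a` = the indicator of `G`:
`#W' · N ℓ^(-2 A₁) ≤ (π √N + x^(1-c)) #G ≤ 6 √N · 9 · 2√N ≤ 108 N` (`MR` `card_disc_le`), contradiction. -/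
def SpecLVX : Prop := ∀ a A₁ : ℝ, 0 ≤ a → 0 ≤ A₁ → ∀ᶠ N : ℝ in atTop, ∀ (W : Finset Ix) (G : Finset Gi),
  G ⊆ GP (Real.sqrt N) (2 * Real.sqrt N) →
  (∀ i ∈ W, 1 ≤ i.1 ∧ (i.1 : ℝ) ≤ Real.log N ^ a ∧ ChiG (i.1 : Gi) i.2.1 ∧ |(i.2.2 : ℝ)| ≤ N ^ 2) →
  (∀ i ∈ W, ∀ j ∈ W, i ≠ j → Dist i.2.1 j.2.1 i.2.2 j.2.2) →
  (∀ i ∈ W, Real.sqrt N * Real.log N ^ (-A₁) < ‖∑ π ∈ G, psi i π‖) →
    (W.card : ℝ) ≤ 300 * Real.log N ^ (2 * A₁)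

/-- HM2 (120 lines, from HM: `hm_hmt`, BRG).  Mean square over a set of characters modulo `t` of size `≤ N^c`.
Proof.  HMT with `ι = MulChar × ℤ` (transport the universe: `MulChar (Cls.RR (md t)) ℂ × ℤ` is a `Type`), `A = 5`, `x = 2 M`, `y = M`,
`y' = 2M`, `Dist` by BRG (3), `N^(1/4) ≤ M`: `c` = a quarter of the `c` of HMT. -/
def SpecHM2 : Prop := ∃ c : ℝ, 0 < c ∧ ∀ a : ℝ, 0 ≤ a → ∀ᶠ N : ℝ in atTop, ∀ (t : ℕ) (M : ℝ) (G : Finset Gi)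
  (W : Finset (MulChar (Cls.RR (md t)) ℂ × ℤ)), 1 ≤ t → (t : ℝ) ≤ Real.log N ^ a → N ^ (1 / 4 : ℝ) ≤ M → M ≤ N →
  G ⊆ GP M (2 * M) → (∀ q ∈ W, |(q.2 : ℝ)| ≤ N) → (W.card : ℝ) ≤ N ^ c →
    ∑ q ∈ W, ‖∑ π ∈ G, hk (fn t q.1) q.2 π‖ ^ 2 ≤ 200 * M ^ 2

/-- ATY (250 lines, from XV.SpecMOT).  The number of atypical characters is `≤ N^c`.
Proof.  MOT with `R = 2P`, `P = ℓ^cP`, `τ = P^(1-c/8)`, `l = ⌈1.2 log N / log P⌉`.  `P^l ≥ N^1.2 ≥ t² Km` (`Km ≤ N`, `t ≤ ℓ^a`), so the last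
bracket is `≤ 2 R^(2l)` and `#atyp ≤ 2 C l!² (1 + l log R) 4^l P^(c l/4)`.  `P^l ≤ N^1.2 P`, so `P^(c l/4) ≤ N^(0.3 c) P`; `4^l = N^o(1)`;
`l ≤ 1.2 ℓ/(cP log ℓ) + 1`, `l! ≤ l^l`, `log l ≤ log ℓ` (`cP ≥ 2`), so `l!² ≤ exp(2 l log ℓ) ≤ exp(2.4 ℓ/cP + 2 log ℓ)`: for `cP ≥ 24/c` this is
`≤ N^(0.1 c) ℓ²`.  Total `≤ N^(0.4 c + o(1))`. -/
def SpecATY : Prop := ∀ c : ℝ, 0 < c → c ≤ 1 → ∃ cP0 : ℝ, ∀ cP : ℝ, cP0 ≤ cP → ∀ a : ℝ, 0 ≤ a → ∀ᶠ N : ℝ in atTop,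
  ∀ (t Km : ℕ) (P : Finset Gi), 2 ≤ t → (t : ℝ) ≤ Real.log N ^ a → 1 ≤ Km → (Km : ℝ) ≤ N →
  P ⊆ GP (Real.log N ^ cP) (2 * Real.log N ^ cP) →
    ((atyp t Km (Real.log N ^ (cP * (1 - c / 8))) P).card : ℝ) ≤ N ^ c

/-! ## The model -/

/-- SUP (200 lines, from HM: `hm_hmt`, `hm_rg0`, CEL of helper63 if it is there).  The pointwise bound.
Proof.  `∑ eta ≤ 1` (unique factorisation: `z ~ π₄ π₂` determines the pair).  For `z ∈ lc h j`, rough: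
`∑_(v4+v2=j) ‖kap‖ ≤ ∑_(v4+v2=j) ∑_U |S4| |S2| / RR ≤ ∑_(v4+v2=j) (∑_U |S4|²)^(1/2) (∑_U |S2|²)^(1/2) / RR`, and HMT for the cells
(`cell h M 2M v ⊆ ann` of length `≤ 3M/h`) gives `∑_U |S4(v4)|² ≤ C (M₄/h)²` (`#cell ≤ C M₄/h` lattice points, `h` a power of `ℓ`),
`∑_U |S2|² ≤ C (M₂/h)²`, `RR ≥ c e^(j/h)/(h log w)`, `e^(j/h) ≥ M₄ M₂/8` (RG0; `VP w ≥ c/log w` by Mertens in `ℤ[i]`, or weaker `VP w ≥ c/(log w)^2`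
from `∏ (1 - 1/N(π)) ≥ ∏_{p ≤ w} (1 - 1/p)²`), at most `h + 2` pairs: total `≤ C (log w)^2 ≤ ℓ - 1`. -/
def SpecSUP : Prop := ∀ cT cP ch cw aQ aU : ℝ, 1 ≤ ch → 1 ≤ cP → cP + 1 ≤ cT → 2 * aQ ≤ cw → 1 ≤ cw → 1 ≤ aQ → ∀ᶠ N : ℝ in atTop,
  ∀ (F : ℝ) (U : Finset Ix), F ≤ N ^ 2 → UOK (Real.log N ^ aQ) F (Real.log N ^ aU) U → ∀ z : Gi,
    ∑ v4 ∈ I4 (par N cT cP ch cw), ∑ v2 ∈ I2 (par N cT cP ch cw),
      (‖eta (par N cT cP ch cw) v4 v2 z‖ + ‖kap (par N cT cP ch cw) U v4 v2 z‖) ≤ Real.log N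

/-- RGS (150 lines, from HM: `hm_rg1`).  Different characters over the rough elements of a lattice cell.
Proof.  `lc h j` is `ann y y'` with `y = ⌈e^(j/h)⌉ - 1`, `y' = ⌈e^((j+1)/h)⌉ - 1` (integer norms; elements `≠ 0`).  RG1 with `A = 5`,
`A' = cw`, `x = N ℓ^a`, `x^(1-c') ≤ N^(1-c'/2)`. -/
def SpecRGS : Prop := ∀ cw : ℝ, 1 ≤ cw → ∃ c : ℝ, 0 < c ∧ c ≤ 1 ∧ ∀ a : ℝ, 0 ≤ a → ∀ᶠ N : ℝ in atTop,
  ∀ (i j : Ix) (h : ℝ) (v : ℕ) (S : Finset Gi), 1 ≤ h → Real.exp ((v + 1) / h) ≤ N * Real.log N ^ a →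
  (1 ≤ i.1 ∧ (i.1 : ℝ) ≤ Real.log N ^ a ∧ ChiG (i.1 : Gi) i.2.1 ∧ |(i.2.2 : ℝ)| ≤ N ^ 2) →
  (1 ≤ j.1 ∧ (j.1 : ℝ) ≤ Real.log N ^ a ∧ ChiG (j.1 : Gi) j.2.1 ∧ |(j.2.2 : ℝ)| ≤ N ^ 2) →
  Dist i.2.1 j.2.1 i.2.2 j.2.2 → (∀ z, z ∈ S ↔ z ∈ lc h v ∧ rgh (Real.log N ^ cw) z) →
    ‖∑ z ∈ S, psi i z * conj (psi j z)‖ ≤ N ^ (1 - c)

/-- NCD (100 lines).  Rough elements not coprime to `t`.
Proof.  Such a `z` is divisible by a Gaussian prime `π ∣ t` with `nm π > w`; up to associates there are at most `3 log t + 1` of them (the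
product of their norms divides `t²`, norms `≥ 2`), and `#{z ∈ disc M : π ∣ z} = #disc (M/nm π) ≤ 9 M/w` (`z = π z'`, `MR` `card_disc_le`:
`#disc x ≤ 9 x` for `x ≥ 1`, empty for `x < 1`). -/
def SpecNCD : Prop := ∀ (t : ℕ) (M w : ℝ) (S : Finset Gi), 1 ≤ t → 0 ≤ M → 1 ≤ w →
  (∀ z ∈ S, z ∈ disc M ∧ rgh w z ∧ ¬ IsCoprime z (t : Gi)) →
    (S.card : ℝ) ≤ 40 * (1 + Real.log t) * M / w

/-- HJS (200 lines).  The cells.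
Proof.  `v / m` determines the group; the pair `(v4, v2)` is in exactly one `j ∈ JJ` (`Nat.unpair_pair`).  Support: `kap ≠ 0` gives
`z ∈ lc (v4+v2)`, `v4 ∈ [m a, m a + m - 1]`, `v2 ∈ [m b, m b + m - 1]`.  `eta ≠ 0`: `z ~ π₄ π₂`, `h log nm z = h log nm π₄ + h log nm π₂`, floor
`v4 + v2` or `v4 + v2 + 1`; a prime dividing `z` is associated to `π₄` or `π₂`, of norm `> √N > w` resp. `> M₂ > w`.  Norms
`< e^((v4+v2+1)/h)`, `v4 ≤ h log (2 M₄)`, `v2 ≤ h log (2 M₂)` for `kap`; in all cases `≤ e · 4 M₄ M₂ = e N T/(4P) ≤ MM'`.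
(4): `ψ_i(i z) = ψ_i(i) ψ_i(z)`, norm and roughness do not change, `eta` depends on the class of associates (`z = 0`: both `0`). -/
def SpecHJS : Prop := ∀ (p : Par) (U : Finset Ix) (m : ℕ), Siz p → 1 ≤ m →
  (∀ j z, HJ p U m j z ≠ 0 → z ∈ SJ p m j) ∧
  (∀ z, ∑ j ∈ JJ p m, HJ p U m j z = Eta p z - Kap p U z) ∧
  (∀ z, ∑ j ∈ JJ p m, ‖HJ p U m j z‖ ≤ ∑ v4 ∈ I4 p, ∑ v2 ∈ I2 p, (‖eta p v4 v2 z‖ + ‖kap p U v4 v2 z‖)) ∧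
  ((∀ i ∈ U, psi i ⟨0, 1⟩ = 1 ∧ ChiG (i.1 : Gi) i.2.1) → ∀ j z, HJ p U m j (⟨0, 1⟩ * z) = HJ p U m j z)

/-- ETH (200 lines).  The sum of `eta` against a character.
Proof.  `q = (t, χ, k)` with `ψ_q(i) = 1`: `∑_z eta(z) ψ_q(z)` over the `z ∈ SJ` (which contains the support, HJS) is
`∑_(π₄, π₂) ∑_(u unit) ψ_q(u π₄ π₂) = 4 ∑ ψ_q(π₄) ∑ ψ_q(π₂)` (four different associates), `ψ_q` multiplicative on nonzero elements.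
(The group: `v4` with `v4 / m = a`, `π₄ ∈ cell v4` iff `⌊h log nm π₄⌋ = v4`.) -/
def SpecETH : Prop := ∀ (p : Par) (m j : ℕ) (i : Ix), Siz p → 1 ≤ m → 1 ≤ i.1 → ChiG (i.1 : Gi) i.2.1 → psi i ⟨0, 1⟩ = 1 →
  ∑ z ∈ SJ p m j, (∑ v4 ∈ (I4 p).filter (fun v => v / m = (Nat.unpair j).1),
      ∑ v2 ∈ (I2 p).filter (fun v => v / m = (Nat.unpair j).2), eta p v4 v2 z) * psi i z =
    4 * G4 p m i (Nat.unpair j).1 * G2 p m i (Nat.unpair j).2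

/-- HTS (200 lines, from RGS, HJS, ETH).  The sum of `HJ` against a character different from all of `U`.
Proof.  ETH for the `eta` part.  The `kap` part: `∑_z kap(z) ψ_q(z) = ∑_(i∈U) cc_i ∑_(z ∈ lc (v4+v2), rough) conj ψ_i ψ_q`, each inner sum
`≤ N^(1-c)` (RGS), and `|cc_i| ≤ |S4| |S2| / RR`, where
`|S4(v4)| ≤ #cell(v4)`, `|S2(v2)| ≤ 4 #cell(v2)`, `#cell(v4) #cell(v2) ≤ C M₄ M₂` and `RR ≥ M₄ M₂/ℓ^(ch+2)` (RG0, as in SUP), so `|cc_i| ≤ ℓ^(ch+3)`;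
the number of `(v4, v2, i)` is a power of `ℓ`. -/
def SpecHTS : Prop := ∀ cw : ℝ, 1 ≤ cw → ∃ c : ℝ, 0 < c ∧ c ≤ 1 ∧ ∀ cT cP ch aQ aU a : ℝ, 1 ≤ ch → 1 ≤ cP → cw + 1 ≤ cP → cP + 1 ≤ cT →
  2 * aQ ≤ cw → 1 ≤ aQ → ∀ᶠ N : ℝ in atTop, ∀ (F : ℝ) (U : Finset Ix), F ≤ N ^ 2 →
  UOK (Real.log N ^ aQ) F (Real.log N ^ aU) U → ∀ (i : Ix) (m j : ℕ), 1 ≤ m →
  1 ≤ i.1 → (i.1 : ℝ) ≤ Real.log N ^ a → ChiG (i.1 : Gi) i.2.1 → |(i.2.2 : ℝ)| ≤ N ^ 2 → psi i ⟨0, 1⟩ = 1 →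
  (∀ u ∈ U, Dist i.2.1 u.2.1 i.2.2 u.2.2) →
    ‖∑ z ∈ SJ (par N cT cP ch cw) m j, HJ (par N cT cP ch cw) U m j z * psi i z‖ ≤
      4 * ‖G4 (par N cT cP ch cw) m i (Nat.unpair j).1‖ * ‖G2 (par N cT cP ch cw) m i (Nat.unpair j).2‖ + N ^ (1 - c)

/-- HTA (250 lines, from RGS, NCD, HJS, ETH, SUP).  The sum of `HJ` against a character `i = (t, χ, k)` which is `u ∈ U` on the elements
coprime to `t`.
Proof.  `eta` part: `4 G4(i) G2(i) = 4 G4(u) G2(u)` (the `π₄`, `π₂` have norm `> t²`, so they are coprime to `t`, where `ψ_i = ψ_u`)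
`= ∑_(v4,v2) S4(u) S2(u)` (the groups).  `kap` part: the `z` are rough.  For `z` coprime to `t` one has `ψ_i(z) = ψ_u(z)`, for the others
`ψ_i(z) = 0`, so it is `∑_(v4,v2) ∑_(z ∈ lc, rough) kap(z) ψ_u(z)` minus the sum over the `z` not coprime to `t`, which is in absolute value
`≤ ∑_(z ∈ SJ, not coprime) ∑_(v4,v2) ‖kap(z)‖ ≤ ℓ · 40 (1 + log t) MM'/w` (SUP, NCD, `|ψ_u| ≤ 1`).  And
`∑_(z ∈ lc, rough) kap ψ_u = cc_u RR + ∑_(u' ≠ u) cc_u' ∑ conj ψ_u' ψ_u = S4(u) S2(u) + O(#U ℓ^(ch+3) N^(1-c))` (`|ψ_u(z)| = 1` for rough `z`: the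
primes dividing the modulus have norm `≤ ℓ^(2 aQ) ≤ w`; RGS; `RR > 0` by RG0).  The main parts cancel. -/
def SpecHTA : Prop := ∀ cw : ℝ, 1 ≤ cw → ∃ c : ℝ, 0 < c ∧ c ≤ 1 ∧ ∀ cT cP ch aQ aU a : ℝ, 1 ≤ ch → 1 ≤ cP → cw + 1 ≤ cP → cP + 1 ≤ cT →
  2 * aQ ≤ cw → 1 ≤ aQ → ∀ᶠ N : ℝ in atTop, ∀ (F : ℝ) (U : Finset Ix), F ≤ N ^ 2 →
  UOK (Real.log N ^ aQ) F (Real.log N ^ aU) U → ∀ (i : Ix) (m j : ℕ), 1 ≤ m →
  1 ≤ i.1 → (i.1 : ℝ) ≤ Real.log N ^ a → ChiG (i.1 : Gi) i.2.1 →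
  (∃ u ∈ U, i.2.2 = u.2.2 ∧ ∀ z, i.2.1 z ≠ 0 → u.2.1 z = i.2.1 z) →
    ‖∑ z ∈ SJ (par N cT cP ch cw) m j, HJ (par N cT cP ch cw) U m j z * psi i z‖ ≤
      40 * (1 + Real.log i.1) * Real.log N * MM' (par N cT cP ch cw) / (par N cT cP ch cw).w + N ^ (1 - c)

/-- PRC (250 lines, from HJS, SUP).  The hypotheses of the variance inequality.
Proof.  `p = par N cT cP ch cw`, `κ = 2`, `ρ = 1000`, `K = p.K`, `Y = 2NT`, `η = 3/hc`, `hc = ℓ^ch0` (coarse), `m = ⌊h/hc⌋ ≥ 1`, `M = MM'`,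
`F = ℓ`, `T₁ = ⌈4T⌉`, `Km = ⌊ℓ^aF N/B⌋`, `I = VV hc P 2P`, `P_i = cell hc P 2P i`, `L i j = e^(i/hc) e^(m(a+b)/h)`.
`8Y = 16NT ≤ T₁² K` (`T₁ ≥ 4T`), `T₁² K ≤ 25 T² N/T ≤ 32NT`; `T₁ ≤ 5T ≤ B`; `32·1000·T₁ B ≤ 2NT` for `B ≤ 2√N`; `π Y ≤ 8 T₀ B Km` from
`T₀ ≥ T ℓ^(-a₀)/2` and `aF ≥ a₀ + 1`.  `L`: `i ≥ hc log P - 1`, `m a ≥ h log M₄ - m - 1`.., so `L ≥ P M₄ M₂ e^(-5) ≥ Y/ρ`.. with `P M₄ M₂ = NT/16`
(`e^(-1/hc - 2m/h - 2/h) ≥ 1/2` for `hc` large, so `L ≥ NT/32 = Y/64`); `e^η L ≤ 2 · 8 P M₄ M₂ = NT ≤ Y`.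
`hL'`: for `p ∈ P_i`: `e^(i/hc) ≤ nm p < e^((i+1)/hc)`; for `z ∈ SJ j`: `e^(m(a+b)/h) ≤ nm z < e^((m(a+b)+2m)/h)`, `2m/h ≤ 2/hc`.
`hh`: HJS (3) and SUP. -/
def SpecPRC : Prop := ∀ (ch0 a₀ aF aU aQ cw : ℝ), 1 ≤ ch0 → 0 < a₀ → a₀ + 1 ≤ aF → 2 * aQ ≤ cw → 1 ≤ cw → 1 ≤ aQ →
  ∀ ch cP cT : ℝ, ch0 + 1 ≤ ch → cw + 1 ≤ cP → cP + a₀ + 2 ≤ cT → ∀ cB : ℝ, cT + aF + 1 ≤ cB → ∀ᶠ N : ℝ in atTop, ∀ B : ℝ,
  Real.log N ^ cB ≤ B → B ^ 2 ≤ 2 * N → ∀ U : Finset Ix,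
  UOK (Real.log N ^ aQ) (Real.log N ^ aF * (N / B)) (Real.log N ^ aU) U →
  XV.Par 2 1000 (par N cT cP ch cw).K (2 * N * Real.log N ^ cT) B (3 / Real.log N ^ ch0) (par N cT cP ch cw).w
    (MM' (par N cT cP ch cw)) (Real.log N) ⌊Real.log N ^ (cT - a₀)⌋₊ ⌈4 * Real.log N ^ cT⌉₊ ⌊Real.log N ^ aF * (N / B)⌋₊
    (VV (Real.log N ^ ch0) (Real.log N ^ cP) (2 * Real.log N ^ cP)) (JJ (par N cT cP ch cw) ⌊Real.log N ^ ch / Real.log N ^ ch0⌋₊)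
    (fun i j => Real.exp (i / Real.log N ^ ch0) *
      Real.exp (⌊Real.log N ^ ch / Real.log N ^ ch0⌋₊ * ((Nat.unpair j).1 + (Nat.unpair j).2) / Real.log N ^ ch))
    (fun i => cell (Real.log N ^ ch0) (Real.log N ^ cP) (2 * Real.log N ^ cP) i)
    (SJ (par N cT cP ch cw) ⌊Real.log N ^ ch / Real.log N ^ ch0⌋₊)
    (HJ (par N cT cP ch cw) U ⌊Real.log N ^ ch / Real.log N ^ ch0⌋₊)

/-- LNS (150 lines, from HJS).  The left side of the variance inequality is `Var`.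
Proof.  `ls p ζ b (Eta - Kap) = ∑_π ∑_z (Eta - Kap)(z)`; `GP P 2P` is the disjoint union of the `cell hc P 2P i`, `i ∈ VV`; `(Eta - Kap)(z) =
∑_j HJ j z`, supported on `SJ j ⊆ disc (NT)`; `On (ζ π) b z` is `(ζ π z).im = b ∧ 0 < (ζ π z).re`.  `Ioc ⌊B⌋₊ ⌊2B⌋₊` and `Ioc ⌊B⌋ ⌊2B⌋` correspond (`B ≥ 0`). -/
def SpecLNS : Prop := ∀ (p : Par) (U : Finset Ix) (m : ℕ) (hc B : ℝ), Siz p → 1 ≤ m → 1 ≤ hc → 0 ≤ B →
  Var p B (fun z => Eta p z - Kap p U z) =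
    ∑ z1 ∈ (ann p.K (2 * p.K)).filter prim, ∑ b ∈ Ioc ⌊B⌋ ⌊2 * B⌋, ‖∑ i ∈ VV hc p.P (2 * p.P), ∑ j ∈ JJ p m,
      ∑ π ∈ cell hc p.P (2 * p.P) i, ∑ z ∈ (SJ p m j).filter (fun z => (z1 * (π * z)).im = b ∧ 0 < (z1 * (π * z)).re),
        HJ p U m j z‖ ^ 2

/-- the character is large on some coarse cell of `π₄`, or it is the trivial one -/
def Lrg (p : Par) (m : ℕ) (A₁ : ℝ) (i : Ix) : Prop :=
  Eqv i ix1 ∨ ∃ a ∈ (I4 p).image (fun v => v / m), Real.sqrt p.N * Real.log p.N ^ (-A₁) < ‖G4 p m i a‖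

/-- USET (300 lines, from BRG, CON, LVX).  The set `U`.
Proof.  Let `C` be the finite set of the indices `ixq t q`, `1 ≤ t ≤ T₁`, `q ∈ chs t × IK Km`, with `ψ(i) = 1` and `Lrg`.  Let `W ⊆ C` be a maximal
subset whose elements are pairwise `Dist` (`Finset.exists_maximal` or induction).  Every `q ∈ C` is `Eqv` to some `w ∈ W` (if `q ∈ W`: itself).
For each `a` the `w ∈ W` with `‖G4 w a‖` large are at most `300 ℓ^(2 A₁)` (LVX; `Km ≤ N ≤ N²`), one `w` is `Eqv ix1` at most (two of them would be `Eqv`: for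
`w`, `w'` both `Eqv ix1`: `χ_w z = 1` where nonzero), and the number of `a` is `≤ 4 hc + 4` (`m ≥ h/(2 hc)`): so `#W ≤ ℓ^(2 A₁ + ch0 + 1)`.
CON gives `(f_w, χ*_w)` for `w ∈ W`.  `U` = the `(f_w, χ*_w, k_w)` with `f_w ≤ ℓ^aQ`.  UOK: `Dist` from the `Dist` of the `w` (`χ*_w z = χ_w z` where
`χ_w z ≠ 0`); `ψ(i) = 1` (`χ_w(i) ≠ 0`, a unit); `ix1 ∈ U`: the index `(1, 1, 0)` is in `C`, so some `w` is `Eqv` to it, `f_w = 1` (`f_w ∣ 1` by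
the last clause of CON), and `ChiG 1 χ` implies `χ = 1` (period `1`).
Conclusion (a): `q` large and `Eqv w`, `f_w ≤ ℓ^aQ`: the last clause of CON for `t`, `χ_q` gives `χ*_w z = χ_q z` where `χ_q z ≠ 0`.
(b): the `q` large and `Eqv w` with `f_w > ℓ^aQ`: `f_w ∣ t`; for fixed `t` and `w` at most one `q` (`χ_q z = χ*_w z` where `χ_q z ≠ 0`, i.e. for all `z` coprime
to `t`).  So `∑_t (1/t) #{such q} ≤ ∑_w ∑_(f_w ∣ t ≤ T₁) 1/t ≤ #W (1 + log T₁) ℓ^(-aQ)`.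
(c): `q` not large (with `ψ(i) = 1`) is `Dist` from all `u ∈ U`: if `Eqv q u`, `u` from `w`: `χ_q = χ*_w = χ_w` on the `z` coprime to the moduli of `q` and `w` (choose
`z' ≡ z`; or: last clause of CON needs `χ_q`, `χ_w` agree where both are nonzero: for `z` coprime to both moduli `χ*_w z = χ_w z` and
`χ_q z = χ*_w z` since both are nonzero, as `f_w ∣ t_w`).  The primes `π₄` have norm `√N > T₁²`, so they are coprime to the moduli, so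
`G4 q a = G4 w a` and `q` is large; if `w` is `Eqv ix1` then `f_w = 1`, `u = ix1` and `q` is `Eqv ix1`. -/
def SpecUSET : Prop := ∀ ch0 A₁ aQ aT : ℝ, 1 ≤ ch0 → 1 ≤ A₁ → 1 ≤ aQ → 0 ≤ aT → ∀ cT cP ch cw : ℝ, ch0 + 1 ≤ ch → ∀ᶠ N : ℝ in atTop,
  ∀ (T₁ Km : ℕ), (T₁ : ℝ) ≤ Real.log N ^ aT → 1 ≤ T₁ → (Km : ℝ) ≤ N →
  ∃ U : Finset Ix, UOK (Real.log N ^ aQ) Km (Real.log N ^ (2 * A₁ + ch0 + 2)) U ∧
    ∃ E : (t : ℕ) → Finset (MulChar (Cls.RR (md t)) ℂ × ℤ),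
      (∑ t ∈ Icc 1 T₁, ((E t).card : ℝ) / t ≤ Real.log N ^ (2 * A₁ + ch0 + 3 - aQ)) ∧
      ∀ t : ℕ, 1 ≤ t → t ≤ T₁ → ∀ q : MulChar (Cls.RR (md t)) ℂ × ℤ, q.1 ∈ chs t → q.2 ∈ IK Km →
        psi (ixq t q) ⟨0, 1⟩ = 1 →
        q ∈ E t ∨ (∃ u ∈ U, q.2 = u.2.2 ∧ ∀ z, fn t q.1 z ≠ 0 → u.2.1 z = fn t q.1 z) ∨
          ((∀ u ∈ U, Dist (fn t q.1) u.2.1 q.2 u.2.2) ∧ ∀ a ∈ (I4 (par N cT cP ch cw)).image
            (fun v => v / ⌊Real.log N ^ ch / Real.log N ^ ch0⌋₊),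
            ‖G4 (par N cT cP ch cw) ⌊Real.log N ^ ch / Real.log N ^ ch0⌋₊ (ixq t q) a‖ ≤
              Real.sqrt N * Real.log N ^ (-A₁))

/-- FIN (350 lines, strong; from XV.SpecVAR, XV.SpecPHI, BRG, HM2, ATY, HJS, SUP, HTS, HTA, PRC, LNS, USET).  `X.SpecVAR`.
Proof.  Given `A`.  Constants in this order: `a₀ = A + 9` (`T₀ = T ℓ^(-a₀)`); `ch0 = A + 2 a₀ + 10` (`η = 3/hc`); `nIJ = 3 ch0 + 4` (`#I #J ≤ ℓ^nIJ`: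
`#I ≤ 2 hc`, `#J ≤ (4 hc + 4)²`); `aF = A + 2 nIJ + a₀ + 10`; `A₁ = A + 2 nIJ + 10`; `aU = 2 A₁ + ch0 + 2`;
`aQ = A + aU + 2 nIJ + 20`; `cw = 2 aQ + A + aU + 2 nIJ + 20`; `c` = the least of the `c` of HM2, HTS, HTA, divided by `4`; then ATY with
`c`: `cP0`; `ch0`(output) `= ch0 + 1`.  For `ch`, `cP ≥ max` of everything and `cP ≥ (8/c)(A + 2 nIJ + 20)`, `cT ≥ cP + a₀ + aF + 10`, `cB ≥ cT + cP + aF + 10`.
Let `N` be large, `Km = ⌊ℓ^aF N/B⌋ ≤ N`, `T₁ = ⌈4T⌉`, `U`, `E` from USET (UOK with `Km ≤ ℓ^aF (N/B)`; weaken `frq`).  LNS and XV.SpecVAR with PRC,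
`τ = P^(1 - c/8)`.  `BY = 2 B N T = 2 B K T²`.  First part: `C ℓ^2 (1+log Y)^5 BY (..)`, `≤ ℓ^8 BY (..)` and every term in the bracket is
`≤ ℓ^(-A-9)`: `T₀ √(K/Y) ≤ ℓ^(-a₀)`; `η (Y/(T₀² K) + 1) ≤ (3/hc)(8 ℓ^(2 a₀) + 1)`; `B²/(KY) ≤ 1/N`.. ; `1/w`; `1/B`; `(#I#J)² τ² (M/Y)² = (#I#J)² P^(-c/4)`;
`(#I#J)² τ² T₁ M/(BY) ≤ ℓ^(2 nIJ) P² · 5T/(P B)`; `(#I#J)² Y/(B Km) (1/B + 1/T₀) ≤ ℓ^(2 nIJ) · 4 T ℓ^(-aF) (1/B + 2 ℓ^a₀/T)`.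
Second part: `t/ph t ≤ (1 + 2 log t)²/t ≤ ℓ/t` (PHI).  `hat = ∑ f hk` (BRG).  `‖hat P_i‖ ≤ #P_i ≤ 18 P`.  For `q` with `ψ_q(i) ≠ 1` the sum over `S_j` of `HJ ψ_q` is `0`
(HJS (4), `SJ` is invariant under `z ↦ i z`: apply it once, `(1 - ψ_q(i)) ∑ = 0`).  For the others, by USET three cases:
`q ∈ E t`: `‖hat HJ‖ ≤ ℓ #S_j ≤ 9 ℓ M`; `∑_t (ℓ/t) #E t ≤ ℓ^(aU + 2 - aQ)`;
`q` = some `u ∈ U`: HTA: `‖hat HJ‖ ≤ ℓ^3 M/w + N^(1-c)`; for every `t` at most `#U` such `q` (the `q` with the same `u` are equal, BRG);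
the others: HTS: `‖hat HJ‖² ≤ 32 (√N ℓ^(-A₁))² ‖G2 q b‖² + 2 N^(2-2c)`, `∑_(q ∈ atyp) ‖G2 q b‖² ≤ 200 M₂²` (HM2; `#atyp ≤ N^c`, ATY with `a = cT + 1`;
`b` fixed), and `#atyp N^(2-2c') ≤ N^(2 - c)`.
In all cases (`(18P)² M² ≤ 1500 Y²`, `P √N M₂ = NT/16`) the second part is at most
`C ℓ^nIJ (B/Y) · ℓ^nIJ · C Y² (ℓ^(aU+2-aQ) ℓ^2 + ℓ^(aU + 8) /w² + ℓ^(3 - 2 A₁) + N^(-c/2)) ≤ BY ℓ^(-A-1)`. -/
def SpecFIN : Prop := XV.SpecVAR → XV.SpecPHI → SpecBRG → SpecHM2 → SpecATY → SpecHJS → SpecSUP → SpecHTS → SpecHTA →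
  SpecPRC → SpecLNS → SpecUSET → X.SpecVAR

end Pool.Agent.Lib.MP391708.XU
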