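import Pool.Agent.Lib.MP_391708_nt.X.U.Spec

/-!
# Theorem X, part U, module USET: the set `U`
-/

set_option autoImplicit false

namespace Pool.Agent.Lib.MP391708.XU

open Finset Filter Topology Pool.Agent.Lib.MP391708.MR
open Pool.Agent.Lib.MP391708.X (Par par ChiG hk Dist Fam rgh Ix psi ix1 UOK lc RR S4 S2 I4 I2 eta kap Eta Kap On Var)
open Pool.Agent.Lib.MP391708.XV (md chs ph hat atyp)
open scoped ComplexConjugate

namespace USETM

/-! ### generalities -/

theorem md_ne {t : ℕ} (ht : 1 ≤ t) : md t ≠ 0 := by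
  intro h
  have h1 := congrArg Zsqrtd.re h
  rw [Zsqrtd.re_intCast, Zsqrtd.re_zero] at h1
  omega

theorem mem_chs {t : ℕ} (ht : 1 ≤ t) (χ : MulChar (Cls.RR (md t)) ℂ) : χ ∈ chs t := by
  have := Cls.finite_RR (md_ne ht)
  have h : (Set.univ : Set (MulChar (Cls.RR (md t)) ℂ)).Finite := Set.finite_univ
  unfold chs
  rw [dif_pos h, Set.Finite.mem_toFinset]
  exact Set.mem_univ χ

theorem dist_symm {χ χ' : Gi → ℂ} {k k' : ℤ} (h : Dist χ χ' k k') : Dist χ' χ k' k := by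
  rcases h with h | ⟨z, h1, h2, h3⟩
  · exact Or.inl h.symm
  · exact Or.inr ⟨z, h2, h1, h3.symm⟩

theorem not_dist {χ χ' : Gi → ℂ} {k k' : ℤ} (h : ¬ Dist χ χ' k k') :
    k = k' ∧ ∀ z, χ z ≠ 0 → χ' z ≠ 0 → χ z = χ' z := by
  unfold Pool.Agent.Lib.MP391708.X.Dist at h
  push Not at h
  exact h

theorem chiG_one : ChiG ((1 : ℕ) : Gi) (fun _ => 1) where
  ne := by simp
  one := rfl
  mul := fun _ _ => by simp
  period := fun _ _ => rfl
  supp := fun x => by
    simp only [ne_eq, one_ne_zero, not_false_eq_true, Nat.cast_one, true_iff]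
    exact isCoprime_one_right

theorem exists_reps (C : Finset Ix) : ∃ W ⊆ C,
    (∀ i ∈ W, ∀ j ∈ W, i ≠ j → Dist i.2.1 j.2.1 i.2.2 j.2.2) ∧
    ∀ i ∈ C, ∃ w ∈ W, ¬ Dist i.2.1 w.2.1 i.2.2 w.2.2 := by
  classical
  induction C using Finset.induction_on with
  | empty => exact ⟨∅, Subset.refl _, by simp, by simp⟩
  | insert a C ha ih =>
    obtain ⟨W, hW, h1, h2⟩ := ih
    by_cases h : ∃ w ∈ W, ¬ Dist a.2.1 w.2.1 a.2.2 w.2.2
    · refine ⟨W, hW.trans (subset_insert _ _), h1, ?_⟩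
      intro i hi
      rcases mem_insert.1 hi with rfl | hi
      · exact h
      · exact h2 i hi
    · push Not at h
      refine ⟨insert a W, insert_subset_insert _ hW, ?_, ?_⟩
      · intro i hi j hj hij
        rcases mem_insert.1 hi with hi' | hi'
        · rcases mem_insert.1 hj with hj' | hj'
          · exact absurd (hi'.trans hj'.symm) hij
          · rw [hi']; exact h j hj'
        · rcases mem_insert.1 hj with hj' | hj'
          · rw [hj']; exact dist_symm (h i hi')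
          · exact h1 i hi' j hj' hij
      · intro i hi
        rcases mem_insert.1 hi with rfl | hi
        · refine ⟨i, mem_insert_self _ _, ?_⟩
          rintro (h | ⟨z, _, _, h⟩) <;> exact h rfl
        · obtain ⟨w, hw, h3⟩ := h2 i hi
          exact ⟨w, mem_insert_of_mem hw, h3⟩

/-- the primitive form -/
structure Con (i u : Ix) : Prop where
  pos : 1 ≤ u.1
  dvd : u.1 ∣ i.1
  chi : ChiG (u.1 : Gi) u.2.1
  frq : u.2.2 = i.2.2
  eq : ∀ z, i.2.1 z ≠ 0 → u.2.1 z = i.2.1 z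
  uni : ∀ (t : ℕ) (χ' : Gi → ℂ), 1 ≤ t → ChiG (t : Gi) χ' →
    (∀ z, χ' z ≠ 0 → i.2.1 z ≠ 0 → χ' z = i.2.1 z) → u.1 ∣ t ∧ ∀ z, χ' z ≠ 0 → u.2.1 z = χ' z

theorem con_choice (hCON : SpecCON) : ∃ u : Ix → Ix, ∀ i : Ix, 1 ≤ i.1 → ChiG (i.1 : Gi) i.2.1 →
    Con i (u i) := by
  classical
  have : ∀ i : Ix, ∃ u : Ix, 1 ≤ i.1 → ChiG (i.1 : Gi) i.2.1 → Con i u := by
    intro i
    by_cases h : 1 ≤ i.1 ∧ ChiG (i.1 : Gi) i.2.1
    · obtain ⟨f, χ, h1, h2, h3, h4, h5⟩ := hCON i h.1 h.2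
      exact ⟨(f, χ, i.2.2), fun _ _ => ⟨h1, h2, h3, rfl, h4, h5⟩⟩
    · exact ⟨i, fun h1 h2 => absurd ⟨h1, h2⟩ h⟩
  choose u hu using this
  exact ⟨u, hu⟩

theorem sum_inv_le {T : ℕ} {f : ℕ} (hf : 1 ≤ f) :
    ∑ t ∈ (Icc 1 T).filter (fun t => f ∣ t), (1 : ℝ) / t ≤ (1 + Real.log T) / f := by
  have hf0 : (0 : ℝ) < f := by exact_mod_cast hf
  have h1 : ∑ t ∈ (Icc 1 T).filter (fun t => f ∣ t), (1 : ℝ) / t ≤
      ∑ s ∈ Icc 1 T, (1 : ℝ) / ((f * s : ℕ) : ℝ) := by
    have h2 : (Icc 1 T).filter (fun t => f ∣ t) ⊆ (Icc 1 T).image (fun s => f * s) := by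
      intro t ht
      rw [mem_filter, mem_Icc] at ht
      obtain ⟨⟨h3, h4⟩, s, rfl⟩ := ht
      rw [mem_image]
      refine ⟨s, mem_Icc.2 ⟨?_, ?_⟩, rfl⟩
      · by_contra h
        have : s = 0 := by omega
        rw [this] at h3
        simp at h3
      · nlinarith
    refine (sum_le_sum_of_subset_of_nonneg h2 (fun _ _ _ => by positivity)).trans ?_
    rw [sum_image]
    intro a _ b _ h
    exact Nat.eq_of_mul_eq_mul_left (by omega) h
  refine h1.trans ?_
  have h3 : ∑ s ∈ Icc 1 T, (1 : ℝ) / ((f * s : ℕ) : ℝ) = (∑ s ∈ Icc 1 T, ((s : ℝ))⁻¹) / f := by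
    rw [sum_div]
    refine sum_congr rfl fun s hs => ?_
    have : (0 : ℝ) < s := by exact_mod_cast (mem_Icc.1 hs).1
    push_cast
    field_simp
  rw [h3]
  refine div_le_div_of_nonneg_right ?_ hf0.le
  have h4 := harmonic_le_one_add_log T
  rw [harmonic_eq_sum_Icc] at h4
  push_cast at h4
  exact h4

/-! ### the deterministic part -/

theorem main (hB : SpecBRG) {T₁ Km : ℕ} (hT : 1 ≤ T₁) {Q : ℝ} (hQ : 1 ≤ Q) (u : Ix → Ix)
    (L : Ix → Prop) (W : Finset Ix) (hu : ∀ w ∈ W, Con w (u w))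
    (hW1 : ∀ w ∈ W, psi w ⟨0, 1⟩ = 1 ∧ w.2.2 ∈ IK Km)
    (hW2 : ∀ i ∈ W, ∀ j ∈ W, i ≠ j → Dist i.2.1 j.2.1 i.2.2 j.2.2)
    (hW3 : ∀ (t : ℕ) (q : MulChar (Cls.RR (md t)) ℂ × ℤ), 1 ≤ t → t ≤ T₁ → q.1 ∈ chs t →
      q.2 ∈ IK Km → psi (ixq t q) ⟨0, 1⟩ = 1 → L (ixq t q) →
      ∃ w ∈ W, ¬ Dist (fn t q.1) w.2.1 q.2 w.2.2)
    (hW4 : ∃ w ∈ W, Eqv ix1 w)
    (hLt : ∀ (t : ℕ) (q : MulChar (Cls.RR (md t)) ℂ × ℤ), 1 ≤ t → t ≤ T₁ → ∀ w ∈ W,
      ¬ Dist (fn t q.1) (u w).2.1 q.2 (u w).2.2 → L (ixq t q)) :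
    ∃ U : Finset Ix, UOK Q Km (W.card : ℝ) U ∧
      ∃ E : (t : ℕ) → Finset (MulChar (Cls.RR (md t)) ℂ × ℤ),
        (∑ t ∈ Icc 1 T₁, ((E t).card : ℝ) / t ≤ W.card * ((1 + Real.log T₁) / Q)) ∧
        ∀ t : ℕ, 1 ≤ t → t ≤ T₁ → ∀ q : MulChar (Cls.RR (md t)) ℂ × ℤ, q.1 ∈ chs t → q.2 ∈ IK Km →
          psi (ixq t q) ⟨0, 1⟩ = 1 →
          q ∈ E t ∨ (∃ u ∈ U, q.2 = u.2.2 ∧ ∀ z, fn t q.1 z ≠ 0 → u.2.1 z = fn t q.1 z) ∨
            ((∀ u ∈ U, Dist (fn t q.1) u.2.1 q.2 u.2.2) ∧ ¬ L (ixq t q)) := by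
  classical
  refine ⟨(W.filter (fun w => ((u w).1 : ℝ) ≤ Q)).image u, ?_,
    fun t => (W.filter (fun w => Q < ((u w).1 : ℝ) ∧ (u w).1 ∣ t)).biUnion (fun w =>
      (chs t ×ˢ IK Km).filter (fun q => q.2 = w.2.2 ∧ ∀ z, fn t q.1 z ≠ 0 → (u w).2.1 z = fn t q.1 z)),
    ?_, ?_⟩
  · refine ⟨?_, ?_, ?_, ?_, ?_, ?_⟩
    · intro i hi
      obtain ⟨w, hw, rfl⟩ := mem_image.1 hi
      rw [mem_filter] at hw
      exact ⟨(hu w hw.1).pos, hw.2, (hu w hw.1).chi⟩
    · intro i hi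
      obtain ⟨w, hw, rfl⟩ := mem_image.1 hi
      rw [mem_filter] at hw
      rw [(hu w hw.1).frq]
      have h := (hW1 w hw.1).2
      unfold IK at h
      rw [mem_Icc] at h
      have : |w.2.2| ≤ (Km : ℤ) := abs_le.2 h
      exact_mod_cast this
    · intro i hi
      obtain ⟨w, hw, rfl⟩ := mem_image.1 hi
      rw [mem_filter] at hw
      have h := (hW1 w hw.1).1
      unfold psi hk at h ⊢
      have h0 : w.2.1 ⟨0, 1⟩ ≠ 0 := by
        intro h0
        rw [h0, zero_mul] at h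
        exact zero_ne_one h
      rw [(hu w hw.1).frq, (hu w hw.1).eq _ h0, h]
    · intro i hi j hj hij
      obtain ⟨w, hw, rfl⟩ := mem_image.1 hi
      obtain ⟨w', hw', rfl⟩ := mem_image.1 hj
      rw [mem_filter] at hw hw'
      have hne : w ≠ w' := by
        rintro rfl
        exact hij rfl
      rw [(hu w hw.1).frq, (hu w' hw'.1).frq]
      rcases hW2 w hw.1 w' hw'.1 hne with h | ⟨z, h1, h2, h3⟩
      · exact Or.inl h
      · refine Or.inr ⟨z, ?_, ?_, ?_⟩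
        · rw [(hu w hw.1).eq z h1]; exact h1
        · rw [(hu w' hw'.1).eq z h2]; exact h2
        · rw [(hu w hw.1).eq z h1, (hu w' hw'.1).eq z h2]; exact h3
    · obtain ⟨w, hw, h⟩ := hW4
      have h1 := not_dist h
      have h2 := (hu w hw).uni 1 (fun _ => 1) le_rfl chiG_one
        (fun z hz hz' => h1.2 z hz hz')
      have h3 : (u w).1 = 1 := Nat.dvd_one.1 h2.1
      have h4 : (u w).2.1 = fun _ => 1 := by
        funext z
        exact h2.2 z one_ne_zero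
      have h5 : (u w).2.2 = 0 := by
        rw [(hu w hw).frq]
        exact h1.1.symm
      rw [mem_image]
      refine ⟨w, mem_filter.2 ⟨hw, ?_⟩, ?_⟩
      · rw [h3]
        simpa using hQ
      · unfold ix1
        rw [← h3, ← h4, ← h5]
    · exact_mod_cast (card_image_le.trans (card_filter_le _ _))
  · have hcard : ∀ t ∈ Icc 1 T₁, (((W.filter (fun w => Q < ((u w).1 : ℝ) ∧ (u w).1 ∣ t)).biUnion
        (fun w => (chs t ×ˢ IK Km).filter (fun q => q.2 = w.2.2 ∧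
          ∀ z, fn t q.1 z ≠ 0 → (u w).2.1 z = fn t q.1 z))).card : ℝ) / t ≤
        ∑ w ∈ W.filter (fun w => Q < ((u w).1 : ℝ)), if (u w).1 ∣ t then (1 : ℝ) / t else 0 := by
      intro t ht
      rw [mem_Icc] at ht
      have h1 : ((W.filter (fun w => Q < ((u w).1 : ℝ) ∧ (u w).1 ∣ t)).biUnion
        (fun w => (chs t ×ˢ IK Km).filter (fun q => q.2 = w.2.2 ∧
          ∀ z, fn t q.1 z ≠ 0 → (u w).2.1 z = fn t q.1 z))).card ≤
          (W.filter (fun w => Q < ((u w).1 : ℝ) ∧ (u w).1 ∣ t)).card := by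
        refine card_biUnion_le.trans ?_
        rw [card_eq_sum_ones]
        refine sum_le_sum fun w hw => ?_
        rw [card_le_one]
        intro q hq q' hq'
        rw [mem_filter] at hq hq'
        by_contra hne
        rcases hB.2.2.1 t q q' ht.1 hne with h | ⟨z, h1, h2, h3⟩
        · exact h (hq.2.1.trans hq'.2.1.symm)
        · exact h3 ((hq.2.2 z h1).symm.trans (hq'.2.2 z h2))
      have h2 : (∑ w ∈ W.filter (fun w => Q < ((u w).1 : ℝ)), if (u w).1 ∣ t then (1 : ℝ) / t else 0) =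
          ((W.filter (fun w => Q < ((u w).1 : ℝ) ∧ (u w).1 ∣ t)).card : ℝ) / t := by
        rw [← sum_filter, filter_filter, sum_const, nsmul_eq_mul]
        ring
      rw [h2]
      refine div_le_div_of_nonneg_right ?_ (Nat.cast_nonneg _)
      exact_mod_cast h1
    refine (sum_le_sum hcard).trans ?_
    rw [sum_comm]
    have hQ0 : 0 < Q := by linarith
    have hlog : 0 ≤ Real.log T₁ := Real.log_nonneg (by exact_mod_cast hT)
    have h3 : ∀ w ∈ W.filter (fun w => Q < ((u w).1 : ℝ)),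
        (∑ t ∈ Icc 1 T₁, if (u w).1 ∣ t then (1 : ℝ) / t else 0) ≤ (1 + Real.log T₁) / Q := by
      intro w hw
      rw [mem_filter] at hw
      rw [← sum_filter]
      refine (sum_inv_le (hu w hw.1).pos).trans ?_
      exact div_le_div_of_nonneg_left (by linarith) hQ0 hw.2.le
    refine (sum_le_sum h3).trans ?_
    rw [sum_const, nsmul_eq_mul]
    refine mul_le_mul_of_nonneg_right ?_ (by positivity)
    exact_mod_cast card_filter_le _ _
  · intro t ht1 ht2 q hq1 hq2 hq3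
    by_cases hL : L (ixq t q)
    · obtain ⟨w, hw, h1⟩ := hW3 t q ht1 ht2 hq1 hq2 hq3 hL
      have h2 := not_dist h1
      have h3 := (hu w hw).uni t (fn t q.1) ht1 (hB.1 t q.1 ht1) h2.2
      by_cases h4 : ((u w).1 : ℝ) ≤ Q
      · right; left
        refine ⟨u w, mem_image_of_mem u (mem_filter.2 ⟨hw, h4⟩), ?_, h3.2⟩
        rw [(hu w hw).frq]
        exact h2.1
      · left
        rw [mem_biUnion]
        exact ⟨w, mem_filter.2 ⟨hw, not_le.1 h4, h3.1⟩,
          mem_filter.2 ⟨mem_product.2 ⟨hq1, hq2⟩, h2.1, h3.2⟩⟩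
    · right; right
      refine ⟨?_, hL⟩
      intro v hv
      obtain ⟨w, hw, rfl⟩ := mem_image.1 hv
      rw [mem_filter] at hw
      by_contra h
      exact hL (hLt t q ht1 ht2 w hw.1 h)

/-! ### transfer and counting -/

theorem uok_mono {Q F W W' : ℝ} {U : Finset Ix} (h : UOK Q F W U) (hW : W ≤ W') : UOK Q F W' U :=
  ⟨h.ch, h.frq, h.adm, h.dif, h.one, h.card.trans hW⟩

theorem coprime_of_GP {M M' : ℝ} {π : Gi} (hπ : π ∈ GP M M') {t : ℕ} (ht : 1 ≤ t)
    (h : (t : ℝ) ^ 2 ≤ M) : IsCoprime π (t : Gi) := by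
  by_cases h1 : π ∣ (t : Gi)
  swap
  · exact ((GP_prime hπ).irreducible.coprime_iff_not_dvd).2 h1
  · exfalso
    have h2 := nm_dvd h1
    rw [Mom.nm_natCast] at h2
    have h3 := Nat.le_of_dvd (by positivity) h2
    have h4 : (nm π : ℝ) ≤ (t : ℝ) ^ 2 := by exact_mod_cast h3
    have h5 := (mem_GP.1 hπ).2.2.2.2.1
    linarith

theorem G4_eq {p : Par} {m : ℕ} {i w v : Ix} (a : ℕ) (hi : ChiG (i.1 : Gi) i.2.1)
    (hw : ChiG (w.1 : Gi) w.2.1) (hi0 : 1 ≤ i.1) (hw0 : 1 ≤ w.1) (hi2 : (i.1 : ℝ) ^ 2 ≤ p.M4)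
    (hw2 : (w.1 : ℝ) ^ 2 ≤ p.M4) (hc : Con w v) (h : ¬ Dist i.2.1 v.2.1 i.2.2 v.2.2) :
    G4 p m i a = G4 p m w a := by
  unfold G4
  refine sum_congr rfl fun π hπ => ?_
  have hπ' : π ∈ GP p.M4 (2 * p.M4) := (mem_filter.1 hπ).1
  have h1 : i.2.1 π ≠ 0 := (hi.supp π).2 (coprime_of_GP hπ' hi0 hi2)
  have h2 : w.2.1 π ≠ 0 := (hw.supp π).2 (coprime_of_GP hπ' hw0 hw2)
  have h3 : v.2.1 π = w.2.1 π := hc.eq π h2
  have h4 := not_dist h
  have h5 := h4.2 π h1 (by rw [h3]; exact h2)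
  unfold psi hk
  rw [h5, h3, h4.1, hc.frq]

theorem card_J {h M : ℝ} (hh : 1 ≤ h) (hM : 1 ≤ M) {m : ℕ} (hm : 1 ≤ m) :
    (((VV h M (2 * M)).image (fun v => v / m)).card : ℝ) ≤ (h + 1) / m + 2 := by
  have hm0 : (0 : ℝ) < m := by exact_mod_cast hm
  have hlM : 0 ≤ Real.log M := Real.log_nonneg hM
  have h2M : Real.log (2 * M) = Real.log 2 + Real.log M :=
    Real.log_mul (by norm_num) (by linarith)
  have hl2 : Real.log 2 ≤ 1 := by
    have := Real.log_two_lt_d9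
    linarith
  have hl20 : 0 ≤ Real.log 2 := Real.log_nonneg (by norm_num)
  have hAB : ⌊h * Real.log M⌋₊ ≤ ⌊h * Real.log (2 * M)⌋₊ := by
    apply Nat.floor_le_floor
    rw [h2M]
    nlinarith
  have h1 : (VV h M (2 * M)).image (fun v => v / m) ⊆
      Icc (⌊h * Real.log M⌋₊ / m) (⌊h * Real.log (2 * M)⌋₊ / m) := by
    intro a ha
    obtain ⟨v, hv, rfl⟩ := mem_image.1 ha
    unfold VV at hv
    rw [mem_Icc] at hv ⊢
    exact ⟨Nat.div_le_div_right hv.1, Nat.div_le_div_right hv.2⟩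
  have h2 := card_le_card h1
  rw [Nat.card_Icc] at h2
  have hA : (⌊h * Real.log M⌋₊ : ℝ) < (((⌊h * Real.log M⌋₊ / m : ℕ) : ℝ) + 1) * m := by
    have := Nat.lt_div_mul_add (a := ⌊h * Real.log M⌋₊) (b := m) (by omega)
    have h3 : (⌊h * Real.log M⌋₊ : ℝ) < ((⌊h * Real.log M⌋₊ / m : ℕ) : ℝ) * m + m := by
      exact_mod_cast this
    linarith
  have hB : ((⌊h * Real.log (2 * M)⌋₊ / m : ℕ) : ℝ) ≤ (⌊h * Real.log (2 * M)⌋₊ : ℝ) / m :=
    Nat.cast_div_le
  have hA' : (⌊h * Real.log M⌋₊ : ℝ) / m - 1 < ((⌊h * Real.log M⌋₊ / m : ℕ) : ℝ) := by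
    rw [sub_lt_iff_lt_add, div_lt_iff₀ hm0]
    exact hA
  have h4 : (((⌊h * Real.log (2 * M)⌋₊ / m + 1 - ⌊h * Real.log M⌋₊ / m : ℕ)) : ℝ) ≤
      (⌊h * Real.log (2 * M)⌋₊ : ℝ) / m - (⌊h * Real.log M⌋₊ : ℝ) / m + 2 := by
    have h5 : ⌊h * Real.log M⌋₊ / m ≤ ⌊h * Real.log (2 * M)⌋₊ / m + 1 :=
      (Nat.div_le_div_right hAB).trans (Nat.le_succ _)
    rw [Nat.cast_sub h5]
    push_cast at hA' hB ⊢
    linarith
  have h6 : (⌊h * Real.log (2 * M)⌋₊ : ℝ) ≤ h * Real.log (2 * M) :=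
    Nat.floor_le (by rw [h2M]; positivity)
  have h7 : h * Real.log M < (⌊h * Real.log M⌋₊ : ℝ) + 1 := Nat.lt_floor_add_one _
  have h8 : (⌊h * Real.log (2 * M)⌋₊ : ℝ) / m - (⌊h * Real.log M⌋₊ : ℝ) / m ≤ (h + 1) / m := by
    rw [← sub_div]
    refine div_le_div_of_nonneg_right ?_ hm0.le
    have h9 : h * Real.log (2 * M) = h * Real.log 2 + h * Real.log M := by rw [h2M]; ring
    have h10 : h * Real.log 2 ≤ h * 1 := mul_le_mul_of_nonneg_left hl2 (by linarith)
    linarith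
  have h9 : (((VV h M (2 * M)).image (fun v => v / m)).card : ℝ) ≤
      (((⌊h * Real.log (2 * M)⌋₊ / m + 1 - ⌊h * Real.log M⌋₊ / m : ℕ)) : ℝ) := by
    exact_mod_cast h2
  linarith

theorem ev_log (a : ℝ) : ∀ᶠ N : ℝ in atTop, Real.log N ^ a ≤ Real.sqrt N := by
  have h := (isLittleO_log_rpow_rpow_atTop a (show (0 : ℝ) < 1 / 2 by norm_num)).bound
    (show (0 : ℝ) < 1 by norm_num)
  filter_upwards [h, eventually_ge_atTop 1] with N h1 h2
  have hl : 0 ≤ Real.log N := Real.log_nonneg h2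
  rw [one_mul, Real.norm_of_nonneg (Real.rpow_nonneg hl _),
    Real.norm_of_nonneg (Real.rpow_nonneg (by linarith) _)] at h1
  rw [Real.sqrt_eq_rpow]
  exact h1

end USETM

open USETM in
/-- **USET** -/
theorem specUSET (hB : SpecBRG) (hC : SpecCON) (hL : SpecLVX) : SpecUSET := by
  classical
  intro ch0 A₁ aQ aT hch0 hA₁ haQ haT cT cP ch cw hch
  obtain ⟨u, hu⟩ := con_choice hC
  filter_upwards [hL aT A₁ haT (by linarith), ev_log (2 * aT),
    Real.tendsto_log_atTop.eventually_ge_atTop (2000 + aT), eventually_ge_atTop 1] with N h1 h2 h3 h4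
  intro T₁ Km hT1 hT2 hKm
  have hl : 0 < Real.log N := by linarith
  have hl1 : 1 ≤ Real.log N := by linarith
  have hsq : ∀ t : ℕ, t ≤ T₁ → (t : ℝ) ^ 2 ≤ Real.sqrt N := by
    intro t ht
    have h5 : (t : ℝ) ≤ Real.log N ^ aT := le_trans (by exact_mod_cast ht) hT1
    calc (t : ℝ) ^ 2 ≤ (Real.log N ^ aT) ^ 2 := pow_le_pow_left₀ (Nat.cast_nonneg _) h5 2
      _ = Real.log N ^ (2 * aT) := by
          rw [← Real.rpow_natCast, ← Real.rpow_mul hl.le]
          congr 1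
          push_cast
          ring
      _ ≤ Real.sqrt N := h2
  have hm1 : Real.log N ≤ Real.log N ^ ch / Real.log N ^ ch0 := by
    rw [← Real.rpow_sub hl]
    calc Real.log N = Real.log N ^ (1 : ℝ) := (Real.rpow_one _).symm
      _ ≤ Real.log N ^ (ch - ch0) := Real.rpow_le_rpow_of_exponent_le hl1 (by linarith)
  have hx : ∃ m : ℕ, m = ⌊Real.log N ^ ch / Real.log N ^ ch0⌋₊ := ⟨_, rfl⟩
  obtain ⟨m, hm⟩ := hx
  rw [← hm]
  have hmpos : 1 ≤ m := by
    rw [hm]
    exact Nat.le_floor (by push_cast; linarith)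
  have hm2 : Real.log N ^ ch / Real.log N ^ ch0 ≤ 2 * m := by
    have h5 := Nat.lt_floor_add_one (Real.log N ^ ch / Real.log N ^ ch0)
    rw [← hm] at h5
    have : (1 : ℝ) ≤ m := by exact_mod_cast hmpos
    linarith
  -- the large characters
  set C : Finset Ix := (Icc 1 T₁).biUnion (fun t => ((chs t ×ˢ IK Km).image (ixq t)).filter
    (fun i => psi i ⟨0, 1⟩ = 1 ∧ Lrg (par N cT cP ch cw) m A₁ i)) with hCdef
  obtain ⟨W, hWC, hW2, hW3⟩ := exists_reps C
  have hmem : ∀ w ∈ W, 1 ≤ w.1 ∧ w.1 ≤ T₁ ∧ ChiG (w.1 : Gi) w.2.1 ∧ psi w ⟨0, 1⟩ = 1 ∧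
      w.2.2 ∈ IK Km ∧ Lrg (par N cT cP ch cw) m A₁ w := by
    intro w hw
    have h5 := hWC hw
    rw [hCdef, mem_biUnion] at h5
    obtain ⟨t, ht, h6⟩ := h5
    rw [mem_filter, mem_image] at h6
    obtain ⟨⟨q, hq, rfl⟩, h7, h8⟩ := h6
    rw [mem_Icc] at ht
    rw [mem_product] at hq
    exact ⟨ht.1, ht.2, hB.1 t q.1 ht.1, h7, hq.2, h8⟩
  have hM4 : (par N cT cP ch cw).M4 = Real.sqrt N := rfl
  have hLt : ∀ (t : ℕ) (q : MulChar (Cls.RR (md t)) ℂ × ℤ), 1 ≤ t → t ≤ T₁ → ∀ w ∈ W,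
      ¬ Dist (fn t q.1) (u w).2.1 q.2 (u w).2.2 → Lrg (par N cT cP ch cw) m A₁ (ixq t q) := by
    intro t q ht1 ht2 w hw h5
    obtain ⟨h6, h7, h8, h9, h10, h11⟩ := hmem w hw
    have hc := hu w h6 h8
    rcases h11 with h12 | ⟨a, ha, h12⟩
    · left
      have h13 := not_dist h12
      have h14 := hc.uni 1 (fun _ => 1) le_rfl chiG_one (fun z _ hz => (h13.2 z hz one_ne_zero).symm)
      have h15 := not_dist h5
      rintro (h16 | ⟨z, h16, h17, h18⟩)
      · apply h16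
        show q.2 = 0
        rw [h15.1, hc.frq]
        exact h13.1
      · apply h18
        have h19 : (u w).2.1 z = 1 := h14.2 z one_ne_zero
        have h20 := h15.2 z h16 (by rw [h19]; exact one_ne_zero)
        show fn t q.1 z = 1
        rw [h20, h19]
    · right
      refine ⟨a, ha, ?_⟩
      have : G4 (par N cT cP ch cw) m (ixq t q) a = G4 (par N cT cP ch cw) m w a :=
        G4_eq a (hB.1 t q.1 ht1) h8 ht1 h6 (hsq t ht2) (hsq w.1 h7) hc h5
      rw [this]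
      exact h12
  obtain ⟨U, hU, E, hE, hfin⟩ := main hB hT2 (Q := Real.log N ^ aQ)
    (Real.one_le_rpow hl1 (by linarith)) u (Lrg (par N cT cP ch cw) m A₁) W
    (fun w hw => hu w (hmem w hw).1 (hmem w hw).2.2.1)
    (fun w hw => ⟨(hmem w hw).2.2.2.1, (hmem w hw).2.2.2.2.1⟩) hW2
    (by
      intro t q ht1 ht2 hq1 hq2 hq3 hLq
      have h5 : ixq t q ∈ C := by
        rw [hCdef, mem_biUnion]
        exact ⟨t, mem_Icc.2 ⟨ht1, ht2⟩, mem_filter.2 ⟨mem_image_of_mem _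
          (mem_product.2 ⟨hq1, hq2⟩), hq3, hLq⟩⟩
      exact hW3 _ h5)
    (by
      have h5 : ix1 ∈ C := by
        rw [hCdef, mem_biUnion]
        refine ⟨1, mem_Icc.2 ⟨le_rfl, hT2⟩, mem_filter.2 ⟨mem_image.2 ⟨(1, 0), mem_product.2
          ⟨mem_chs le_rfl _, ?_⟩, ?_⟩, ?_, ?_⟩⟩
        · unfold IK
          rw [mem_Icc]
          constructor
          · simp
          · positivity
        · have h6 : fn 1 (1 : MulChar (Cls.RR (md 1)) ℂ) = fun _ => 1 := by
            funext z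
            unfold fn
            rw [MulChar.one_apply]
            have : Subsingleton (Cls.RR (md 1)) := by
              have h7 : Ideal.span {md 1} = ⊤ := by
                rw [Ideal.span_singleton_eq_top]
                have : md 1 = 1 := by simp [md]
                rw [this]
                exact isUnit_one
              rw [Ideal.Quotient.subsingleton_iff]
              exact h7
            exact isUnit_of_subsingleton _
          unfold ixq ix1
          rw [h6]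
        · unfold psi hk ix1
          simp [xi]
        · left
          rintro (h6 | ⟨z, _, _, h6⟩) <;> exact h6 rfl
      exact hW3 _ h5)
    hLt
  -- the size of `W`
  have hWcard : (W.card : ℝ) ≤ Real.log N ^ (2 * A₁ + ch0 + 1) := by
    have h5 : W ⊆ W.filter (fun w => Eqv w ix1) ∪ ((I4 (par N cT cP ch cw)).image
        (fun v => v / m)).biUnion (fun a => W.filter (fun w => Real.sqrt N * Real.log N ^ (-A₁) <
          ‖∑ π ∈ GG (par N cT cP ch cw).h (par N cT cP ch cw).M4 m a, psi w π‖)) := by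
      intro w hw
      rw [mem_union, mem_biUnion]
      rcases (hmem w hw).2.2.2.2.2 with h6 | ⟨a, ha, h6⟩
      · exact Or.inl (mem_filter.2 ⟨hw, h6⟩)
      · exact Or.inr ⟨a, ha, mem_filter.2 ⟨hw, h6⟩⟩
    have h6 : (W.filter (fun w => Eqv w ix1)).card ≤ 1 := by
      rw [card_le_one]
      intro w hw w' hw'
      rw [mem_filter] at hw hw'
      by_contra hne
      have h7 := not_dist hw.2
      have h8 := not_dist hw'.2
      rcases hW2 w hw.1 w' hw'.1 hne with h9 | ⟨z, h9, h10, h11⟩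
      · exact h9 (h7.1.trans h8.1.symm)
      · exact h11 ((h7.2 z h9 one_ne_zero).trans (h8.2 z h10 one_ne_zero).symm)
    have h7 : ∀ a : ℕ, ((W.filter (fun w => Real.sqrt N * Real.log N ^ (-A₁) <
          ‖∑ π ∈ GG (par N cT cP ch cw).h (par N cT cP ch cw).M4 m a, psi w π‖)).card : ℝ) ≤
        300 * Real.log N ^ (2 * A₁) := by
      intro a
      refine h1 _ (GG (par N cT cP ch cw).h (par N cT cP ch cw).M4 m a) ?_ ?_ ?_ ?_
      · exact filter_subset _ _
      · intro i hi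
        rw [mem_filter] at hi
        obtain ⟨h8, h9, h10, h11, h12, h13⟩ := hmem i hi.1
        refine ⟨h8, le_trans (by exact_mod_cast h9) hT1, h10, ?_⟩
        unfold IK at h12
        rw [mem_Icc] at h12
        have h14 : |i.2.2| ≤ (Km : ℤ) := abs_le.2 h12
        have h15 : |(i.2.2 : ℝ)| ≤ Km := by exact_mod_cast h14
        nlinarith
      · intro i hi j hj hij
        exact hW2 i (mem_filter.1 hi).1 j (mem_filter.1 hj).1 hij
      · intro i hi
        exact (mem_filter.1 hi).2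
    have h8 : (((I4 (par N cT cP ch cw)).image (fun v => v / m)).card : ℝ) ≤
        6 * Real.log N ^ ch0 := by
      have hh : 1 ≤ Real.log N ^ ch := Real.one_le_rpow hl1 (by linarith)
      have h9 := card_J hh (Real.one_le_sqrt.2 h4) hmpos
      have h10 : (Real.log N ^ ch + 1) / m ≤ 4 * Real.log N ^ ch0 := by
        have hm0 : (0 : ℝ) < m := by exact_mod_cast hmpos
        rw [div_le_iff₀ hm0]
        rw [div_le_iff₀ (Real.rpow_pos_of_pos hl _)] at hm2
        linarith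
      have h11 : 1 ≤ Real.log N ^ ch0 := Real.one_le_rpow hl1 (by linarith)
      refine h9.trans ?_
      linarith
    have h9 : (W.card : ℝ) ≤ 1 + (6 * Real.log N ^ ch0) * (300 * Real.log N ^ (2 * A₁)) := by
      have h10 : W.card ≤ 1 + ∑ a ∈ (I4 (par N cT cP ch cw)).image (fun v => v / m),
          (W.filter (fun w => Real.sqrt N * Real.log N ^ (-A₁) <
          ‖∑ π ∈ GG (par N cT cP ch cw).h (par N cT cP ch cw).M4 m a, psi w π‖)).card :=
        (card_le_card h5).trans ((card_union_le _ _).trans (add_le_add h6 card_biUnion_le))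
      have h11 : (W.card : ℝ) ≤ 1 + ∑ a ∈ (I4 (par N cT cP ch cw)).image (fun v => v / m),
          ((W.filter (fun w => Real.sqrt N * Real.log N ^ (-A₁) <
          ‖∑ π ∈ GG (par N cT cP ch cw).h (par N cT cP ch cw).M4 m a, psi w π‖)).card : ℝ) := by
        exact_mod_cast h10
      refine h11.trans (add_le_add le_rfl ((sum_le_sum fun a _ => h7 a).trans ?_))
      rw [sum_const, nsmul_eq_mul]
      exact mul_le_mul_of_nonneg_right h8 (by positivity)
    have h10 : Real.log N ^ (2 * A₁ + ch0 + 1) =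
        Real.log N ^ ch0 * Real.log N ^ (2 * A₁) * Real.log N := by
      rw [show 2 * A₁ + ch0 + 1 = ch0 + 2 * A₁ + 1 by ring, Real.rpow_add hl, Real.rpow_add hl,
        Real.rpow_one]
    have h11 : 1 ≤ Real.log N ^ ch0 * Real.log N ^ (2 * A₁) := by
      rw [← Real.rpow_add hl]
      exact Real.one_le_rpow hl1 (by linarith)
    rw [h10]
    nlinarith
  refine ⟨U, uok_mono hU (hWcard.trans (Real.rpow_le_rpow_of_exponent_le hl1 (by linarith))), E,
    hE.trans ?_, ?_⟩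
  · have h5 : 1 + Real.log T₁ ≤ Real.log N ^ (2 : ℝ) := by
      have hT0 : (0 : ℝ) < T₁ := by exact_mod_cast hT2
      have h6 : Real.log T₁ ≤ aT * Real.log (Real.log N) := by
        rw [← Real.log_rpow hl]
        exact Real.log_le_log hT0 hT1
      have h7 : Real.log (Real.log N) ≤ Real.log N := by
        have := Real.log_le_sub_one_of_pos hl
        linarith
      have h8 : aT * Real.log (Real.log N) ≤ aT * Real.log N := mul_le_mul_of_nonneg_left h7 haT
      have h9 : Real.log N ^ (2 : ℝ) = Real.log N * Real.log N := by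
        rw [show (2 : ℝ) = 1 + 1 by norm_num, Real.rpow_add hl, Real.rpow_one]
      rw [h9]
      nlinarith
    have h6 : Real.log N ^ (2 * A₁ + ch0 + 3 - aQ) =
        Real.log N ^ (2 * A₁ + ch0 + 1) * (Real.log N ^ (2 : ℝ) / Real.log N ^ aQ) := by
      rw [← Real.rpow_sub hl, ← Real.rpow_add hl]
      congr 1
      ring
    rw [h6]
    have h7 : 0 ≤ Real.log (T₁ : ℝ) := Real.log_nonneg (by exact_mod_cast hT2)
    refine mul_le_mul hWcard (div_le_div_of_nonneg_right h5 (by positivity)) ?_ (by positivity)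
    exact div_nonneg (by linarith) (by positivity)
  · intro t ht1 ht2 q hq1 hq2 hq3
    rcases hfin t ht1 ht2 q hq1 hq2 hq3 with h5 | h5 | ⟨h5, h6⟩
    · exact Or.inl h5
    · exact Or.inr (Or.inl h5)
    · refine Or.inr (Or.inr ⟨h5, fun a ha => ?_⟩)
      by_contra h7
      exact h6 (Or.inr ⟨a, ha, not_le.1 h7⟩)

end Pool.Agent.Lib.MP391708.XU
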